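import Pool.Agent.Lib.MP_a7239a_co.RB.Defs

/-!
# Theorem R*, the end game: module GAME (exchange of omitted elements, the rules, mirror)
-/

open Finset

namespace Pool.Agent.Lib.MPa7239a.RB

section
variable {o : ℕ} [NeZero o] {r d : ZMod o → ℕ} {m t s n c q L D h θ : ℕ}

theorem Adm.exchange (hd : Adm r c d) {f g : ZMod o → ℕ} (hf : ∀ u, f u ≤ d u)
    (hg : ∀ u, g u ≤ r u - d u) (hcard : ∑ u, f u = ∑ u, g u)
    (hsum : ∑ u, f u • u = ∑ u, g u • u) : Adm r c (fun u => d u - f u + g u) := by
  have key : ∀ u, d u - f u + g u + f u = d u + g u := fun u => by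
    have := hf u
    omega
  refine ⟨fun u => ?_, ?_, ?_⟩
  · have := hf u
    have := hg u
    have := hd.le u
    show d u - f u + g u ≤ r u
    omega
  · have h1 : ∑ u, (d u - f u + g u) + ∑ u, f u = ∑ u, d u + ∑ u, g u := by
      rw [← sum_add_distrib, ← sum_add_distrib]
      exact sum_congr rfl fun u _ => key u
    have h2 := hd.card
    omega
  · have h1 : ∑ u, (d u - f u + g u) • u + ∑ u, f u • u = ∑ u, d u • u + ∑ u, g u • u := by
      rw [← sum_add_distrib, ← sum_add_distrib]
      refine sum_congr rfl fun u _ => ?_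
      rw [← add_smul, ← add_smul, key u]
    rw [hsum] at h1
    rw [add_right_cancel h1, hd.sum]

theorem sum_ite_one (p : ZMod o) : ∑ u, (if u = p then 1 else 0) = 1 := by
  rw [sum_ite_eq', if_pos (mem_univ _)]

theorem sum_ite_smul (p : ZMod o) (k : ℕ) : ∑ u, (if u = p then k else 0) • u = k • p := by
  have : ∀ u : ZMod o, (if u = p then k else 0) • u = if u = p then k • p else 0 := fun u => by
    split_ifs with h
    · rw [h]
    · rw [zero_smul]
  rw [sum_congr rfl fun u _ => this u, sum_ite_eq', if_pos (mem_univ _)]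

/-- the omitted `y`, `y'` go back, `v`, `v'` are omitted instead -/
theorem Adm.pair (hd : Adm r c d) {y y' v v' : ZMod o} (hy : 1 ≤ d y) (hy' : 1 ≤ d y')
    (hyy : y = y' → 2 ≤ d y) (hv : d v < r v) (hv' : d v' < r v') (hvv : v = v' → d v + 2 ≤ r v)
    (hsum : y + y' = v + v') :
    Adm r c (fun u => d u - ((if u = y then 1 else 0) + (if u = y' then 1 else 0)) +
      ((if u = v then 1 else 0) + (if u = v' then 1 else 0))) := by
  refine hd.exchange (fun u => ?_) (fun u => ?_) ?_ ?_
  · split_ifs with h h' h'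
    · have := hyy (h.symm.trans h')
      rw [h]
      omega
    · rw [h]
      omega
    · rw [h']
      omega
    · omega
  · split_ifs with h h' h'
    · have := hvv (h.symm.trans h')
      rw [h]
      omega
    · rw [h]
      omega
    · rw [h']
      omega
    · omega
  · rw [sum_add_distrib, sum_add_distrib, sum_ite_one, sum_ite_one, sum_ite_one, sum_ite_one]
  · simp only [add_smul, sum_add_distrib, sum_ite_smul, one_smul]
    exact hsum

theorem Adm.le_card (hd : Adm r c d) (u : ZMod o) : d u ≤ c := by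
  rw [← hd.card]
  exact single_le_sum (fun _ _ => Nat.zero_le _) (mem_univ _)

theorem Adm.add_le_card (hd : Adm r c d) {u v : ZMod o} (huv : u ≠ v) : d u + d v ≤ c := by
  rw [← hd.card, ← sum_pair huv]
  exact sum_le_sum_of_subset (subset_univ _)

/-- a fat row omits at most one element -/
theorem Game.le_one (g : Game r h θ c) (hd : Adm r c d) {u : ZMod o} (hfat : h + θ ≤ 2 * r u)
    (hc : c + 2 ≤ r u) : d u ≤ 1 := by
  by_contra hcon
  have h1 := g.rule1 d hd u hfat (by omega)
  have h2 := hd.le_card u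
  omega

/-- a row omitting one element and another row -/
theorem Game.two (g : Game r h θ c) (hd : Adm r c d) {u v : ZMod o} (huv : u ≠ v)
    (hu : d u = 1) (hv : 1 ≤ d v) (hru : 2 ≤ r u) (hrv : c ≤ r v)
    (hr : h + c ≤ r u + r v + 1) : False := by
  have h1 := hd.add_le_card huv
  have h2 := g.rule2 d hd u v huv (by omega) (by omega) hv (by omega)
  have h3 := le_max_right (d u) (r u - d u)
  have h4 := le_max_right (d v) (r v - d v)
  omega

/-- two rows omitting one element each, or one and all but one -/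
theorem Game.two' (g : Game r h θ c) (hd : Adm r c d) {u v : ZMod o} (huv : u ≠ v)
    (hu : d u = 1 ∨ d u + 1 = r u) (hv : d v = 1 ∨ d v + 1 = r v) (hru : 2 ≤ r u) (hrv : 2 ≤ r v)
    (hr : h < r u + r v) : False := by
  have h2 := g.rule2 d hd u v huv (by omega) (by omega) (by omega) (by omega)
  have h3 := le_max_right (d u) (r u - d u)
  have h4 := le_max_right (d v) (r v - d v)
  have h5 := le_max_left (d u) (r u - d u)
  have h6 := le_max_left (d v) (r v - d v)
  omega

/-- `{y, y'}` for `{v, v'}`, rows `v ≠ v'` complete before -/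
theorem Game.pair_ne (g : Game r h θ c) (hd : Adm r c d) {y y' v v' : ZMod o} (hy : 1 ≤ d y)
    (hy' : 1 ≤ d y') (hyy : y = y' → 2 ≤ d y) (hne : v ≠ v') (hv : d v = 0) (hv' : d v' = 0)
    (hrv : 2 ≤ r v) (hrv' : 2 ≤ r v') (hr : h < r v + r v') (hsum : y + y' = v + v') :
    False := by
  have hA := hd.pair hy hy' hyy (by omega) (by omega) (fun h => absurd h hne) hsum
  have e1 : v ≠ y := fun h => by rw [h] at hv; omega
  have e2 : v ≠ y' := fun h => by rw [h] at hv; omega
  have e3 : v' ≠ y := fun h => by rw [h] at hv'; omega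
  have e4 : v' ≠ y' := fun h => by rw [h] at hv'; omega
  refine g.two' hA hne (Or.inl ?_) (Or.inl ?_) hrv hrv' hr
  · rw [if_neg e1, if_neg e2, if_pos rfl, if_neg hne, hv]
  · rw [if_neg e3, if_neg e4, if_pos rfl, if_neg hne.symm, hv']

/-- `{y, y'}` for `{v, v}`, row `v` complete before, fat -/
theorem Game.pair_eq (g : Game r h θ c) (hd : Adm r c d) {y y' v : ZMod o} (hy : 1 ≤ d y)
    (hy' : 1 ≤ d y') (hyy : y = y' → 2 ≤ d y) (hv : d v = 0) (hrv : 4 ≤ r v)
    (hr : h + θ ≤ 2 * r v) (hsum : y + y' = v + v) : False := by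
  have hA := hd.pair hy hy' hyy (by omega) (by omega) (fun _ => by omega) hsum
  have e1 : v ≠ y := fun h => by rw [h] at hv; omega
  have e2 : v ≠ y' := fun h => by rw [h] at hv; omega
  have h1 := g.rule1 _ hA v hr
  simp only [if_neg e1, if_neg e2, if_true, hv] at h1
  omega

/-- `{y, y'}` for `{v, v'}`, row `v` fat with one omitted element before -/
theorem Game.pair_inc (g : Game r h θ c) (hd : Adm r c d) {y y' v v' : ZMod o} (hy : 1 ≤ d y)
    (hy' : 1 ≤ d y') (hyy : y = y' → 2 ≤ d y) (hv : d v = 1) (hne : v ≠ v') (h1 : v ≠ y)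
    (h2 : v ≠ y') (hv' : d v' < r v') (hrv : 4 ≤ r v) (hr : h + θ ≤ 2 * r v)
    (hsum : y + y' = v + v') : False := by
  have hA := hd.pair hy hy' hyy (by omega) hv' (fun h => absurd h hne) hsum
  have h3 := g.rule1 _ hA v hr
  simp only [if_neg h1, if_neg h2, if_true, if_neg hne, hv] at h3
  omega

/-- an emptied fat row `y`: `{y, y}` for `{v, v'}` -/
theorem Game.pair_dec (g : Game r h θ c) (hd : Adm r c d) {y v v' : ZMod o}
    (hy : r y ≤ d y + 1) (hry : 5 ≤ r y) (hr : h + θ ≤ 2 * r y) (h1 : v ≠ y) (h2 : v' ≠ y)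
    (hv : d v < r v) (hv' : d v' < r v') (hvv : v = v' → d v + 2 ≤ r v)
    (hsum : y + y = v + v') : False := by
  have hA := hd.pair (y := y) (y' := y) (by omega) (by omega) (fun _ => by omega) hv hv' hvv hsum
  have h3 := g.rule1 _ hA y hr
  simp only [if_neg h1.symm, if_neg h2.symm, if_true] at h3
  have := hd.le y
  omega

/-- `o` classes contain a nonempty part of sum `0` -/
theorem exists_zero_part {f : ZMod o → ℕ} (hf : o ≤ ∑ u, f u) :
    ∃ f' : ZMod o → ℕ, (∀ u, f' u ≤ f u) ∧ 1 ≤ ∑ u, f' u ∧ ∑ u, f' u ≤ o ∧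
      ∑ u, f' u • u = 0 := by
  set s : Multiset (ZMod o) := ∑ u, Multiset.replicate (f u) u with hs
  have hcount : ∀ u, s.count u = f u := fun u => by
    rw [hs, Multiset.count_sum']
    simp only [Multiset.count_replicate]
    rw [sum_ite_eq', if_pos (mem_univ _)]
  have hcard : Multiset.card s = ∑ u, f u := by
    rw [← Multiset.sum_count_eq_card (s := univ) (m := s) (fun a _ => mem_univ a)]
    exact sum_congr rfl fun u _ => hcount u
  set l := s.toList with hl
  have hlen : l.length = ∑ u, f u := by rw [hl, Multiset.length_toList, hcard]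
  obtain ⟨i, j, hij, hP⟩ := Fintype.exists_ne_map_eq_of_card_lt
    (fun i : Fin (o + 1) => (l.take i).sum) (by rw [ZMod.card, Fintype.card_fin]; omega)
  have main : ∀ i j : ℕ, i < j → j ≤ o → (l.take i).sum = (l.take j).sum →
      ∃ g : ZMod o → ℕ, (∀ u, g u ≤ f u) ∧ 1 ≤ ∑ u, g u ∧ ∑ u, g u ≤ o ∧
        ∑ u, g u • u = 0 := by
    intro i j hij hj h
    set l' := (l.take j).drop i with hl'
    have h1 : (l.take j).sum = (l.take i).sum + l'.sum := by
      conv_lhs => rw [← List.take_append_drop i (l.take j)]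
      rw [List.sum_append, List.take_take, min_eq_left hij.le]
    have h2 : l'.sum = 0 := by
      rw [← h] at h1
      exact (left_eq_add.1 h1)
    have h3 : l'.length = j - i := by
      rw [hl', List.length_drop, List.length_take, min_eq_left (by omega)]
    have h5 := Multiset.sum_count_eq_card (s := univ) (m := (l' : Multiset (ZMod o)))
        (fun a _ => mem_univ a)
    simp only [Multiset.coe_count, Multiset.coe_card] at h5
    refine ⟨fun u => l'.count u, fun u => ?_, ?_, ?_, ?_⟩
    · rw [← hcount u, ← Multiset.coe_toList s, Multiset.coe_count]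
      exact ((List.drop_sublist i _).trans (List.take_sublist j l)).count_le u
    · rw [h5, h3]
      omega
    · rw [h5, h3]
      omega
    · have h4 := Finset.sum_multiset_count_of_subset (l' : Multiset (ZMod o)) univ
        (fun a _ => mem_univ a)
      simp only [Multiset.coe_count, Multiset.sum_coe] at h4
      rw [← h4, h2]
  have hij' : (i : ℕ) ≠ (j : ℕ) := fun h => hij (Fin.ext h)
  rcases lt_or_gt_of_ne hij' with h | h
  · exact main i j h (Nat.lt_succ_iff.1 j.2) hP
  · exact main j i h (Nat.lt_succ_iff.1 i.2) hP.symm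

/-- the omitted elements outside a fat row `u` are fewer than `o`: otherwise a part of them with sum
`(number) • u` is exchanged with elements of row `u` (at least two), and `rule1` applies -/
theorem Game.zero_row (g : Game r h θ c) (hd : Adm r c d) {u : ZMod o} (hfat : h + θ ≤ 2 * r u)
    (h1 : o + 3 ≤ r u) (h2 : c + 2 ≤ r u) (h3 : o + 1 ≤ c) : False := by
  have hd1 := g.le_one hd hfat h2
  -- the omitted elements outside row `u`, translated
  set f : ZMod o → ℕ := fun v => if v = 0 then 0 else d (u + v) with hf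
  have hsd : ∑ v, d (u + v) = c := by
    rw [← hd.card]
    exact Fintype.sum_equiv (Equiv.addLeft u) _ _ fun v => rfl
  have hfs : ∑ v, f v + d u = c := by
    rw [← hsd, ← sum_erase_add _ _ (mem_univ (0 : ZMod o)),
      ← sum_erase_add (f := fun v => d (u + v)) _ (mem_univ (0 : ZMod o))]
    have : f 0 = 0 := if_pos rfl
    rw [this, add_zero, add_zero]
    congr 1
    refine sum_congr rfl fun v hv => ?_
    exact if_neg (ne_of_mem_erase hv)
  obtain ⟨k, hk, hk1, hko, hk0⟩ := exists_zero_part (f := f) (by omega)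
  have hk00 : k 0 = 0 := Nat.le_zero.1 ((hk 0).trans_eq (if_pos rfl))
  have hkd : ∀ v, k v ≤ d (u + v) := fun v => (hk v).trans (by
    simp only [hf]
    split_ifs <;> omega)
  -- at least two elements
  have hk2 : 2 ≤ ∑ v, k v := by
    by_contra hcon
    have e1 : ∑ v, k v = 1 := by omega
    obtain ⟨v, hv⟩ : ∃ v, k v ≠ 0 := by
      by_contra hne
      push Not at hne
      rw [sum_eq_zero fun v _ => hne v] at e1
      omega
    have e2 : ∀ w, w ≠ v → k w = 0 := by
      intro w hw
      have e3 : k w + k v ≤ ∑ v, k v := by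
        rw [← sum_pair hw]
        exact sum_le_sum_of_subset (subset_univ _)
      omega
    have e3 : k v = 1 := by
      have : k v ≤ ∑ v, k v := single_le_sum (fun _ _ => Nat.zero_le _) (mem_univ _)
      omega
    rw [sum_eq_single v (fun w _ hw => by rw [e2 w hw, zero_smul])
      (fun h => absurd (mem_univ _) h), e3, one_smul] at hk0
    rw [hk0] at e3
    omega
  set K := ∑ v, k v with hK
  have hKc : K + d u ≤ c := by
    have : K ≤ ∑ v, f v := sum_le_sum fun v _ => hk v
    omega
  have e1 : ∑ v, k (v - u) = K := Fintype.sum_equiv (Equiv.subRight u) _ _ fun v => rfl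
  have e2 : ∑ v, k (v - u) • v = K • u := by
    have e3 : ∑ v, k (v - u) • v = ∑ v, k v • (v + u) := by
      refine Fintype.sum_equiv (Equiv.subRight u) _ _ fun v => ?_
      rw [Equiv.subRight_apply, sub_add_cancel]
    rw [e3]
    simp only [smul_add, sum_add_distrib, hk0, zero_add]
    rw [← sum_smul]
  have hA := hd.exchange (f := fun v => k (v - u)) (g := fun v => if v = u then K else 0)
    (fun v => by
      have := hkd (v - u)
      rwa [add_sub_cancel] at this) (fun v => by
      split_ifs with hv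
      · rw [hv]
        have := hd.le_card u
        omega
      · omega) (by rw [e1, sum_ite_eq', if_pos (mem_univ _)]) (by rw [e2, sum_ite_smul])
  have h6 := g.rule1 _ hA u hfat
  simp only [if_true, sub_self, hk00] at h6
  omega

/-! ### Reflection -/

/-- reflection of the sums -/
theorem sum_refl (w : ZMod o) (f : ZMod o → ℕ) :
    ∑ u, f (w - u) • u = (∑ u, f u) • w - ∑ u, f u • u := by
  have h1 : ∑ u, f (w - u) • u = ∑ u, f u • (w - u) := by
    refine Fintype.sum_equiv (Equiv.subLeft w) _ _ fun u => ?_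
    rw [Equiv.subLeft_apply, sub_sub_cancel]
  rw [h1, sum_smul, ← sum_sub_distrib]
  exact sum_congr rfl fun u _ => smul_sub _ _ _

omit [NeZero o] in
theorem smul_eq_of_dvd {a c : ℕ} (hn : o ∣ a - c) (hc : c ≤ a) (w : ZMod o) : c • w = a • w := by
  obtain ⟨k, hk⟩ := hn
  have : a = c + o * k := by omega
  rw [this, add_smul, mul_smul, nsmul_eq_mul (o : ℕ), ZMod.natCast_self, zero_mul, add_zero]

theorem Adm.mirror (hn : o ∣ ∑ u, r u - c) (hc : c ≤ ∑ u, r u) (q : ZMod o) (hd : Adm r c d) :
    Adm (fun u => r (q - u)) c (fun u => d (q - u)) := by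
  refine ⟨fun u => hd.le _, ?_, ?_⟩
  · rw [← hd.card]
    exact Fintype.sum_equiv (Equiv.subLeft q) _ _ fun u => rfl
  · rw [sum_refl, sum_refl, hd.card, hd.sum, smul_eq_of_dvd hn hc]

theorem Adm.of_mirror (hn : o ∣ ∑ u, r u - c) (hc : c ≤ ∑ u, r u) {q : ZMod o}
    (hd : Adm (fun u => r (q - u)) c d) : Adm r c (fun u => d (q - u)) := by
  have h1 : ∑ u, r (q - u) = ∑ u, r u := Fintype.sum_equiv (Equiv.subLeft q) _ _ fun u => rfl
  have h2 := hd.mirror (by rw [h1]; exact hn) (by rw [h1]; exact hc) q
  simpa only [sub_sub_cancel] using h2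

theorem Game.mirror (hn : o ∣ ∑ u, r u - c) (hc : c ≤ ∑ u, r u) (q : ZMod o)
    (g : Game r h θ c) : Game (fun u => r (q - u)) h θ c := by
  refine ⟨fun u => g.row_le _, ?_, ?_, ?_⟩
  · intro d hd u hu h2
    have := g.rule1 _ (hd.of_mirror hn hc) (q - u) hu
    simp only [sub_sub_cancel] at this
    exact this h2
  · intro d hd u v huv h1 h2 h3 h4
    have := g.rule2 _ (hd.of_mirror hn hc) (q - u) (q - v) (fun h => huv (sub_right_injective h))
    simp only [sub_sub_cancel] at this
    exact this h1 h2 h3 h4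
  · intro u hu
    obtain ⟨d, hd, h1⟩ := g.del (q - u) hu
    exact ⟨_, hd.mirror hn hc q, h1⟩

end

end Pool.Agent.Lib.MPa7239a.RB
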