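import Pool.Agent.Lib.MP_a7239a_co.RB.NUM
import Pool.Agent.Lib.MP_a7239a_co.RB.GAME

/-!
# Theorem R*, the end game: module A (`q s < t`)
-/

open Finset

namespace Pool.Agent.Lib.MPa7239a.RB

variable {o : ℕ} [NeZero o] {r d : ZMod o → ℕ} {m t s n c q L D h θ : ℕ}

namespace EndA

/-- the losses are small -/
theorem loss_small (N : Num r m t s n c q L D) (hq : q < 400) : 1000 * ((q + 1) * L) ≤ m := by
  have h1 : (q + 1) * L ≤ 400 * L := Nat.mul_le_mul_right _ (by omega)
  have h2 := N.hL
  omega

/-- the omitted elements outside the main classes -/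
theorem far_of_single (N : Num r m t s n c q L D) (hd : Adm r c d) {i : ℕ} (hi : i ≤ q)
    (h1 : d (i : ZMod o) ≤ 1) (h0 : ∀ j ≤ q, j ≠ i → d (j : ZMod o) = 0) :
    c ≤ far d q 0 + 1 := by
  have h2 := N.omit_sum hd
  have h3 : ∑ j ∈ range (q + 1), d (j : ZMod o) = d (i : ZMod o) := by
    rw [sum_eq_single_of_mem i (mem_range.2 (by omega))]
    intro j hj hne
    exact h0 j (by have := mem_range.1 hj; omega) hne
  omega

/-- a class outside the main classes without omitted elements -/
theorem far_add (hd : Adm r c d) {v : ZMod o}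
    (hv : v ∉ near o q 0) (h0 : d v = 0) : far d q 0 + r v ≤ far r q 0 := by
  unfold far
  have h1 : v ∈ univ \ near o q 0 := mem_sdiff.2 ⟨mem_univ _, hv⟩
  rw [← add_sum_erase _ d h1, ← add_sum_erase _ r h1, h0]
  have h2 : ∑ x ∈ (univ \ near o q 0).erase v, d x ≤ ∑ x ∈ (univ \ near o q 0).erase v, r x :=
    sum_le_sum fun x _ => hd.le x
  omega

/-- an integer close to the main classes and not one of them -/
theorem not_near (N : Num r m t s n c q L D) {i : ℤ} (h1 : i < 0 ∨ (q : ℤ) < i)
    (h2 : -100 ≤ i) (h3 : i ≤ q + 100) : (i : ZMod o) ∉ near o q 0 := by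
  intro h
  rw [near, mem_image] at h
  obtain ⟨j, hj, hji⟩ := h
  rw [mem_Icc] at hj
  refine N.cast_ne (i := j) (j := i) (by omega) ?_ hji
  rw [abs_lt]
  constructor <;> omega

/-- different main classes -/
theorem main_ne (N : Num r m t s n c q L D) {i j : ℕ} (hi : i ≤ q + 1) (hj : j ≤ q + 1)
    (hij : i ≠ j) : (i : ZMod o) ≠ (j : ZMod o) := by
  have h1 := N.cast_ne (i := i) (j := j) (by exact_mod_cast hij) (by
    rw [abs_lt]
    constructor <;> omega)
  exact_mod_cast h1

/-- the numbers of case A -/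
theorem nums (N : Num r m t s n c q L D) (g : Game r (m * s) θ c) (hs : 2 ≤ s) (hq : q < 400)
    (hk : q * s < t) : ∃ y, 1 ≤ y ∧ y ≤ s ∧ s * D + 2 * s + s * q ≤ y * m + s * (q * L) ∧
      (∀ i ≤ q, y * m + c ≤ r ((i : ℕ) : ZMod o) + far r q 0) ∧
      ∀ i ≤ q, ∀ j ≤ q, i ≠ j →
        y * m + c + m * s ≤ r ((i : ℕ) : ZMod o) + r ((j : ℕ) : ZMod o) + far r q 0 := by
  obtain ⟨y, rfl⟩ : ∃ y, t = q * s + y := ⟨t - q * s, by omega⟩
  have hy1 : 1 ≤ y := by omega
  have hn : n = q * (m * s) + y * m := by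
    rw [N.nt]
    ring
  have hone : ∀ i ≤ q, y * m + c ≤ r ((i : ℕ) : ZMod o) + far r q 0 := by
    intro i hi
    have h1 := N.one_row g.row_le hi
    omega
  have hwin : s * D + 2 * s + s * q ≤ y * m + s * (q * L) := by
    have h1 : s * (q * c + D + 2) ≤ s * (o + q * L) := Nat.mul_le_mul_left _ N.win
    have h2 : s * (q * (m + 1)) ≤ s * (q * c) :=
      Nat.mul_le_mul_left _ (Nat.mul_le_mul_left _ N.mc)
    have h3 : s * (q * c + D + 2) = s * (q * c) + s * D + 2 * s := by ring
    have h4 : s * (o + q * L) = n + s * (q * L) := by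
      rw [← N.os]
      ring
    have h5 : s * (q * (m + 1)) = q * (m * s) + s * q := by ring
    omega
  have hfar := N.far_zero
  have hQ := loss_small N hq
  have hm := N.hL
  refine ⟨y, hy1, ?_, hwin, hone, ?_⟩
  · by_contra hys
    obtain ⟨j, rfl⟩ : ∃ j, y = s + j := ⟨y - s, by omega⟩
    have hj : 1 ≤ j := by omega
    have h1 := hone 0 (Nat.zero_le _)
    have h2 := g.row_le ((0 : ℕ) : ZMod o)
    have h3 : (s + j) * m + c ≤ m * s + D + L := by omega
    have h4 := Nat.mul_le_mul_left s h3
    have h5 : s * ((s + j) * m + c) = s * (m * s) + s * (j * m) + s * c := by ring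
    have h6 : s * (m * s + D + L) = s * (m * s) + s * D + s * L := by ring
    have h7 : s * (m + 1) ≤ s * c := Nat.mul_le_mul_left _ N.mc
    have h8 : s * (m + 1) = m * s + s := by ring
    have h9 : (s + j) * m = m * s + j * m := by ring
    have h10 : s * ((q + 1) * L) = s * (q * L) + s * L := by ring
    have h11 : s * (1000 * ((q + 1) * L)) ≤ s * (j * m) := by
      apply Nat.mul_le_mul_left
      calc 1000 * ((q + 1) * L) ≤ m := hQ
        _ ≤ j * m := Nat.le_mul_of_pos_left _ hj
    have h12 : s * (1000 * ((q + 1) * L)) = 1000 * (s * ((q + 1) * L)) := by ring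
    have h13 : 2 * (j * m) ≤ s * (j * m) := Nat.mul_le_mul_right _ hs
    have h14 : 1 * m ≤ j * m := Nat.mul_le_mul_right _ hj
    omega
  · intro i hi j hj hij
    have h1 := N.two_row g.row_le hi hj hij
    omega

end EndA

open EndA

/-- A: `k' ≤ s - 1`, that is `q s < t` -/
theorem end_A (N : Num r m t s n c q L D) (g : Game r (m * s) θ c) (hθ : 1000 * θ ≤ m)
    (hs : 2 ≤ s) (hq1 : 1 ≤ q) (hq : q < 400) (hk : q * s < t) : False := by
  obtain ⟨y, hy1, hys, hwin, hone, htwo⟩ := nums N g hs hq hk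
  have hfar := N.far_zero
  have hQ := loss_small N hq
  have hm := N.hL
  have hmc := N.mc
  have hQ' : (q + 1) * L = q * L + L := by ring
  have hh : 2 * m ≤ m * s := by
    rw [mul_comm m s]
    exact Nat.mul_le_mul_right _ hs
  -- the far elements
  have hD : D + 2 + q ≤ m + q * L := by
    have h1 : y * m ≤ s * m := Nat.mul_le_mul_right _ hys
    have h2 : s * (D + 2 + q) ≤ s * (m + q * L) := by
      calc s * (D + 2 + q) = s * D + 2 * s + s * q := by ring
        _ ≤ y * m + s * (q * L) := hwin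
        _ ≤ s * m + s * (q * L) := Nat.add_le_add_right h1 _
        _ = s * (m + q * L) := by ring
    exact Nat.le_of_mul_le_mul_left h2 (by omega)
  -- `2 y m - 2 far ≥ y m - 2 (q+1) L`
  have hF : 2 * far r q 0 ≤ y * m + 2 * ((q + 1) * L) := by
    have h1 : s * (2 * far r q 0) ≤ s * (y * m + 2 * ((q + 1) * L)) := by
      have h2 : s * far r q 0 ≤ s * (D + L) := Nat.mul_le_mul_left _ hfar
      have h3 : 2 * (y * m) ≤ s * (y * m) := Nat.mul_le_mul_right _ hs
      have h4 : s * (D + L) = s * D + s * L := by ring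
      have h5 : s * (2 * far r q 0) = 2 * (s * far r q 0) := by ring
      have h6 : s * (y * m + 2 * ((q + 1) * L)) = s * (y * m) + 2 * (s * (q * L)) + 2 * (s * L) := by
        ring
      omega
    exact Nat.le_of_mul_le_mul_left h1 (by omega)
  have hym : m ≤ y * m := Nat.le_mul_of_pos_left _ hy1
  have hrow : ∀ i ≤ q, c + 2 ≤ r ((i : ℕ) : ZMod o) := by
    intro i hi
    have h1 := hone i hi
    omega
  have htwo' : ∀ i ≤ q, ∀ j ≤ q, i ≠ j →
      m * s + c + θ ≤ r ((i : ℕ) : ZMod o) + r ((j : ℕ) : ZMod o) := by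
    intro i hi j hj hij
    have h1 := htwo i hi j hj hij
    omega
  -- one omitted element in a main class: no others
  have hsingle : ∀ d, Adm r c d → ∀ i ≤ q, d ((i : ℕ) : ZMod o) = 1 →
      ∀ j ≤ q, j ≠ i → d ((j : ℕ) : ZMod o) = 0 := by
    intro d hd i hi h1 j hj hji
    by_contra h0
    have h2 := hrow i hi
    have h3 := hrow j hj
    have h4 := htwo' i hi j hj (Ne.symm hji)
    exact g.two hd (main_ne N (by omega) (by omega) (Ne.symm hji)) h1 (by omega) (by omega)
      (by omega) (by omega)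
  -- a fat main row
  obtain ⟨p, hp, hfatp⟩ : ∃ p ≤ q, m * s + θ ≤ 2 * r ((p : ℕ) : ZMod o) := by
    have h1 := htwo' 0 (Nat.zero_le _) 1 hq1 (by omega)
    by_cases h2 : m * s + θ ≤ 2 * r ((0 : ℕ) : ZMod o)
    · exact ⟨0, Nat.zero_le _, h2⟩
    · exact ⟨1, hq1, by omega⟩
  have hsm : s * m ≤ y * m + s * ((q + 1) * L) := by
    obtain ⟨d, hd, h1⟩ := g.del (p : ZMod o) (by have := hrow p hp; omega)
    have h2 := g.le_one hd hfatp (hrow p hp)
    have h3 := far_of_single N hd hp h2 (hsingle d hd p hp (by omega))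
    have h4 := far_mono hd.le q 0
    have h5 : s * m ≤ s * (D + L) := Nat.mul_le_mul_left _ (by omega)
    have h6 : s * (D + L) = s * D + s * L := by ring
    have h7 : s * ((q + 1) * L) = s * (q * L) + s * L := by ring
    omega
  have hfat : ∀ i ≤ q, m * s + θ ≤ 2 * r ((i : ℕ) : ZMod o) := by
    intro i hi
    have h1 := hone i hi
    have h2 : s * (1000 * ((q + 1) * L)) ≤ s * m := Nat.mul_le_mul_left _ hQ
    have h3 : s * (1000 * ((q + 1) * L)) = 1000 * (s * ((q + 1) * L)) := by ring
    have h4 : s * m = m * s := mul_comm _ _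
    omega
  have hfar1 : ∀ i : ℕ, i ≤ q → ∀ v : ZMod o, v ∉ near o q 0 →
      (∀ d, Adm r c d → d (i : ZMod o) = 1 → (∀ j ≤ q, j ≠ i → d ((j : ℕ) : ZMod o) = 0) →
        d v = 0) → c + r v ≤ far r q 0 + 1 := by
    intro i hi v hv hdv
    obtain ⟨d, hd, h1⟩ := g.del (i : ZMod o) (by have := hrow i hi; omega)
    have h2 := g.le_one hd (hfat i hi) (hrow i hi)
    have h3 := hsingle d hd i hi (by omega)
    have h4 := far_of_single N hd hi h2 h3
    have h5 := far_add hd hv (hdv d hd (by omega) h3)
    omega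
  have hnear1 : ((q : ZMod o) + 1) ∉ near o q 0 := by
    have := not_near N (i := (q : ℤ) + 1) (Or.inr (by omega)) (by omega) (by omega)
    push_cast at this
    exact this
  have hnear2 : (-1 : ZMod o) ∉ near o q 0 := by
    have := not_near N (i := -1) (Or.inl (by omega)) (by omega) (by omega)
    push_cast at this
    exact this
  have hA := hfar1 0 (Nat.zero_le _) _ hnear1 (by
    intro d hd h1 h0
    by_contra hne
    have hne0 : (q : ZMod o) + 1 ≠ ((0 : ℕ) : ZMod o) := by
      have := main_ne N (i := q + 1) (j := 0) le_rfl (by omega) (by omega)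
      push_cast at this ⊢
      exact this
    rcases Nat.lt_or_ge q 2 with hq2 | hq2
    · have hq' : q = 1 := by omega
      subst hq'
      exact g.pair_eq hd (y := ((0 : ℕ) : ZMod o)) (y' := ((1 : ℕ) : ZMod o) + 1)
        (v := ((1 : ℕ) : ZMod o)) (by omega) (by omega) (fun h => absurd h.symm hne0)
        (h0 1 le_rfl (by omega)) (by have := hrow 1 le_rfl; omega) (hfat 1 le_rfl)
        (by push_cast; ring)
    · have h2 := htwo' 1 hq1 q le_rfl (by omega)
      have h3 := hrow 1 hq1
      have h4 := hrow q le_rfl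
      exact g.pair_ne hd (y := ((0 : ℕ) : ZMod o)) (y' := (q : ZMod o) + 1)
        (v := ((1 : ℕ) : ZMod o)) (v' := (q : ZMod o)) (by omega) (by omega)
        (fun h => absurd h.symm hne0) (main_ne N (by omega) (by omega) (by omega))
        (h0 1 hq1 (by omega)) (h0 q le_rfl (by omega)) (by omega) (by omega) (by omega)
        (by push_cast; ring))
  have hB := hfar1 q le_rfl _ hnear2 (by
    intro d hd h1 h0
    by_contra hne
    have hne0 : (q : ZMod o) ≠ -1 := by
      have := N.cast_ne (i := (q : ℤ)) (j := -1) (by omega) (by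
        rw [abs_lt]
        constructor <;> omega)
      push_cast at this
      exact this
    rcases Nat.lt_or_ge q 2 with hq2 | hq2
    · have hq' : q = 1 := by omega
      subst hq'
      exact g.pair_eq hd (y := ((1 : ℕ) : ZMod o)) (y' := -1)
        (v := ((0 : ℕ) : ZMod o)) (by omega) (by omega) (fun h => absurd h hne0)
        (h0 0 (by omega) (by omega)) (by have := hrow 0 (by omega); omega) (hfat 0 (by omega))
        (by push_cast; ring)
    · have h2 := htwo' 0 (by omega) (q - 1) (by omega) (by omega)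
      have h3 := hrow 0 (by omega)
      have h4 := hrow (q - 1) (by omega)
      exact g.pair_ne hd (y := (q : ZMod o)) (y' := -1)
        (v := ((0 : ℕ) : ZMod o)) (v' := ((q - 1 : ℕ) : ZMod o)) (by omega) (by omega)
        (fun h => absurd h hne0) (main_ne N (by omega) (by omega) (by omega))
        (h0 0 (by omega) (by omega)) (h0 (q - 1) (by omega) (by omega)) (by omega) (by omega)
        (by omega) (by rw [Nat.cast_sub (by omega)]; push_cast; ring))
  have hsplit := N.far_split
  have htwo2 := N.far_two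
  omega

end Pool.Agent.Lib.MPa7239a.RB
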