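import Pool.Agent.Lib.MP_a7239a_co.RB.Defs
import Pool.Agent.Lib.MP_a7239a_co.RK.Defs
import Pool.Agent.Lib.MP_a7239a_co.RS.TwoOne

/-!
# B1: two main rows, both not fat (module B1, helper84)

Then `H` is large and both rows contain nearly half of their coset. Two omitted elements of one row
and one of the other can be varied: by `two_one` the rows lie in cosets of one subgroup `K` of index
two in `H`. Either `A` is nearly inside a coset of a proper subgroup, or `G / K` is cyclic, and in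
`G / K` the two rows are full.
-/

set_option autoImplicit false

open Finset

namespace Pool.Agent.Lib.MPa7239a.RB

open Pool.Agent.Lib.MPa7239a.GC
open Pool.Agent.Lib.MPa7239a.RK

namespace B1M

section
variable {G : Type*} [AddCommGroup G] [DecidableEq G]

/-- the omitted set -/
theorem hit_of_omit {A Y : Finset G} {n c : ℕ} (hA : #A = n + c) (hY : Y ⊆ A) (hc : #Y = c)
    (hs : ∑ x ∈ Y, x = ∑ x ∈ A, x) : Hit A n 0 := by
  refine ⟨A \ Y, sdiff_subset, ?_, ?_⟩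
  · rw [card_sdiff_of_subset hY, hA, hc]
    omega
  · have h1 := sum_sdiff (f := fun x : G => x) hY
    rw [← hs] at h1
    exact (add_eq_right.1 h1)

/-- a nonempty part of sum zero -/
theorem exists_zero {o : ℕ} [NeZero o] {Y : Finset G} (ψ : G → ZMod o) (h : o ≤ #Y) :
    ∃ Y₀ ⊆ Y, Y₀.Nonempty ∧ ∑ x ∈ Y₀, ψ x = 0 := by
  classical
  set l := Y.toList with hl
  have hlen : l.length = #Y := by rw [hl, length_toList]
  have hnd : l.Nodup := nodup_toList Y
  obtain ⟨i, j, hij, hP⟩ := Fintype.exists_ne_map_eq_of_card_lt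
    (fun i : Fin (o + 1) => ((l.take i).map ψ).sum) (by rw [ZMod.card, Fintype.card_fin]; omega)
  have main : ∀ i j : ℕ, i < j → j ≤ o → ((l.take i).map ψ).sum = ((l.take j).map ψ).sum →
      ∃ Y₀ ⊆ Y, Y₀.Nonempty ∧ ∑ x ∈ Y₀, ψ x = 0 := by
    intro i j hij hj h
    set l' := (l.take j).drop i with hl'
    have hsub : l'.Sublist l := (List.drop_sublist i _).trans (List.take_sublist j l)
    have h1 : ((l.take j).map ψ).sum = ((l.take i).map ψ).sum + (l'.map ψ).sum := by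
      conv_lhs => rw [← List.take_append_drop i (l.take j)]
      rw [List.map_append, List.sum_append, List.take_take, min_eq_left hij.le]
    have h2 : (l'.map ψ).sum = 0 := by
      rw [← h] at h1
      exact (left_eq_add.1 h1)
    have h3 : l'.length = j - i := by
      rw [hl', List.length_drop, List.length_take, min_eq_left (by omega)]
    refine ⟨l'.toFinset, ?_, ?_, ?_⟩
    · intro x hx
      rw [List.mem_toFinset] at hx
      exact mem_toList.1 (hsub.subset hx)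
    · rw [← card_pos, List.toFinset_card_of_nodup (hsub.nodup hnd), h3]
      omega
    · rw [List.sum_toFinset ψ (hsub.nodup hnd), h2]
  have hij' : (i : ℕ) ≠ (j : ℕ) := fun h => hij (Fin.ext h)
  rcases lt_or_gt_of_ne hij' with h | h
  · exact main i j h (Nat.lt_succ_iff.1 j.2) hP
  · exact main j i h (Nat.lt_succ_iff.1 i.2) hP.symm

/-- omitted elements in both rows -/
theorem both_rows {o : ℕ} [NeZero o] (φ : G →+ ZMod o) {A Y : Finset G} {c : ℕ} (hY : Y ⊆ A)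
    (hc : #Y = c) {u w : ZMod o} (huw : u ≠ w) (hs : φ (∑ x ∈ Y, x) = φ (∑ x ∈ A, x))
    (h0 : Y.filter (fun x => φ x = u) = ∅) (h1 : 1 ≤ #(Y.filter (fun x => φ x = w)))
    (ho : o + 1 ≤ c) (hr : c ≤ #(A.filter (fun x => φ x = u))) :
    ∃ Y' ⊆ A, #Y' = c ∧ φ (∑ x ∈ Y', x) = φ (∑ x ∈ A, x) ∧
      2 ≤ #(Y'.filter (fun x => φ x = u)) ∧ 1 ≤ #(Y'.filter (fun x => φ x = w)) := by
  obtain ⟨y, hy⟩ := card_pos.1 h1
  rw [mem_filter] at hy
  have hne : ∀ x ∈ Y, φ x ≠ u := by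
    intro x hx hxu
    have : x ∈ Y.filter (fun x => φ x = u) := mem_filter.2 ⟨hx, hxu⟩
    rw [h0] at this
    exact absurd this (notMem_empty x)
  obtain ⟨Y₀, hY₀, hY₀ne, hY₀s⟩ := exists_zero (Y := Y.erase y) (fun x => φ x - u) (by
    rw [card_erase_of_mem hy.1, hc]
    omega)
  have hY₀Y : Y₀ ⊆ Y := hY₀.trans (erase_subset _ _)
  rw [sum_sub_distrib, sum_const] at hY₀s
  have h2 : 2 ≤ #Y₀ := by
    by_contra hcon
    have h3 : #Y₀ = 1 := by
      have := hY₀ne.card_pos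
      omega
    obtain ⟨x, hx⟩ := card_eq_one.1 h3
    rw [hx, sum_singleton, card_singleton, one_smul, sub_eq_zero] at hY₀s
    exact hne x (hY₀Y (by rw [hx]; exact mem_singleton_self x)) hY₀s
  have h3 : #Y₀ ≤ c := by
    rw [← hc]
    exact card_le_card hY₀Y
  obtain ⟨Z₀, hZ₀, hZ₀c⟩ := exists_subset_card_eq (h3.trans hr)
  have hZu : ∀ x ∈ Z₀, φ x = u := fun x hx => (mem_filter.1 (hZ₀ hx)).2
  have hdis : Disjoint (Y \ Y₀) Z₀ := by
    rw [disjoint_left]
    intro x hx hx'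
    exact hne x (mem_sdiff.1 hx).1 (hZu x hx')
  refine ⟨(Y \ Y₀) ∪ Z₀, union_subset (sdiff_subset.trans hY)
    (hZ₀.trans (filter_subset _ _)), ?_, ?_, ?_, ?_⟩
  · rw [card_union_of_disjoint hdis, card_sdiff_of_subset hY₀Y, hZ₀c]
    omega
  · have h4 := sum_sdiff (f := fun x : G => x) hY₀Y
    rw [← hs, ← h4, sum_union hdis, map_add, map_add]
    congr 1
    rw [map_sum, map_sum, sum_congr rfl hZu, sum_const, hZ₀c]
    rw [sub_eq_zero] at hY₀s
    exact hY₀s.symm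
  · rw [← hZ₀c] at h2
    refine h2.trans (card_le_card ?_)
    intro x hx
    exact mem_filter.2 ⟨mem_union_right _ hx, hZu x hx⟩
  · refine card_pos.2 ⟨y, mem_filter.2 ⟨mem_union_left _ (mem_sdiff.2 ⟨hy.1, fun h => ?_⟩), hy.2⟩⟩
    exact (mem_erase.1 (hY₀ h)).1 rfl

/-- `two_one` in cosets of a subgroup -/
theorem two_one_sub [Fintype G] (h4 : ∀ s : G, #{x : G | x + x = s} ≤ 4) (H : AddSubgroup G)
    (hH : 10000 ≤ Nat.card H) {A B : Finset G} {α β : G} (hA : ∀ x ∈ A, x - α ∈ H)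
    (hB : ∀ x ∈ B, x - β ∈ H) (hAc : 99 * Nat.card H ≤ 200 * #A)
    (hBc : 99 * Nat.card H ≤ 200 * #B) :
    (∀ x, x - α - α - β ∈ H → ∃ a ∈ A, ∃ a' ∈ A, a ≠ a' ∧ ∃ b ∈ B, a + a' + b = x) ∨
      ∃ K ≤ H, 2 * Nat.card K = Nat.card H ∧ (∀ a ∈ A, ∀ a' ∈ A, a' - a ∈ K) ∧
        ∀ b ∈ B, ∀ b' ∈ B, b' - b ∈ K := by
  classical
  have : Fintype H := Fintype.ofFinite H
  have key : ∀ (C : Finset G) (γ : G) (hC : ∀ x ∈ C, x - γ ∈ H),
      ∃ C' : Finset H, #C' = #C ∧ (∀ x ∈ C', (x : G) + γ ∈ C) ∧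
        ∀ x ∈ C, ∃ y ∈ C', (y : G) + γ = x := by
    intro C γ hC
    refine ⟨C.attach.image (fun x => (⟨x.1 - γ, hC x.1 x.2⟩ : H)), ?_, ?_, ?_⟩
    · rw [card_image_of_injective, card_attach]
      intro x y hxy
      have h1 : x.1 - γ = y.1 - γ := congrArg Subtype.val hxy
      exact Subtype.ext (sub_left_injective h1)
    · intro x hx
      obtain ⟨y, -, rfl⟩ := mem_image.1 hx
      simp
    · intro x hx
      exact ⟨⟨x - γ, hC x hx⟩, mem_image.2 ⟨⟨x, hx⟩, mem_attach _ _, rfl⟩, by simp⟩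
  obtain ⟨A', hA'c, hA'1, hA'2⟩ := key A α hA
  obtain ⟨B', hB'c, hB'1, hB'2⟩ := key B β hB
  have h4' : ∀ s : H, #{x : H | x + x = s} ≤ 4 := by
    intro s
    refine le_trans ?_ (h4 (s : G))
    refine card_le_card_of_injOn (fun x => (x : G)) ?_ ?_
    · intro x hx
      rw [mem_coe, mem_filter] at hx ⊢
      exact ⟨mem_univ _, by rw [← hx.2]; rfl⟩
    · intro x _ y _ hxy
      exact Subtype.ext hxy
  rw [Nat.card_eq_fintype_card] at hH hAc hBc
  rcases RS.TwoOne.two_one (Q := H) h4' hH (A := A') (B := B') (by rw [hA'c]; exact hAc)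
    (by rw [hB'c]; exact hBc) with h | ⟨K, hK, hKA, hKB⟩
  · left
    intro x hx
    obtain ⟨a, ha, a', ha', hne, b, hb, hab⟩ := h ⟨_, hx⟩
    refine ⟨_, hA'1 a ha, _, hA'1 a' ha', fun he => hne (Subtype.ext (add_right_cancel he)), _,
      hB'1 b hb, ?_⟩
    have h1 : (a : G) + a' + b = x - α - α - β := congrArg Subtype.val hab
    have h2 : (a : G) + α + (a' + α) + (b + β) = (a : G) + a' + b + α + α + β := by abel
    rw [h2, h1]
    abel
  · right
    have hcard : Nat.card (K.map H.subtype) = Nat.card K :=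
      Nat.card_congr (K.equivMapOfInjective H.subtype (AddSubgroup.subtype_injective H)).toEquiv.symm
    refine ⟨K.map H.subtype, ?_, ?_, ?_, ?_⟩
    · rintro x ⟨y, -, rfl⟩
      exact y.2
    · rw [hcard]
      exact hK
    · intro a ha a' ha'
      obtain ⟨y, hy, rfl⟩ := hA'2 a ha
      obtain ⟨y', hy', rfl⟩ := hA'2 a' ha'
      refine ⟨y' - y, hKA y hy y' hy', ?_⟩
      rw [map_sub]
      show (y' : G) - y = _
      abel
    · intro a ha a' ha'
      obtain ⟨y, hy, rfl⟩ := hB'2 a ha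
      obtain ⟨y', hy', rfl⟩ := hB'2 a' ha'
      refine ⟨y' - y, hKB y hy y' hy', ?_⟩
      rw [map_sub]
      show (y' : G) - y = _
      abel

/-- vary two omitted elements of row `u` and one of row `w` -/
theorem vary [Fintype G] (h4 : ∀ s : G, #{x : G | x + x = s} ≤ 4) {o : ℕ} (φ : G →+ ZMod o)
    {A Y : Finset G} {n c : ℕ} (hA : #A = n + c) (hno : ¬ Hit A n 0) (hY : Y ⊆ A) (hc : #Y = c)
    {u w : ZMod o} (huw : u ≠ w) (hs : φ (∑ x ∈ Y, x) = φ (∑ x ∈ A, x))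
    (hH : 10000 ≤ Nat.card φ.ker)
    (hu : 99 * Nat.card φ.ker + 200 * c ≤ 200 * #(A.filter (fun x => φ x = u)))
    (hw : 99 * Nat.card φ.ker + 200 * c ≤ 200 * #(A.filter (fun x => φ x = w)))
    {a₁ a₂ b₁ : G} (ha₁ : a₁ ∈ Y) (ha₁u : φ a₁ = u) (ha₂ : a₂ ∈ Y) (ha₂u : φ a₂ = u)
    (hne : a₁ ≠ a₂) (hb₁ : b₁ ∈ Y) (hb₁w : φ b₁ = w) :
    ∃ K ≤ φ.ker, 2 * Nat.card K = Nat.card φ.ker ∧
      (∀ a ∈ A.filter (fun x => φ x = u) \ (Y \ {a₁, a₂, b₁}),
        ∀ a' ∈ A.filter (fun x => φ x = u) \ (Y \ {a₁, a₂, b₁}), a' - a ∈ K) ∧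
      (∀ a ∈ A.filter (fun x => φ x = w) \ (Y \ {a₁, a₂, b₁}),
        ∀ a' ∈ A.filter (fun x => φ x = w) \ (Y \ {a₁, a₂, b₁}), a' - a ∈ K) := by
  have h1b : a₁ ≠ b₁ := fun h => huw (by rw [← ha₁u, ← hb₁w, h])
  have h2b : a₂ ≠ b₁ := fun h => huw (by rw [← ha₂u, ← hb₁w, h])
  have hT3 : #({a₁, a₂, b₁} : Finset G) = 3 := card_eq_three.2 ⟨a₁, a₂, b₁, hne, h1b, h2b, rfl⟩
  have hTY : ({a₁, a₂, b₁} : Finset G) ⊆ Y := by
    intro x hx
    simp only [mem_insert, mem_singleton] at hx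
    rcases hx with rfl | rfl | rfl
    · exact ha₁
    · exact ha₂
    · exact hb₁
  set F := Y \ {a₁, a₂, b₁} with hF
  have hFY : F ⊆ Y := sdiff_subset
  have hFc : #F + 3 = c := by
    rw [hF, card_sdiff_of_subset hTY, hT3]
    have := card_le_card hTY
    omega
  have hFc' : #F ≤ c := by omega
  have hcardu : ∀ v : ZMod o, #(A.filter (fun x => φ x = v)) ≤
      #(A.filter (fun x => φ x = v) \ F) + c := by
    intro v
    have h1 := le_card_sdiff F (A.filter (fun x => φ x = v))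
    omega
  have hcu := hcardu u
  have hcw := hcardu w
  have hmem : ∀ {v : ZMod o} {x : G}, x ∈ A.filter (fun x => φ x = v) \ F →
      x ∈ A ∧ φ x = v ∧ x ∉ F := by
    intro v x hx
    rw [mem_sdiff, mem_filter] at hx
    exact ⟨hx.1.1, hx.1.2, hx.2⟩
  rcases two_one_sub h4 φ.ker hH (A := A.filter (fun x => φ x = u) \ F)
      (B := A.filter (fun x => φ x = w) \ F) (α := a₁) (β := b₁) (fun x hx => by
        rw [AddMonoidHom.mem_ker, map_sub, (hmem hx).2.1, ha₁u, sub_self]) (fun x hx => by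
        rw [AddMonoidHom.mem_ker, map_sub, (hmem hx).2.1, hb₁w, sub_self]) (by omega) (by omega)
    with h | h
  · exfalso
    have hsumT : ∑ x ∈ ({a₁, a₂, b₁} : Finset G), x = a₁ + a₂ + b₁ := by
      rw [sum_insert, sum_insert, sum_singleton, add_assoc]
      · rw [mem_singleton]; exact h2b
      · rw [mem_insert, mem_singleton, not_or]; exact ⟨hne, h1b⟩
    have hsumF : ∑ x ∈ F, x + (a₁ + a₂ + b₁) = ∑ x ∈ Y, x := by
      rw [← hsumT]
      exact sum_sdiff hTY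
    obtain ⟨a, ha, a', ha', haa, b, hb, hab⟩ := h (∑ x ∈ A, x - ∑ x ∈ F, x) (by
      rw [AddMonoidHom.mem_ker, map_sub, map_sub, map_sub, map_sub, ← hs, ← hsumF, map_add,
        map_add, map_add, ha₁u, ha₂u, hb₁w]
      abel)
    obtain ⟨haA, hau, haF⟩ := hmem ha
    obtain ⟨haA', hau', haF'⟩ := hmem ha'
    obtain ⟨hbA, hbw, hbF⟩ := hmem hb
    have hb1 : a ≠ b := fun h => huw (by rw [← hau, ← hbw, h])
    have hb2 : a' ≠ b := fun h => huw (by rw [← hau', ← hbw, h])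
    have hX3 : #({a, a', b} : Finset G) = 3 := card_eq_three.2 ⟨a, a', b, haa, hb1, hb2, rfl⟩
    have hXs : ∑ x ∈ ({a, a', b} : Finset G), x = a + a' + b := by
      rw [sum_insert, sum_insert, sum_singleton, add_assoc]
      · rw [mem_singleton]; exact hb2
      · rw [mem_insert, mem_singleton, not_or]; exact ⟨haa, hb1⟩
    have hdis : Disjoint F ({a, a', b} : Finset G) := by
      rw [disjoint_right]
      intro x hx
      simp only [mem_insert, mem_singleton] at hx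
      rcases hx with rfl | rfl | rfl
      · exact haF
      · exact haF'
      · exact hbF
    refine hno (hit_of_omit hA (Y := F ∪ {a, a', b}) (union_subset (hFY.trans hY) ?_) ?_ ?_)
    · intro x hx
      simp only [mem_insert, mem_singleton] at hx
      rcases hx with rfl | rfl | rfl
      · exact haA
      · exact haA'
      · exact hbA
    · rw [card_union_of_disjoint hdis, hX3]
      exact hFc
    · rw [sum_union hdis, hXs, hab]
      abel
  · exact h

/-- both rows lie in cosets of one subgroup of index two -/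
theorem rows_in_coset [Fintype G] (h4 : ∀ s : G, #{x : G | x + x = s} ≤ 4) {o : ℕ}
    (φ : G →+ ZMod o) {A Y : Finset G} {n c : ℕ} (hA : #A = n + c) (hno : ¬ Hit A n 0)
    (hY : Y ⊆ A) (hc : #Y = c) {u w : ZMod o} (huw : u ≠ w)
    (hs : φ (∑ x ∈ Y, x) = φ (∑ x ∈ A, x)) (hH : 10000 ≤ Nat.card φ.ker)
    (hu : 99 * Nat.card φ.ker + 200 * c ≤ 200 * #(A.filter (fun x => φ x = u)))
    (hw : 99 * Nat.card φ.ker + 200 * c ≤ 200 * #(A.filter (fun x => φ x = w)))
    (h2 : 2 ≤ #(Y.filter (fun x => φ x = u))) (h1 : 1 ≤ #(Y.filter (fun x => φ x = w))) :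
    ∃ K ≤ φ.ker, 2 * Nat.card K = Nat.card φ.ker ∧
      (∀ a ∈ A, ∀ a' ∈ A, φ a = u → φ a' = u → a' - a ∈ K) ∧
      (∀ a ∈ A, ∀ a' ∈ A, φ a = w → φ a' = w → a' - a ∈ K) := by
  classical
  set X := A.filter (fun x => φ x = u) \ Y with hX
  set Z := A.filter (fun x => φ x = w) \ Y with hZ
  have hXc : #(A.filter (fun x => φ x = u)) ≤ #X + c := by
    have h := le_card_sdiff Y (A.filter (fun x => φ x = u))
    rw [← hX, hc] at h
    omega
  have hZc : #(A.filter (fun x => φ x = w)) ≤ #Z + c := by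
    have h := le_card_sdiff Y (A.filter (fun x => φ x = w))
    rw [← hZ, hc] at h
    omega
  obtain ⟨x₀, hx₀⟩ : X.Nonempty := card_pos.1 (by omega)
  obtain ⟨z₀, hz₀⟩ : Z.Nonempty := card_pos.1 (by omega)
  obtain ⟨b, hb⟩ := card_pos.1 h1
  obtain ⟨a, ha, a', ha', hne⟩ := one_lt_card.1 (show 1 < #(Y.filter (fun x => φ x = u)) by omega)
  rw [mem_filter] at hb ha ha'
  set K : AddSubgroup G := AddSubgroup.closure ((X.image (fun x => x - x₀) : Finset G) : Set G)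
    with hK
  have hXK : ∀ x ∈ X, x - x₀ ∈ K := fun x hx =>
    AddSubgroup.subset_closure (mem_coe.2 (mem_image_of_mem (fun x => x - x₀) hx))
  have hXle : #X ≤ Nat.card K := by
    have : Fintype K := Fintype.ofFinite K
    rw [Nat.card_eq_fintype_card, ← card_univ]
    refine card_le_card_of_injOn (fun x => if h : x - x₀ ∈ K then (⟨x - x₀, h⟩ : K) else 0) ?_ ?_
    · intro x _
      exact mem_coe.2 (mem_univ _)
    · intro x hx y hy hxy
      have h1 := hXK x hx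
      have h2 := hXK y hy
      simp only [h1, h2, dif_pos] at hxy
      exact sub_left_injective (congrArg Subtype.val hxy)
  -- for every choice the subgroup is `K`
  have key : ∀ a₁ a₂ b₁ : G, a₁ ∈ Y → φ a₁ = u → a₂ ∈ Y → φ a₂ = u → a₁ ≠ a₂ → b₁ ∈ Y →
      φ b₁ = w → K ≤ φ.ker ∧ 2 * Nat.card K = Nat.card φ.ker ∧
      (a₁ - x₀ ∈ K) ∧ (b₁ - z₀ ∈ K) ∧ ∀ z ∈ Z, z - z₀ ∈ K := by
    intro a₁ a₂ b₁ ha₁ ha₁u ha₂ ha₂u hne hb₁ hb₁w
    obtain ⟨K', hK', hc', hA', hB'⟩ := vary h4 φ hA hno hY hc huw hs hH hu hw ha₁ ha₁u ha₂ ha₂u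
      hne hb₁ hb₁w
    have hXin : ∀ x ∈ X, x ∈ A.filter (fun x => φ x = u) \ (Y \ {a₁, a₂, b₁}) := by
      intro x hx
      rw [hX, mem_sdiff] at hx
      rw [mem_sdiff]
      exact ⟨hx.1, fun h => hx.2 (mem_sdiff.1 h).1⟩
    have hZin : ∀ x ∈ Z, x ∈ A.filter (fun x => φ x = w) \ (Y \ {a₁, a₂, b₁}) := by
      intro x hx
      rw [hZ, mem_sdiff] at hx
      rw [mem_sdiff]
      exact ⟨hx.1, fun h => hx.2 (mem_sdiff.1 h).1⟩
    have hle : K ≤ K' := by
      rw [hK, AddSubgroup.closure_le]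
      intro x hx
      obtain ⟨y, hy, rfl⟩ := mem_image.1 (mem_coe.1 hx)
      exact hA' x₀ (hXin x₀ hx₀) y (hXin y hy)
    have hcard : Nat.card K' = Nat.card K := by
      obtain ⟨k, hk⟩ := AddSubgroup.card_dvd_of_le hle
      have hpos : 0 < Nat.card K := Nat.card_pos
      have h5 : k < 2 := by
        by_contra hcon
        have h6 : Nat.card K * 2 ≤ Nat.card K * k := Nat.mul_le_mul_left _ (by omega)
        omega
      have h7 : k ≠ 0 := by
        rintro rfl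
        have : 0 < Nat.card K' := Nat.card_pos
        omega
      have h8 : k = 1 := by omega
      rw [hk, h8, mul_one]
    have heq : K = K' := AddSubgroup.eq_of_le_of_card_ge hle hcard.le
    rw [← heq] at hK' hc' hA' hB'
    refine ⟨hK', hc', hA' x₀ (hXin x₀ hx₀) a₁ ?_, hB' z₀ (hZin z₀ hz₀) b₁ ?_, fun z hz =>
      hB' z₀ (hZin z₀ hz₀) z (hZin z hz)⟩
    · rw [mem_sdiff, mem_filter, mem_sdiff]
      exact ⟨⟨hY ha₁, ha₁u⟩, fun h => h.2 (by simp)⟩
    · rw [mem_sdiff, mem_filter, mem_sdiff]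
      exact ⟨⟨hY hb₁, hb₁w⟩, fun h => h.2 (by simp)⟩
  obtain ⟨hKle, hKc, -, -, hZK⟩ := key a a' b ha.1 ha.2 ha'.1 ha'.2 hne hb.1 hb.2
  have hrowu : ∀ x ∈ A, φ x = u → x - x₀ ∈ K := by
    intro x hx hxu
    by_cases hxY : x ∈ Y
    · obtain ⟨x', hx', hne'⟩ : ∃ x' ∈ Y.filter (fun x => φ x = u), x' ≠ x := by
        by_cases h : a = x
        · exact ⟨a', mem_filter.2 ha', fun h' => hne (h.trans h'.symm)⟩
        · exact ⟨a, mem_filter.2 ha, h⟩
      rw [mem_filter] at hx'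
      exact (key x x' b hxY hxu hx'.1 hx'.2 (Ne.symm hne') hb.1 hb.2).2.2.1
    · exact hXK x (by rw [hX, mem_sdiff, mem_filter]; exact ⟨⟨hx, hxu⟩, hxY⟩)
  have hroww : ∀ x ∈ A, φ x = w → x - z₀ ∈ K := by
    intro x hx hxw
    by_cases hxY : x ∈ Y
    · exact (key a a' x ha.1 ha.2 ha'.1 ha'.2 hne hxY hxw).2.2.2.1
    · exact hZK x (by rw [hZ, mem_sdiff, mem_filter]; exact ⟨⟨hx, hxw⟩, hxY⟩)
  refine ⟨K, hKle, hKc, fun p hp q hq hpu hqu => ?_, fun p hp q hq hpu hqu => ?_⟩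
  · have h5 := K.sub_mem (hrowu q hq hqu) (hrowu p hp hpu)
    rwa [sub_sub_sub_cancel_right] at h5
  · have h5 := K.sub_mem (hroww q hq hqu) (hroww p hp hpu)
    rwa [sub_sub_sub_cancel_right] at h5

/-- the numbers -/
theorem numbers {m t s n c L D θ E r₀ r₁ o h : ℕ} (hnt : n = t * m) (hos : o * s = n)
    (hts : t ≤ s) (h2s : 2 ≤ s) (hmc : m + 1 ≤ c) (hwin : 1 * c + D + 2 ≤ o + 1 * L)
    (hmo : m ≤ o + 2 * L) (hL : 400000 * (L + 1) ≤ m) (hE : E ≤ D + L)
    (hsum : r₀ + r₁ + E = n + c) (hh : h = m * s) (hθ : 1000 * θ ≤ m) (hf₀ : 2 * r₀ < h + θ)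
    (hf₁ : 2 * r₁ < h + θ) :
    E ≤ 2 * L ∧ o + 1 ≤ m ∧ c ≤ m + L ∧ 10000 ≤ h ∧ 99 * h + 200 * c ≤ 200 * r₀ ∧
      99 * h + 200 * c ≤ 200 * r₁ ∧ h + 2 * θ ≤ 4 * r₀ ∧ h + 2 * θ ≤ 4 * r₁ := by
  have hom : o ≤ m := by
    have h1 : o * s ≤ m * s := by
      rw [hos, hnt, mul_comm]
      exact Nat.mul_le_mul_left _ hts
    exact Nat.le_of_mul_le_mul_right h1 (by omega)
  have hne : t ≠ s := by
    rintro rfl
    have h1 : h = n := by rw [hh, hnt, mul_comm]
    omega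
  have hlt : t + 1 ≤ s := by omega
  have h1 : (t + 1) * m ≤ m * s := by
    rw [mul_comm m s]
    exact Nat.mul_le_mul_right _ hlt
  have h2 : (t + 1) * m = n + m := by rw [hnt]; ring
  have hom' : o + 1 ≤ m := by
    by_contra hcon
    have h3 : o = m := by omega
    rw [h3] at hos
    omega
  have h3 : m * s ≤ (o + 2 * L) * s := Nat.mul_le_mul_right _ hmo
  have h4 : (o + 2 * L) * s = n + 2 * (L * s) := by rw [← hos]; ring
  have h5 : 400000 * (L + 1) * s ≤ m * s := Nat.mul_le_mul_right _ hL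
  have h6 : 400000 * (L + 1) * s = 400000 * (L * s) + 400000 * s := by ring
  have h7 : 200000 ≤ s := by
    by_contra hcon
    have h8 : L * s ≤ L * 200000 := Nat.mul_le_mul_left _ (by omega)
    omega
  have h9 : m * 200000 ≤ m * s := Nat.mul_le_mul_left _ h7
  rw [← hh] at h1 h3 h5 h9
  refine ⟨by omega, hom', by omega, by omega, by omega, by omega, by omega, by omega⟩

/-- two rows in cosets of `K`: two omitted elements of one row can be chosen freely -/
theorem hit_of_sum {A Y : Finset G} {n c θ : ℕ} (hA : #A = n + c) (hY : Y ⊆ A) (hc : #Y = c)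
    {K : AddSubgroup G} (hFF : FatFull K θ) (hs : ∑ x ∈ A, x - ∑ x ∈ Y, x ∈ K) {R : Finset G}
    (hRA : R ⊆ A) {α : G} (hR : ∀ x ∈ R, x - α ∈ K) (hfat : Nat.card K + θ ≤ 2 * #R)
    (h2 : 2 ≤ #(Y ∩ R)) (h3 : c + 2 ≤ #R) : Hit A n 0 := by
  have hle : #(Y ∩ R) ≤ c := by
    rw [← hc]
    exact card_le_card inter_subset_left
  have hcos : ∑ x ∈ Y ∩ R, x - #(Y ∩ R) • α ∈ K := by
    have h : ∑ x ∈ Y ∩ R, (x - α) ∈ K := K.sum_mem fun x hx => hR x (mem_inter.1 hx).2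
    rwa [sum_sub_distrib, sum_const] at h
  obtain ⟨Z, hZ, hZc, hZs⟩ := hFF R α hR hfat #(Y ∩ R) h2 (by omega)
    (∑ x ∈ Y ∩ R, x + (∑ x ∈ A, x - ∑ x ∈ Y, x)) (by
      have h := K.add_mem hcos hs
      have h1 : ∑ x ∈ Y ∩ R, x + (∑ x ∈ A, x - ∑ x ∈ Y, x) - #(Y ∩ R) • α =
          ∑ x ∈ Y ∩ R, x - #(Y ∩ R) • α + (∑ x ∈ A, x - ∑ x ∈ Y, x) := by abel
      rw [h1]
      exact h)
  have hdis : Disjoint (Y \ R) Z := disjoint_of_subset_right hZ sdiff_disjoint
  refine hit_of_omit hA (Y := (Y \ R) ∪ Z) (union_subset (sdiff_subset.trans hY)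
    (hZ.trans hRA)) ?_ ?_
  · rw [card_union_of_disjoint hdis, hZc, ← hc, card_sdiff_add_card_inter]
  · have h1 := sum_inter_add_sum_sdiff Y R (fun x : G => x)
    rw [sum_union hdis, hZs, ← h1]
    abel

end

end B1M

open B1M in
theorem end_B1 {G : Type*} [AddCommGroup G] [Fintype G] [DecidableEq G] {o : ℕ} [NeZero o]
    (φ : G →+ ZMod o) (hφ : Function.Surjective φ) {A : Finset G} {m t s n c L D θ : ℕ}
    (N : Num (cnt φ A) m t s n c 1 L D) (hG : ∀ x : G, n • x = 0)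
    (h4 : ∀ g : G, #{x : G | x + x = g} ≤ 4) (hker : Nat.card φ.ker = m * s)
    (hFF : ∀ K : AddSubgroup G, FatFull K θ) (hθ : 1000 * θ ≤ m) (hs : 2 ≤ s) (hk : t ≤ s)
    (hfat : ∀ u, 2 * cnt φ A u < m * s + θ) (hdel : Del A n)
    (hlow : ∀ K : AddSubgroup G, K ≠ ⊤ → ∀ x₀ : G, ∀ B ⊆ A, (∀ x ∈ B, x - x₀ ∈ K) →
      1000 * #B + m ≤ 1000 * n + 1000 * m)
    (hno : ¬ Hit A n 0) : False := by
  classical
  -- the rows
  have ho1 : 1 < o := by
    have h1 := N.mo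
    have h2 := N.hL
    omega
  have h01 : (0 : ZMod o) ≠ 1 := by
    have : Fact (1 < o) := ⟨ho1⟩
    exact zero_ne_one
  set R₀ := A.filter (fun x => φ x = 0) with hR₀
  set R₁ := A.filter (fun x => φ x = 1) with hR₁
  have hAc : #A = n + c := by
    rw [← N.total]
    exact card_eq_sum_card_fiberwise (f := φ) (t := univ) fun _ _ => mem_coe.2 (mem_univ _)
  have hnear : near o 1 0 = {0, 1} := by
    rw [near]
    have h1 : Icc (-((0 : ℕ) : ℤ)) (((1 : ℕ) : ℤ) + ((0 : ℕ) : ℤ)) = {0, 1} := by decide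
    rw [h1, image_insert, image_singleton]
    simp
  have hfar : cnt φ A 0 + cnt φ A 1 + far (cnt φ A) 1 0 = n + c := by
    have h1 := sum_sdiff (f := cnt φ A) (subset_univ (near o 1 0))
    rw [hnear, sum_pair h01, N.total] at h1
    rw [far, hnear, ← h1]
    ring
  have hE := N.far_mul 0
  simp only [zero_add, one_mul] at hE
  have hnum := numbers N.nt N.os hk hs N.mc N.win N.mo N.hL hE hfar hker hθ
    (by rw [hker]; exact hfat 0) (by rw [hker]; exact hfat 1)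
  obtain ⟨hE2, hom, hcm, hH, hr₀, hr₁, hfat₀, hfat₁⟩ := hnum
  have hL := N.hL
  have hmc := N.mc
  have hc₀ : cnt φ A 0 = #R₀ := rfl
  have hc₁ : cnt φ A 1 = #R₁ := rfl
  rw [hc₀] at hr₀ hfat₀ hfar
  rw [hc₁] at hr₁ hfat₁ hfar
  have hR₀r : #R₀ ≥ c + 2 := by omega
  have hR₁r : #R₁ ≥ c + 2 := by omega
  have hdis01 : Disjoint R₀ R₁ := by
    rw [disjoint_left]
    intro x hx hx'
    exact h01 ((mem_filter.1 hx).2.symm.trans (mem_filter.1 hx').2)
  -- the omitted elements in the two rows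
  have hYrow : ∀ Y ⊆ A, #Y = c → c ≤ #(Y ∩ R₀) + #(Y ∩ R₁) + 2 * L := by
    intro Y hY hYc
    have h1 : #(A \ (R₀ ∪ R₁)) + (#R₀ + #R₁) = n + c := by
      rw [← card_union_of_disjoint hdis01, ← hAc]
      exact card_sdiff_add_card_eq_card (union_subset (filter_subset _ _) (filter_subset _ _))
    have h2 : #(Y \ (R₀ ∪ R₁)) ≤ #(A \ (R₀ ∪ R₁)) := card_le_card (sdiff_subset_sdiff hY Subset.rfl)
    have h3 := card_sdiff_add_card_inter Y (R₀ ∪ R₁)
    rw [inter_union_distrib_left] at h3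
    have h5 := card_union_le (Y ∩ R₀) (Y ∩ R₁)
    omega
  have hinter : ∀ Y ⊆ A, ∀ u : ZMod o, Y ∩ A.filter (fun x => φ x = u) =
      Y.filter (fun x => φ x = u) := by
    intro Y hY u
    ext x
    rw [mem_inter, mem_filter, mem_filter]
    exact ⟨fun h => ⟨h.1, h.2.2⟩, fun h => ⟨h.1, hY h.1, h.2⟩⟩
  -- the omitted set
  obtain ⟨a, ha⟩ : A.Nonempty := card_pos.1 (by omega)
  obtain ⟨T, hTA, -, hTn, hTs⟩ := hdel o φ ho1 hφ a ha
  set Y := A \ T with hY
  have hYA : Y ⊆ A := sdiff_subset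
  have hYc : #Y = c := by
    rw [hY, card_sdiff_of_subset hTA, hAc, hTn]
    omega
  have hYs : φ (∑ x ∈ Y, x) = φ (∑ x ∈ A, x) := by
    rw [← sum_sdiff (f := fun x : G => x) hTA, map_add, hTs, add_zero]
  have hrows := hYrow Y hYA hYc
  rw [hinter Y hYA 0, hinter Y hYA 1] at hrows
  -- one subgroup of index two
  obtain ⟨K, hKle, hKc, hK₀, hK₁⟩ : ∃ K ≤ φ.ker, 2 * Nat.card K = Nat.card φ.ker ∧
      (∀ a ∈ A, ∀ a' ∈ A, φ a = 0 → φ a' = 0 → a' - a ∈ K) ∧
      (∀ a ∈ A, ∀ a' ∈ A, φ a = 1 → φ a' = 1 → a' - a ∈ K) := by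
    have hswap : ∀ Y' ⊆ A, #Y' = c → φ (∑ x ∈ Y', x) = φ (∑ x ∈ A, x) →
        2 ≤ #(Y'.filter (fun x => φ x = 1)) → 1 ≤ #(Y'.filter (fun x => φ x = 0)) →
        ∃ K ≤ φ.ker, 2 * Nat.card K = Nat.card φ.ker ∧
        (∀ a ∈ A, ∀ a' ∈ A, φ a = 0 → φ a' = 0 → a' - a ∈ K) ∧
        (∀ a ∈ A, ∀ a' ∈ A, φ a = 1 → φ a' = 1 → a' - a ∈ K) := by
      intro Y' hY' hc' hs' h1' h2'
      obtain ⟨K, h1, h2, h3, h5⟩ := rows_in_coset h4 φ hAc hno hY' hc' h01.symm hs' hH hr₁ hr₀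
        h1' h2'
      exact ⟨K, h1, h2, h5, h3⟩
    by_cases h0 : 1 ≤ #(Y.filter (fun x => φ x = 0))
    · by_cases h1 : 1 ≤ #(Y.filter (fun x => φ x = 1))
      · by_cases h2 : 2 ≤ #(Y.filter (fun x => φ x = 0))
        · exact rows_in_coset h4 φ hAc hno hYA hYc h01 hYs hH hr₀ hr₁ h2 h1
        · exact hswap Y hYA hYc hYs (by omega) h0
      · obtain ⟨Y', hY', hc', hs', h2', h1'⟩ := both_rows φ hYA hYc h01.symm hYs
          (card_eq_zero.1 (by omega)) h0 (by omega) (by omega : c ≤ #R₁)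
        exact hswap Y' hY' hc' hs' h2' h1'
    · obtain ⟨Y', hY', hc', hs', h2', h1'⟩ := both_rows φ hYA hYc h01 hYs
        (card_eq_zero.1 (by omega)) (by omega) (by omega) (by omega : c ≤ #R₀)
      exact rows_in_coset h4 φ hAc hno hY' hc' h01 hs' hH hr₀ hr₁ h2' h1'
  obtain ⟨α, hα⟩ : R₀.Nonempty := card_pos.1 (by omega)
  obtain ⟨β, hβ⟩ : R₁.Nonempty := card_pos.1 (by omega)
  rw [hR₀, mem_filter] at hα
  rw [hR₁, mem_filter] at hβ
  have hR₀K : ∀ x ∈ R₀, x - α ∈ K := fun x hx =>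
    hK₀ α hα.1 x (mem_filter.1 hx).1 hα.2 (mem_filter.1 hx).2
  have hR₁K : ∀ x ∈ R₁, x - β ∈ K := fun x hx =>
    hK₁ β hβ.1 x (mem_filter.1 hx).1 hβ.2 (mem_filter.1 hx).2
  have hKtop : K ≠ ⊤ := by
    rintro rfl
    have h1 : Nat.card φ.ker ≤ Nat.card G := Nat.card_le_card_of_injective _ Subtype.val_injective
    have h2 : Nat.card (⊤ : AddSubgroup G) = Nat.card G := AddSubgroup.card_top
    omega
  by_cases htop : K ⊔ AddSubgroup.zmultiples (β - α) = ⊤
  · -- the quotient by `K` is cyclic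
    have hcyc : IsAddCyclic (G ⧸ K) := by
      refine ⟨⟨((β - α : G) : G ⧸ K), fun x => ?_⟩⟩
      obtain ⟨g, rfl⟩ := QuotientAddGroup.mk_surjective x
      have hg : g ∈ K ⊔ AddSubgroup.zmultiples (β - α) := by
        rw [htop]
        exact AddSubgroup.mem_top g
      obtain ⟨k, hk, l, hl, rfl⟩ := AddSubgroup.mem_sup.1 hg
      obtain ⟨i, rfl⟩ := AddSubgroup.mem_zmultiples_iff.1 hl
      refine AddSubgroup.mem_zmultiples_iff.2 ⟨i, ?_⟩
      rw [QuotientAddGroup.mk_add, (QuotientAddGroup.eq_zero_iff k).2 hk, zero_add]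
      rfl
    set e := zmodAddCyclicAddEquiv hcyc with he
    set ψ : G →+ ZMod (Nat.card (G ⧸ K)) :=
      e.symm.toAddMonoidHom.comp (QuotientAddGroup.mk' K) with hψ
    have hψs : Function.Surjective ψ :=
      e.symm.surjective.comp (QuotientAddGroup.mk'_surjective K)
    have hψK : ∀ x, ψ x = 0 → x ∈ K := by
      intro x hx
      have h1 : e.symm (x : G ⧸ K) = 0 := hx
      rw [EmbeddingLike.map_eq_zero_iff] at h1
      exact (QuotientAddGroup.eq_zero_iff x).1 h1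
    have hcard1 : 1 < Nat.card (G ⧸ K) := by
      have h1 : K.index ≠ 1 := fun h => hKtop (AddSubgroup.index_eq_one.1 h)
      have h2 : K.index ≠ 0 := AddSubgroup.index_ne_zero_of_finite
      have h3 : K.index = Nat.card (G ⧸ K) := rfl
      omega
    obtain ⟨T', hTA', -, hTn', hTs'⟩ := hdel _ ψ hcard1 hψs a ha
    have hZA : A \ T' ⊆ A := sdiff_subset
    have hZc : #(A \ T') = c := by
      rw [card_sdiff_of_subset hTA', hAc, hTn']
      omega
    have hZs : ∑ x ∈ A, x - ∑ x ∈ A \ T', x ∈ K := by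
      rw [← sum_sdiff (f := fun x : G => x) hTA', add_sub_cancel_left]
      exact hψK _ hTs'
    have hrows' := hYrow _ hZA hZc
    rcases (by omega : 2 ≤ #((A \ T') ∩ R₀) ∨ 2 ≤ #((A \ T') ∩ R₁)) with h | h
    · have h6 : Nat.card K + θ ≤ 2 * #R₀ := by omega
      exact hno (hit_of_sum hAc hZA hZc (hFF K) hZs (filter_subset _ _) hR₀K h6 h hR₀r)
    · have h6 : Nat.card K + θ ≤ 2 * #R₁ := by omega
      exact hno (hit_of_sum hAc hZA hZc (hFF K) hZs (filter_subset _ _) hR₁K h6 h hR₁r)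
  · -- `A` is nearly inside a coset
    have h1 := hlow _ htop α (R₀ ∪ R₁) (union_subset (filter_subset _ _) (filter_subset _ _))
      (by
        intro x hx
        rcases mem_union.1 hx with hx | hx
        · exact AddSubgroup.mem_sup_left (hR₀K x hx)
        · have h2 : x - α = (x - β) + (β - α) := by abel
          rw [h2]
          exact AddSubgroup.add_mem _ (AddSubgroup.mem_sup_left (hR₁K x hx))
            (AddSubgroup.mem_sup_right (AddSubgroup.mem_zmultiples _)))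
    rw [card_union_of_disjoint hdis01] at h1
    omega

end Pool.Agent.Lib.MPa7239a.RB
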