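import Pool.Agent.Lib.MP_a7239a_co.RB.A

/-!
# Theorem R*, the end game: module B2 (`t ≤ q s`, `q ≥ 2`)
-/

open Finset

namespace Pool.Agent.Lib.MPa7239a.RB

variable {o : ℕ} [NeZero o] {r d : ZMod o → ℕ} {m t s n c q L D h θ : ℕ}

namespace EndB2

open EndA

/-- three main rows -/
theorem three_row (N : Num r m t s n c q L D) (hr : ∀ u, r u ≤ h) {i j k : ℕ} (hi : i ≤ q)
    (hj : j ≤ q) (hk : k ≤ q) (hij : i ≠ j) (hik : i ≠ k) (hjk : j ≠ k) :
    n + c + 2 * h ≤ r (i : ZMod o) + r (j : ZMod o) + r (k : ZMod o) + q * h + far r q 0 := by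
  rw [← N.main_sum]
  have h1 : i ∈ range (q + 1) := mem_range.2 (by omega)
  have h1' : j ∈ (range (q + 1)).erase i := mem_erase.2 ⟨hij.symm, mem_range.2 (by omega)⟩
  have h1'' : k ∈ ((range (q + 1)).erase i).erase j :=
    mem_erase.2 ⟨hjk.symm, mem_erase.2 ⟨hik.symm, mem_range.2 (by omega)⟩⟩
  rw [← add_sum_erase _ (fun i : ℕ => r (i : ZMod o)) h1,
    ← add_sum_erase _ (fun i : ℕ => r (i : ZMod o)) h1',
    ← add_sum_erase _ (fun i : ℕ => r (i : ZMod o)) h1'']
  have h2 : ∑ x ∈ (((range (q + 1)).erase i).erase j).erase k, r (x : ZMod o) ≤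
      #((((range (q + 1)).erase i).erase j).erase k) • h :=
    sum_le_card_nsmul _ _ _ fun x _ => hr _
  rw [card_erase_of_mem h1'', card_erase_of_mem h1', card_erase_of_mem h1, card_range,
    Nat.add_sub_cancel, smul_eq_mul] at h2
  have h3 : (q - 1 - 1) * h + 2 * h = q * h := by
    obtain ⟨a, ha⟩ : ∃ a, q = a + 2 := ⟨q - 2, by omega⟩
    rw [ha, show a + 2 - 1 - 1 = a by omega]
    ring
  omega

/-- at most two main rows with omitted elements -/
theorem far_of_two (N : Num r m t s n c q L D) (hd : Adm r c d) {i w : ℕ} (hi : i ≤ q)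
    (hw : w ≤ q) (hiw : i ≠ w) (h0 : ∀ j ≤ q, j ≠ i → j ≠ w → d (j : ZMod o) = 0) :
    c = far d q 0 + d (i : ZMod o) + d (w : ZMod o) := by
  have h2 := N.omit_sum hd
  have h3 : ∑ j ∈ range (q + 1), d (j : ZMod o) = d (i : ZMod o) + d (w : ZMod o) := by
    have h1 : i ∈ range (q + 1) := mem_range.2 (by omega)
    have h1' : w ∈ (range (q + 1)).erase i := mem_erase.2 ⟨hiw.symm, mem_range.2 (by omega)⟩
    rw [← add_sum_erase _ (fun i : ℕ => d (i : ZMod o)) h1,
      ← add_sum_erase _ (fun i : ℕ => d (i : ZMod o)) h1']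
    have h4 : ∑ x ∈ ((range (q + 1)).erase i).erase w, d (x : ZMod o) = 0 := by
      apply sum_eq_zero
      intro x hx
      rw [mem_erase, mem_erase, mem_range] at hx
      exact h0 x (by omega) hx.2.1 hx.1
    omega
  omega

/-- the numbers of case B2 -/
theorem nums (N : Num r m t s n c q L D) (g : Game r (m * s) θ c) (hs : 2 ≤ s) (hq1 : 1 ≤ q)
    (hq : q < 400) (hk : t ≤ q * s) : ∃ σ, 1000 * σ ≤ m * s + m ∧ c ≤ m + L ∧
      far r q 0 ≤ (q + 1) * L ∧
      (∀ i ≤ q, ∀ j ≤ q, ∀ k ≤ q, i ≠ j → i ≠ k → j ≠ k →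
        c + 2 * (m * s) ≤ r ((i : ℕ) : ZMod o) + r ((j : ℕ) : ZMod o) +
          r ((k : ℕ) : ZMod o) + σ) := by
  obtain ⟨z, hz⟩ : ∃ z, q * s = t + z := ⟨q * s - t, by omega⟩
  have hn : q * (m * s) = n + z * m := by
    rw [N.nt]
    calc q * (m * s) = (q * s) * m := by ring
      _ = t * m + z * m := by rw [hz]; ring
  obtain ⟨a, ha⟩ : ∃ a, c = m + a := ⟨c - m, by have := N.mc; omega⟩
  have hwin : z * m + s * (q * a) + s * D + 2 * s ≤ s * (q * L) := by
    have h1 : s * (q * c + D + 2) ≤ s * (o + q * L) := Nat.mul_le_mul_left _ N.win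
    have h3 : s * (q * c + D + 2) = q * (m * s) + s * (q * a) + s * D + 2 * s := by
      rw [ha]
      ring
    have h4 : s * (o + q * L) = n + s * (q * L) := by
      rw [← N.os]
      ring
    omega
  have hfar := N.far_zero
  have hQ := loss_small N hq
  have hQ' : (q + 1) * L = q * L + L := by ring
  have hD : D ≤ q * L := by
    have h1 : s * D ≤ s * (q * L) := by omega
    exact Nat.le_of_mul_le_mul_left h1 (by omega)
  have ha' : a ≤ L := by
    have h1 : s * (q * a) ≤ s * (q * L) := by omega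
    have h2 := Nat.le_of_mul_le_mul_left h1 (by omega)
    exact Nat.le_of_mul_le_mul_left h2 (by omega)
  refine ⟨z * m + far r q 0, ?_, by omega, by omega, ?_⟩
  · have h1 : s * (1000 * ((q + 1) * L)) ≤ s * m := Nat.mul_le_mul_left _ hQ
    have h2 : s * (1000 * ((q + 1) * L)) = 1000 * (s * (q * L)) + 1000 * (s * L) := by ring
    have h3 : s * m = m * s := mul_comm _ _
    omega
  · intro i hi j hj k hk' hij hik hjk
    have h1 := three_row N g.row_le hi hj hk' hij hik hjk
    omega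

end EndB2

open EndA EndB2

/-- B2: `k' ≥ s`, `q ≥ 2` -/
theorem end_B2 (N : Num r m t s n c q L D) (g : Game r (m * s) θ c) (hθ : 1000 * θ ≤ m)
    (hs : 2 ≤ s) (hq2 : 2 ≤ q) (hq : q < 400) (hk : t ≤ q * s) : False := by
  obtain ⟨σ, hσ, hc, hfar, hthree⟩ := EndB2.nums N g hs (by omega) hq hk
  have hQ := loss_small N hq
  have hm := N.hL
  have hmc := N.mc
  have hh : 2 * m ≤ m * s := by
    rw [mul_comm m s]
    exact Nat.mul_le_mul_right _ hs
  -- the largest main row
  obtain ⟨p, hp, hmax⟩ : ∃ p ≤ q, ∀ j ≤ q, r ((j : ℕ) : ZMod o) ≤ r ((p : ℕ) : ZMod o) := by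
    obtain ⟨p, hp, h1⟩ := exists_max_image (range (q + 1)) (fun j : ℕ => r (j : ZMod o))
      ⟨0, mem_range.2 (by omega)⟩
    exact ⟨p, by have := mem_range.1 hp; omega, fun j hj => h1 j (mem_range.2 (by omega))⟩
  have hp3 : c + 2 * (m * s) ≤ 3 * r ((p : ℕ) : ZMod o) + σ := by
    have h1 := hthree 0 (by omega) 1 (by omega) 2 hq2 (by omega) (by omega) (by omega)
    have h2 := hmax 0 (by omega)
    have h3 := hmax 1 (by omega)
    have h4 := hmax 2 (by omega)
    omega
  obtain ⟨w, hw, hwp, hsum⟩ : ∃ w ≤ q, w ≠ p ∧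
      r ((p : ℕ) : ZMod o) + r ((w : ℕ) : ZMod o) < m * s + c := by
    obtain ⟨d, hd, h1⟩ := g.del (p : ZMod o) (by omega)
    have h2 := g.le_one hd (by omega : m * s + θ ≤ 2 * r ((p : ℕ) : ZMod o)) (by omega)
    by_contra hno
    push Not at hno
    have h3 : ∀ j ≤ q, j ≠ p → d ((j : ℕ) : ZMod o) = 0 := by
      intro j hj hjp
      by_contra h0
      have h4 := hno j hj hjp
      have h5 := g.row_le ((p : ℕ) : ZMod o)
      exact g.two hd (main_ne N (by omega) (by omega) (Ne.symm hjp)) (by omega) (by omega)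
        (by omega) (by omega) (by omega)
    have h4 := far_of_single N hd hp h2 h3
    have h5 := far_mono hd.le q 0
    omega
  -- all the other rows are nearly full
  have hfull : ∀ v ≤ q, v ≠ w → m * s < r ((v : ℕ) : ZMod o) + σ := by
    have h1 : ∀ v ≤ q, v ≠ w → v ≠ p → m * s < r ((v : ℕ) : ZMod o) + σ := by
      intro v hv hvw hvp
      have h2 := hthree p hp w hw v hv (Ne.symm hwp) (Ne.symm hvp) (Ne.symm hvw)
      omega
    intro v hv hvw
    by_cases hvp : v = p
    · obtain ⟨k, hk1, hk2, hk3⟩ : ∃ k ≤ q, k ≠ w ∧ k ≠ p := by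
        by_cases h0 : w ≠ 0 ∧ p ≠ 0
        · exact ⟨0, by omega, h0.1.symm, h0.2.symm⟩
        · by_cases h1 : w ≠ 1 ∧ p ≠ 1
          · exact ⟨1, by omega, h1.1.symm, h1.2.symm⟩
          · exact ⟨2, hq2, by omega, by omega⟩
      have h2 := h1 k hk1 hk2 hk3
      have h3 := hmax k hk1
      rw [hvp]
      omega
    · exact h1 v hv hvw hvp
  -- deletion in a row `i ≠ w`
  have hdel : ∀ i ≤ q, i ≠ w → ∃ d, Adm r c d ∧ d ((i : ℕ) : ZMod o) = 1 ∧
      2 ≤ d ((w : ℕ) : ZMod o) ∧ ∀ j ≤ q, j ≠ i → j ≠ w → d ((j : ℕ) : ZMod o) = 0 := by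
    intro i hi hiw
    have hri := hfull i hi hiw
    obtain ⟨d, hd, h1⟩ := g.del (i : ZMod o) (by omega)
    have h2 := g.le_one hd (by omega : m * s + θ ≤ 2 * r ((i : ℕ) : ZMod o)) (by omega)
    have h3 : ∀ j ≤ q, j ≠ i → j ≠ w → d ((j : ℕ) : ZMod o) = 0 := by
      intro j hj hji hjw
      by_contra h0
      have h4 := hfull j hj hjw
      exact g.two hd (main_ne N (by omega) (by omega) (Ne.symm hji)) (by omega) (by omega)
        (by omega) (by omega) (by omega)
    have h4 := far_of_two N hd hi hw hiw h3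
    have h5 := far_mono hd.le q 0
    exact ⟨d, hd, by omega, by omega, h3⟩
  -- the ends
  have hends : ∀ d, Adm r c d → 1 ≤ d ((0 : ℕ) : ZMod o) → 1 ≤ d ((q : ℕ) : ZMod o) →
      (∀ j ≤ q, j ≠ 0 → j ≠ q → d ((j : ℕ) : ZMod o) = 0) → w = 0 ∨ w = q → False := by
    intro d hd h1 h2 h3 hw'
    have hne : ((0 : ℕ) : ZMod o) ≠ (q : ZMod o) := main_ne N (by omega) (by omega) (by omega)
    rcases Nat.lt_or_ge q 3 with hq3 | hq3
    · have hq' : q = 2 := by omega
      subst hq'
      have h4 := hfull 1 (by omega) (by omega)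
      exact g.pair_eq hd (y := ((0 : ℕ) : ZMod o)) (y' := ((2 : ℕ) : ZMod o))
        (v := ((1 : ℕ) : ZMod o)) h1 h2 (fun h => absurd h hne)
        (h3 1 (by omega) (by omega) (by omega)) (by omega) (by omega) (by push_cast; ring)
    · have h4 := hfull 1 (by omega) (by omega)
      have h5 := hfull (q - 1) (by omega) (by omega)
      exact g.pair_ne hd (y := ((0 : ℕ) : ZMod o)) (y' := ((q : ℕ) : ZMod o))
        (v := ((1 : ℕ) : ZMod o)) (v' := ((q - 1 : ℕ) : ZMod o)) h1 h2
        (fun h => absurd h hne) (main_ne N (by omega) (by omega) (by omega))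
        (h3 1 (by omega) (by omega) (by omega)) (h3 (q - 1) (by omega) (by omega) (by omega))
        (by omega) (by omega) (by omega) (by rw [Nat.cast_sub (by omega)]; push_cast; ring)
  rcases Nat.eq_zero_or_pos w with hw0 | hw0
  · obtain ⟨d, hd, h1, h2, h3⟩ := hdel q le_rfl (by omega)
    subst hw0
    exact hends d hd (by omega) (by omega) (fun j hj h4 h5 => h3 j hj h5 h4) (Or.inl rfl)
  · rcases Nat.lt_or_ge w q with hwq | hwq
    · obtain ⟨d, hd, h1, h2, h3⟩ := hdel (w - 1) (by omega) (by omega)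
      have h4 := hfull (w - 1) (by omega) (by omega)
      have h5 := hfull (w + 1) (by omega) (by omega)
      have h6 := h3 (w + 1) (by omega) (by omega) (by omega)
      have hne1 : ((w - 1 : ℕ) : ZMod o) ≠ ((w : ℕ) : ZMod o) :=
        main_ne N (by omega) (by omega) (by omega)
      exact g.pair_inc hd (y := ((w : ℕ) : ZMod o)) (y' := ((w : ℕ) : ZMod o))
        (v := ((w - 1 : ℕ) : ZMod o)) (v' := ((w + 1 : ℕ) : ZMod o)) (by omega) (by omega)
        (fun _ => h2) h1 (main_ne N (by omega) (by omega) (by omega)) hne1 hne1 (by omega)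
        (by omega) (by omega) (by rw [Nat.cast_sub (by omega)]; push_cast; ring)
    · have hw' : w = q := by omega
      subst hw'
      obtain ⟨d, hd, h1, h2, h3⟩ := hdel 0 (by omega) (by omega)
      exact hends d hd (by omega) (by omega) h3 (Or.inr rfl)

end Pool.Agent.Lib.MPa7239a.RB
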