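import Pool.Agent.Lib.MP_a7239a_co.RK.LOW

/-!
# A cyclically free set of `(t + 1) * m - 1` elements for every `t ≥ 4`
-/

open Finset

namespace Pool.Agent.Lib.MPa7239a.RB

open Pool.Agent.Lib.MPa7239a.GC
open Pool.Agent.Lib.MPa7239a.RK

namespace CYC3

/-- the residues of a set of small numbers -/
theorem image_cast {n : ℕ} [NeZero n] (N : Finset ℕ) (hN : ∀ i ∈ N, i < n) :
    #(N.image (fun i : ℕ => (i : ZMod n))) = #N ∧
      ∀ g : ℕ → ℕ, ∑ y ∈ N.image (fun i : ℕ => (i : ZMod n)), g y.val = ∑ i ∈ N, g i := by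
  have hinj : Set.InjOn (fun i : ℕ => (i : ZMod n)) N := by
    intro i hi j hj hij
    have h1 : ((i : ZMod n)).val = ((j : ZMod n)).val := congrArg ZMod.val hij
    rwa [ZMod.val_cast_of_lt (hN i (mem_coe.1 hi)), ZMod.val_cast_of_lt (hN j (mem_coe.1 hj))]
      at h1
  refine ⟨card_image_of_injOn hinj, fun g => ?_⟩
  rw [sum_image hinj]
  exact sum_congr rfl fun i hi => by rw [ZMod.val_cast_of_lt (hN i hi)]

end CYC3

theorem cyc3 {m t : ℕ} (ht : 4 ≤ t) (hm : 3 ≤ m) :
    ∃ A : Finset (ZMod m × ZMod (t * m)), #A + 1 = (t + 1) * m ∧ CycFree A (t * m) := by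
  rcases Nat.even_or_odd t with hte | hto
  swap
  · exact cyc2 (by omega) hm hto
  obtain ⟨b, hb⟩ := hte
  have hb2 : 2 ≤ b := by omega
  have hn : 0 < t * m := by positivity
  have : NeZero (t * m) := ⟨hn.ne'⟩
  have : NeZero m := ⟨by omega⟩
  have htm : t * m = b * m + b * m := by rw [hb]; ring
  have hbm : b * 3 ≤ b * m := Nat.mul_le_mul_left b hm
  obtain ⟨N, hN⟩ : ∃ N : Finset ℕ, N = Icc 1 b ∪ Icc (b * m) (b * m + b) := ⟨_, rfl⟩
  have hdis : Disjoint (Icc 1 b) (Icc (b * m) (b * m + b)) := by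
    rw [disjoint_left]
    intro x hx hx'
    rw [mem_Icc] at hx hx'
    omega
  have hNn : ∀ i ∈ N, i < t * m := by
    intro i hi
    rw [hN, mem_union, mem_Icc, mem_Icc] at hi
    omega
  have hNc : #N = t + 1 := by
    rw [hN, card_union_of_disjoint hdis, Nat.card_Icc, Nat.card_Icc]
    omega
  have hNmod : ∀ i ∈ N, i % (b * m) ≤ b := by
    intro i hi
    rw [hN, mem_union, mem_Icc, mem_Icc] at hi
    rcases hi with hi | hi
    · rw [Nat.mod_eq_of_lt (by omega)]
      exact hi.2
    · obtain ⟨j, rfl⟩ : ∃ j, i = b * m + j := ⟨i - b * m, by omega⟩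
      rw [Nat.add_mod_left, Nat.mod_eq_of_lt (by omega)]
      omega
  have hNs : ∑ i ∈ N, i % (b * m) = b * (b + 1) := by
    rw [hN, sum_union hdis]
    have h1 : ∑ i ∈ Icc 1 b, i % (b * m) = ∑ i ∈ range (b + 1), i := by
      rw [range_eq_Ico, ← add_sum_Ioo_eq_sum_Ico (by omega : 0 < b + 1), zero_add]
      refine sum_congr ?_ fun i hi => ?_
      · ext x
        rw [mem_Icc, mem_Ioo]
        omega
      · rw [mem_Ioo] at hi
        exact Nat.mod_eq_of_lt (by omega)
    have h2 : ∑ i ∈ Icc (b * m) (b * m + b), i % (b * m) = ∑ i ∈ range (b + 1), i := by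
      refine sum_bij' (fun i _ => i - b * m) (fun i _ => b * m + i) ?_ ?_ ?_ ?_ ?_
      · intro i hi
        rw [mem_Icc] at hi
        rw [mem_range]
        omega
      · intro i hi
        rw [mem_range] at hi
        rw [mem_Icc]
        omega
      · intro i hi
        rw [mem_Icc] at hi
        omega
      · intro i hi
        omega
      · intro i hi
        rw [mem_Icc] at hi
        obtain ⟨j, rfl⟩ : ∃ j, i = b * m + j := ⟨i - b * m, by omega⟩
        rw [Nat.add_mod_left, Nat.mod_eq_of_lt (by omega)]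
        omega
    rw [h1, h2]
    have h3 := Finset.sum_range_id_mul_two (b + 1)
    rw [Nat.add_sub_cancel] at h3
    calc ∑ i ∈ range (b + 1), i + ∑ i ∈ range (b + 1), i = (∑ i ∈ range (b + 1), i) * 2 := by ring
      _ = (b + 1) * b := h3
      _ = b * (b + 1) := by ring
  obtain ⟨hJc, hJs⟩ := CYC3.image_cast N hNn
  set J := N.image (fun i : ℕ => (i : ZMod (t * m))) with hJ
  have hJv : ∀ y ∈ J, y.val % (b * m) ≤ b := by
    intro y hy
    rw [hJ, mem_image] at hy
    obtain ⟨i, hi, rfl⟩ := hy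
    rw [ZMod.val_cast_of_lt (hNn i hi)]
    exact hNmod i hi
  set F := (univ : Finset (ZMod m)) ×ˢ J with hF
  have hFc : #F = m * (t + 1) := by rw [hF, card_product, card_univ, ZMod.card, hJc, hNc]
  set a : ZMod m × ZMod (t * m) := (0, ((1 : ℕ) : ZMod (t * m))) with ha
  have haF : a ∈ F := by
    refine mem_product.2 ⟨mem_univ _, ?_⟩
    rw [hJ, mem_image]
    refine ⟨1, ?_, rfl⟩
    rw [hN, mem_union, mem_Icc]
    omega
  have hav : a.2.val % (b * m) = 1 := by
    have h1 : a.2.val = 1 := ZMod.val_cast_of_lt (by omega)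
    rw [h1, Nat.mod_eq_of_lt (by omega)]
  have hdvd : b * m ∣ t * m := ⟨2, by rw [htm]; ring⟩
  have hFs : ∑ x ∈ F, x.2.val % (b * m) = m * (b * (b + 1)) := by
    rw [hF, sum_product]
    simp only
    rw [sum_const, card_univ, ZMod.card, hJs (fun x => x % (b * m)), hNs, smul_eq_mul]
  have : NeZero (b * m) := ⟨by omega⟩
  refine ⟨F.erase a, ?_, b * m,
    (ZMod.castHom hdvd (ZMod (b * m))).toAddMonoidHom.comp (AddMonoidHom.snd _ _), by omega, ?_, ?_⟩
  · rw [card_erase_of_mem haF, hFc, mul_comm m]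
    have : 0 < (t + 1) * m := by positivity
    omega
  · intro y
    obtain ⟨x, hx⟩ := ZMod.castHom_surjective hdvd y
    exact ⟨(0, x), hx⟩
  · intro T hT hTc h0
    have h0' : b * m ∣ ∑ x ∈ T, x.2.val % (b * m) := by
      rw [← ZMod.natCast_eq_zero_iff, ← h0, map_sum, Nat.cast_sum]
      refine sum_congr rfl fun x _ => ?_
      rw [ZMod.natCast_mod]
      have h1 : (ZMod.castHom hdvd (ZMod (b * m))) x.2 = ((x.2.val : ℕ) : ZMod (b * m)) := by
        conv_lhs => rw [← ZMod.natCast_zmod_val x.2]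
        rw [map_natCast]
      exact h1.symm
    have h1 := sum_sdiff (f := fun x : ZMod m × ZMod (t * m) => x.2.val % (b * m)) hT
    have h2 := add_sum_erase F (fun x : ZMod m × ZMod (t * m) => x.2.val % (b * m)) haF
    rw [hav, hFs] at h2
    have h3 : ∑ x ∈ F.erase a \ T, x.2.val % (b * m) ≤ #(F.erase a \ T) * b := by
      refine sum_le_card_nsmul _ _ _ fun x hx => ?_
      exact hJv _ (mem_product.1 (mem_of_mem_erase (mem_sdiff.1 hx).1)).2
    rw [card_sdiff_of_subset hT, card_erase_of_mem haF, hFc, hTc] at h3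
    have h5 : m * (t + 1) - 1 - t * m = m - 1 := by
      have : m * (t + 1) = t * m + m := by ring
      omega
    rw [h5] at h3
    have h6 : (m - 1) * b + b = b * m := by
      obtain ⟨m', rfl⟩ : ∃ m', m = m' + 1 := ⟨m - 1, by omega⟩
      rw [Nat.add_sub_cancel]
      ring
    obtain ⟨k, hk⟩ := h0'
    have h4 : m * (b * (b + 1)) = b * m * (b + 1) := by ring
    have h7 : b * m * k < b * m * (b + 1) := by omega
    have h8 : b * m * b < b * m * k := by
      have : b * m * (b + 1) = b * m * b + b * m := by ring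
      omega
    have h9 := Nat.lt_of_mul_lt_mul_left h7
    have h10 := Nat.lt_of_mul_lt_mul_left h8
    omega

end Pool.Agent.Lib.MPa7239a.RB
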