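import Mathlib

/-!
# Theorem R*, the end game: definitions

All is expressed by count vectors: `r u` is the number of elements of `A` in class `u` (a class is
an element of `ZMod o`), `d u` the number of omitted elements in class `u`.
-/

open Finset

namespace Pool.Agent.Lib.MPa7239a.RB

/-- `d` is the count vector of `c` omitted elements; the remaining ones have sum `0` -/
structure Adm {o : ℕ} [NeZero o] (r : ZMod o → ℕ) (c : ℕ) (d : ZMod o → ℕ) : Prop where
  le : ∀ u, d u ≤ r u
  card : ∑ u, d u = c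
  sum : ∑ u, d u • u = ∑ u, r u • u

/-- the rules; `h` is the size of a full row -/
structure Game {o : ℕ} [NeZero o] (r : ZMod o → ℕ) (h θ c : ℕ) : Prop where
  row_le : ∀ u, r u ≤ h
  rule1 : ∀ d, Adm r c d → ∀ u, h + θ ≤ 2 * r u → 2 ≤ d u → r u < d u + 2
  rule2 : ∀ d, Adm r c d → ∀ u v, u ≠ v → 1 ≤ d u → d u < r u → 1 ≤ d v → d v < r v →
    max (d u) (r u - d u) + 1 + (max (d v) (r v - d v) + 1) ≤ h
  del : ∀ u, 1 ≤ r u → ∃ d, Adm r c d ∧ 1 ≤ d u

/-- the classes `- w, ..., q + w` -/
noncomputable def near (o q w : ℕ) : Finset (ZMod o) :=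
  (Icc (-(w : ℤ)) ((q : ℤ) + w)).image (fun i : ℤ => (i : ZMod o))

/-- the number of elements in the classes outside `- w, ..., q + w` -/
noncomputable def far {o : ℕ} [NeZero o] (r : ZMod o → ℕ) (q w : ℕ) : ℕ := ∑ u ∈ univ \ near o q w, r u

/-- the numbers of the input; the main classes are `0, ..., q`. A row has at most `m * s`
elements; `D` bounds the sum of the distances of the elements of `S` outside the main classes, `L`
is the number of exceptional elements. -/
structure Num {o : ℕ} [NeZero o] (r : ZMod o → ℕ) (m t s n c q L D : ℕ) : Prop where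
  nt : n = t * m
  os : o * s = n
  s1 : 1 ≤ s
  t4 : 4 ≤ t
  total : ∑ u, r u = n + c
  mc : m + 1 ≤ c
  win : q * c + D + 2 ≤ o + q * L
  mo : m ≤ o + 2 * L
  hL : 400000 * (L + 1) ≤ m
  far_mul : ∀ w : ℕ, (w + 1) * far r q w ≤ D + (w + 1) * L
  far_two : far r q 0 + far r q 1 ≤ D + 2 * L

/-- the count vector of `A` -/
def cnt {G : Type*} [AddCommGroup G] {o : ℕ} (φ : G →+ ZMod o) (A : Finset G) (u : ZMod o) : ℕ :=
  #(A.filter (fun x => φ x = u))

/-- deletion: `A` without one element is not cyclically free -/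
def Del {G : Type*} [AddCommGroup G] (A : Finset G) (n : ℕ) : Prop :=
  ∀ (o : ℕ) (ψ : G →+ ZMod o), 1 < o → Function.Surjective ψ → ∀ a ∈ A,
    ∃ T ⊆ A, a ∉ T ∧ #T = n ∧ ψ (∑ x ∈ T, x) = 0

end Pool.Agent.Lib.MPa7239a.RB
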