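import Pool.Agent.Lib.MP_a7239a_co.RB.NUM

/-!
# From the window to `Num` (Theorem R*, module INPB)
-/

set_option autoImplicit false

open Finset

namespace Pool.Agent.Lib.MPa7239a.RB

section
variable {G : Type*} [AddCommGroup G] [DecidableEq G] {o : ℕ} [NeZero o]

omit [DecidableEq G] in
theorem cnt_sum (φ : G →+ ZMod o) (A : Finset G) : ∑ u, cnt φ A u = #A := by
  rw [card_eq_sum_card_fiberwise (f := φ) (t := univ) (fun x _ => mem_coe.2 (mem_univ _))]
  rfl

omit [DecidableEq G] in
theorem far_cnt (φ : G →+ ZMod o) (A : Finset G) (q w : ℕ) :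
    far (cnt φ A) q w = #(A.filter (fun x => φ x ∉ near o q w)) := by
  rw [far, card_eq_sum_card_fiberwise (s := A.filter (fun x => φ x ∉ near o q w)) (f := φ)
    (t := univ \ near o q w)]
  · refine sum_congr rfl fun u hu => ?_
    rw [cnt, filter_filter]
    congr 1
    refine filter_congr fun x _ => ?_
    constructor
    · intro h
      rw [mem_sdiff] at hu
      exact ⟨by rw [h]; exact hu.2, h⟩
    · exact fun h => h.2
  · intro x hx
    rw [mem_coe, mem_filter] at hx
    exact mem_coe.2 (mem_sdiff.2 ⟨mem_univ _, hx.2⟩)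

/-- the distance from `[0, q]` -/
def dist0 (q : ℕ) (a : ℤ) : ℤ := if (q : ℤ) < a then a - q else if a < 0 then 0 - a else 0

omit [NeZero o] in
theorem dist0_ge {q w : ℕ} {a : ℤ} (h : (a : ZMod o) ∉ near o q w) : (w : ℤ) + 1 ≤ dist0 q a := by
  have h1 : ¬ (-(w : ℤ) ≤ a ∧ a ≤ q + w) := fun h2 => h (by
    rw [near]
    exact mem_image.2 ⟨a, mem_Icc.2 h2, rfl⟩)
  rw [dist0]
  split_ifs <;> omega

theorem dist0_nonneg (q : ℕ) (a : ℤ) : 0 ≤ dist0 q a := by
  rw [dist0]
  split_ifs <;> omega

omit [AddCommGroup G] [DecidableEq G] in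
theorem sum_dist0 (S : Finset G) (z : G → ℤ) (q : ℕ) : ∑ x ∈ S, dist0 q (z x) =
    ∑ x ∈ S.filter (fun x => (q : ℤ) < z x), (z x - q) +
      ∑ x ∈ S.filter (fun x => z x < 0), (0 - z x) := by
  rw [sum_filter, sum_filter, ← sum_add_distrib]
  refine sum_congr rfl fun x _ => ?_
  rw [dist0]
  split_ifs <;> omega

theorem num_of (φ : G →+ ZMod o) {A S : Finset G} (z : G → ℤ) {m t s n c k t' q L : ℕ}
    (hnt : n = t * m) (hos : o * s = n) (hs1 : 1 ≤ s) (ht : 4 ≤ t) (hA : #A = n + c)
    (hmc : m + 1 ≤ c) (hS : S ⊆ A) (hloss : #A ≤ #S + L) (hL : 400000 * (L + 1) ≤ m)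
    (hz : ∀ x ∈ S, φ x = (z x : ZMod o)) (hSc : #S = k + t') (hk : k ≤ n) (hmo : m ≤ o + 2 * L)
    (hwin : t' * q + ∑ x ∈ S.filter (fun x => (q : ℤ) < z x), (z x - q) +
      ∑ x ∈ S.filter (fun x => z x < 0), (0 - z x) + 2 ≤ o) :
    ∃ D, Num (cnt φ A) m t s n c q L D := by
  rw [add_assoc ((t' : ℤ) * q), ← sum_dist0] at hwin
  obtain ⟨D, hD⟩ := Int.eq_ofNat_of_zero_le
    (sum_nonneg fun x _ => dist0_nonneg q (z x) : 0 ≤ ∑ x ∈ S, dist0 q (z x))
  have hcard : ∀ w, #((A.filter (fun x => φ x ∉ near o q w)) ∩ S) + L ≥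
      #(A.filter (fun x => φ x ∉ near o q w)) := by
    intro w
    have h1 := card_inter_add_card_sdiff (A.filter (fun x => φ x ∉ near o q w)) S
    have h2 : #((A.filter (fun x => φ x ∉ near o q w)) \ S) ≤ #(A \ S) :=
      card_le_card (sdiff_subset_sdiff (filter_subset _ _) (Subset.refl S))
    have h3 := card_sdiff_of_subset hS
    omega
  have hfilt : ∀ w, (A.filter (fun x => φ x ∉ near o q w)) ∩ S =
      S.filter (fun x => φ x ∉ near o q w) := by
    intro w
    ext x
    rw [mem_inter, mem_filter, mem_filter]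
    constructor
    · rintro ⟨⟨h1, h2⟩, h3⟩
      exact ⟨h3, h2⟩
    · rintro ⟨h1, h2⟩
      exact ⟨⟨hS h1, h2⟩, h1⟩
  refine ⟨D, ?_⟩
  constructor
  · exact hnt
  · exact hos
  · exact hs1
  · exact ht
  · rw [cnt_sum, hA]
  · exact hmc
  · -- the window
    rw [hD] at hwin
    have h1 : t' * q + D + 2 ≤ o := by exact_mod_cast hwin
    have h2 : c ≤ t' + L := by omega
    have h3 : q * c ≤ q * (t' + L) := Nat.mul_le_mul_left _ h2
    have h4 : q * (t' + L) = t' * q + q * L := by ring
    omega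
  · exact hmo
  · exact hL
  · -- far classes
    intro w
    rw [far_cnt]
    have h1 : ((w + 1) * #(S.filter (fun x => φ x ∉ near o q w)) : ℤ) ≤ D := by
      rw [← hD]
      calc ((w + 1) * #(S.filter (fun x => φ x ∉ near o q w)) : ℤ)
          = ∑ _x ∈ S.filter (fun x => φ x ∉ near o q w), ((w : ℤ) + 1) := by
            rw [sum_const, nsmul_eq_mul, mul_comm]
        _ ≤ ∑ x ∈ S.filter (fun x => φ x ∉ near o q w), dist0 q (z x) := by
            refine sum_le_sum fun x hx => ?_
            rw [mem_filter] at hx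
            apply dist0_ge (o := o)
            rw [← hz x hx.1]
            exact hx.2
        _ ≤ ∑ x ∈ S, dist0 q (z x) :=
            sum_le_sum_of_subset_of_nonneg (filter_subset _ _) fun x _ _ => dist0_nonneg q (z x)
    have h2 : (w + 1) * #(S.filter (fun x => φ x ∉ near o q w)) ≤ D := by exact_mod_cast h1
    have h3 := hcard w
    rw [hfilt] at h3
    calc (w + 1) * #(A.filter (fun x => φ x ∉ near o q w))
        ≤ (w + 1) * (#(S.filter (fun x => φ x ∉ near o q w)) + L) := Nat.mul_le_mul_left _ h3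
      _ = (w + 1) * #(S.filter (fun x => φ x ∉ near o q w)) + (w + 1) * L := by ring
      _ ≤ _ := by omega
  · -- two distances
    rw [far_cnt, far_cnt]
    have h1 : (#(S.filter (fun x => φ x ∉ near o q 0)) : ℤ) +
        #(S.filter (fun x => φ x ∉ near o q 1)) ≤ D := by
      rw [← hD, card_filter, card_filter, Nat.cast_sum, Nat.cast_sum, ← sum_add_distrib]
      refine sum_le_sum fun x hx => ?_
      have h2 := hz x hx
      by_cases h3 : φ x ∉ near o q 1
      · have h4 := dist0_ge (o := o) (q := q) (w := 1) (a := z x) (by rw [← h2]; exact h3)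
        have h5 : φ x ∉ near o q 0 := by
          intro h6
          apply h3
          rw [near, mem_image] at h6 ⊢
          obtain ⟨i, hi, hi'⟩ := h6
          rw [mem_Icc] at hi
          exact ⟨i, mem_Icc.2 ⟨by omega, by omega⟩, hi'⟩
        rw [if_pos h3, if_pos h5]
        push_cast at h4 ⊢
        omega
      · rw [if_neg h3]
        by_cases h5 : φ x ∉ near o q 0
        · have h4 := dist0_ge (o := o) (q := q) (w := 0) (a := z x) (by rw [← h2]; exact h5)
          rw [if_pos h5]
          push_cast at h4 ⊢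
          omega
        · rw [if_neg h5]
          have := dist0_nonneg q (z x)
          push_cast
          omega
    have h2 : #(S.filter (fun x => φ x ∉ near o q 0)) +
        #(S.filter (fun x => φ x ∉ near o q 1)) ≤ D := by exact_mod_cast h1
    have h3 := hcard 0
    have h4 := hcard 1
    rw [hfilt] at h3 h4
    omega

end

end Pool.Agent.Lib.MPa7239a.RB
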