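import Pool.Agent.Lib.MP_a7239a_co.RB.NUM

/-!
# Theorem R*, the end game: many rows (module L)
-/

open Finset

namespace Pool.Agent.Lib.MPa7239a.RB

namespace EL

/-! ### Numbers -/

/-- the order is not large -/
theorem o_le {o m t s q c L D f₀ f₁ : ℤ} (hs : 1 ≤ s) (hq : 0 ≤ q) (hm : 0 ≤ m) (hL : 0 ≤ L)
    (hos : o * s = t * m) (hmc : m + 1 ≤ c) (hwin : q * c + D + 2 ≤ o + q * L)
    (hf : f₀ ≤ D + L) (hf₂ : f₀ + f₁ ≤ D + 2 * L) (hsum : t * m + c ≤ (q + 1) * (m * s) + f₀)
    (ha : s = 1 → f₀ ≤ f₁ + 2 * m) : o ≤ (q + 2) * (m + L) := by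
  rcases eq_or_lt_of_le hs with h1 | h1
  · have h2 := ha h1.symm
    subst h1
    rw [mul_one] at hos hsum
    nlinarith
  · have h2 : (s - 1) * (o - (q + 1) * m) ≤ (q + 1) * L := by
      nlinarith
    have h3 : o - (q + 1) * m ≤ (q + 1) * L := by
      rcases le_or_gt (o - (q + 1) * m) 0 with h4 | h4
      · have h5 : 0 ≤ (q + 1) * L := by positivity
        linarith
      · have h5 : 1 * (o - (q + 1) * m) ≤ (s - 1) * (o - (q + 1) * m) :=
          mul_le_mul_of_nonneg_right (by linarith) h4.le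
        linarith
    nlinarith

/-- the deficiency of the main rows -/
theorem def_le {o m t s q c L D f₀ : ℤ} (hs : 1 ≤ s) (hq : 0 ≤ q) (hm : 0 ≤ m) (hL : 0 ≤ L)
    (hos : o * s = t * m) (hmc : m + 1 ≤ c) (hwin : q * c + D + 2 ≤ o + q * L) (hD : 0 ≤ D)
    (hf : f₀ ≤ D + L) : (q + 1) * (m * s) - (t * m + c - f₀) ≤ s * (m + (q + 1) * L) := by
  have h1 : q * (c - L) * (s - 1) ≤ o * (s - 1) :=
    mul_le_mul_of_nonneg_right (by linarith) (by linarith)
  have h2 : q * (m - L) * (s - 1) ≤ q * (c - L) * (s - 1) :=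
    mul_le_mul_of_nonneg_right (mul_le_mul_of_nonneg_left (by linarith) hq) (by linarith)
  have h3 : (q + 1) * (m + 1) ≤ (q + 1) * c :=
    mul_le_mul_of_nonneg_left hmc (by linarith)
  have h4 : 0 ≤ L * (s - 1) := mul_nonneg hL (by linarith)
  linarith

/-- few bad rows -/
theorem bad_le {m s q L β : ℤ} (hs : 1 ≤ s) (hq : 400 ≤ q) (hm : 0 < m)
    (hL : 400000 * (L + 1) ≤ m) (h1 : β * (m * s) ≤ 4 * (s * (m + (q + 1) * L))) :
    80 * β ≤ q := by
  have h2 : s * (β * m) ≤ s * (4 * (m + (q + 1) * L)) := by linarith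
  have h3 : β * m ≤ 4 * (m + (q + 1) * L) := le_of_mul_le_mul_left h2 (by linarith)
  have h4 : (q + 1) * (400000 * L) ≤ (q + 1) * m :=
    mul_le_mul_of_nonneg_left (by linarith) (by linarith)
  have h5 : m * (100000 * β) ≤ m * (400000 + (q + 1)) := by linarith
  have h6 : 100000 * β ≤ 400000 + (q + 1) := le_of_mul_le_mul_left h5 hm
  linarith

/-- the number of omitted elements -/
theorem c_le {o m q c L D : ℤ} (hq : 400 ≤ q) (hL0 : 0 ≤ L) (hD : 0 ≤ D)
    (hL : 400000 * (L + 1) ≤ m) (hwin : q * c + D + 2 ≤ o + q * L)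
    (ho : o ≤ (q + 2) * (m + L)) : 50 * c ≤ 51 * m := by
  have h1 : q * (c - m) ≤ 2 * m + (2 * q + 2) * L := by linarith
  have h2 : 400 * m ≤ q * m := mul_le_mul_of_nonneg_right hq (by linarith)
  have h3 : 400 * L ≤ q * L := mul_le_mul_of_nonneg_right hq hL0
  have h4 : q * (200 * (c - m)) ≤ q * (m + 600 * L) := by linarith
  have h5 : 200 * (c - m) ≤ m + 600 * L := le_of_mul_le_mul_left h4 (by linarith)
  linarith

/-- not all the other omitted elements are far -/
theorem far_lt {o m q c L D w f : ℤ} (hq : 400 ≤ q) (hL0 : 0 ≤ L) (hw : 3 * q ≤ 10 * (w + 1))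
    (hL : 400000 * (L + 1) ≤ m) (hmc : m + 1 ≤ c) (hwin : q * c + D + 2 ≤ o + q * L)
    (ho : o ≤ (q + 2) * (m + L)) (hf : (w + 1) * f ≤ D + (w + 1) * L) (hcf : c ≤ 1 + f) :
    False := by
  have h1 : (w + 1) * m ≤ (w + 1) * f := mul_le_mul_of_nonneg_left (by linarith) (by linarith)
  have h2 : q * (m + 1) ≤ q * c := mul_le_mul_of_nonneg_left hmc (by linarith)
  have h3 : D ≤ 2 * m + (2 * q + 2) * L := by linarith
  have h4 : (w + 1) * (m - L) ≤ 2 * m + (2 * q + 2) * L := by linarith
  have h5 : 3 * q * (m - L) ≤ 10 * (w + 1) * (m - L) :=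
    mul_le_mul_of_nonneg_right hw (by linarith)
  have h6 : q * (400000 * L) ≤ q * m := mul_le_mul_of_nonneg_left (by linarith) (by linarith)
  have h7 : 400 * m ≤ q * m := mul_le_mul_of_nonneg_right hq (by linarith)
  have h8 : 400 * L ≤ q * L := mul_le_mul_of_nonneg_right hq hL0
  linarith

/-! ### The game -/

variable {o : ℕ} [NeZero o] {r d : ZMod o → ℕ} {m t s n c q L D h θ : ℕ}

/-- the omitted `y`, `y'` go back, one element of each of the complete rows `v ≠ v'` is omitted
instead -/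
theorem pair (g : Game r h θ c) (hd : Adm r c d) {y y' v v' : ZMod o} (hy : 1 ≤ d y)
    (hy' : 1 ≤ d y') (hyy : y = y' → 2 ≤ d y) (hne : v ≠ v') (hv : d v = 0) (hv' : d v' = 0)
    (hrv : 2 ≤ r v) (hrv' : 2 ≤ r v') (hr : h < r v + r v') (hsum : y + y' = v + v') :
    False := by
  set f : ZMod o → ℕ := fun u => (if u = y then 1 else 0) + (if u = y' then 1 else 0) with hf
  set f' : ZMod o → ℕ := fun u => (if u = v then 1 else 0) + (if u = v' then 1 else 0) with hf'
  have hfd : ∀ u, f u ≤ d u := by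
    intro u
    simp only [hf]
    split_ifs with h1 h2 h2
    · rw [h1]
      exact hyy (h1.symm.trans h2)
    · rw [h1]
      omega
    · rw [h2]
      omega
    · omega
  have hkey : ∀ u, d u - f u + f' u + f u = d u + f' u := fun u => by
    have := hfd u
    omega
  have hA : Adm r c (fun u => d u - f u + f' u) := by
    refine ⟨fun u => ?_, ?_, ?_⟩
    · have h1 := hd.le u
      simp only [hf']
      by_cases h2 : u = v
      · rw [h2, hv, Nat.zero_sub, zero_add, if_pos rfl, if_neg hne]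
        omega
      · by_cases h3 : u = v'
        · rw [h3, hv', Nat.zero_sub, zero_add, if_neg hne.symm, if_pos rfl]
          omega
        · rw [if_neg h2, if_neg h3]
          omega
    · have h1 : ∑ u, (d u - f u + f' u) + ∑ u, f u = ∑ u, d u + ∑ u, f' u := by
        rw [← sum_add_distrib, ← sum_add_distrib]
        exact sum_congr rfl fun u _ => hkey u
      have h2 : ∑ u, f u = 2 := by
        simp only [hf, sum_add_distrib, sum_ite_eq', mem_univ, if_true]
      have h3 : ∑ u, f' u = 2 := by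
        simp only [hf', sum_add_distrib, sum_ite_eq', mem_univ, if_true]
      have h4 := hd.card
      omega
    · have h1 : ∑ u, (d u - f u + f' u) • u + ∑ u, f u • u = ∑ u, d u • u + ∑ u, f' u • u := by
        rw [← sum_add_distrib, ← sum_add_distrib]
        refine sum_congr rfl fun u _ => ?_
        rw [← add_smul, ← add_smul, hkey u]
      have h2 : ∑ u, f u • u = y + y' := by
        simp only [hf, add_smul, sum_add_distrib, ite_smul, one_smul, zero_smul, sum_ite_eq',
          mem_univ, if_true]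
      have h3 : ∑ u, f' u • u = v + v' := by
        simp only [hf', add_smul, sum_add_distrib, ite_smul, one_smul, zero_smul, sum_ite_eq',
          mem_univ, if_true]
      rw [h2, h3, hsum] at h1
      rw [add_right_cancel h1, hd.sum]
  have hdv : d v - f v + f' v = 1 := by
    have : f' v = 1 := by simp only [hf', if_true, if_neg hne]
    rw [hv, Nat.zero_sub, this]
  have hdv' : d v' - f v' + f' v' = 1 := by
    have : f' v' = 1 := by simp only [hf', if_true, if_neg hne.symm]
    rw [hv', Nat.zero_sub, this]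
  have h1 := g.rule2 _ hA v v' hne (by show 1 ≤ d v - f v + f' v; omega)
    (by show d v - f v + f' v < r v; omega) (by show 1 ≤ d v' - f v' + f' v'; omega)
    (by show d v' - f v' + f' v' < r v'; omega)
  simp only [hdv, hdv'] at h1
  have h2 := le_max_right 1 (r v - 1)
  have h3 := le_max_right 1 (r v' - 1)
  omega

omit [NeZero o] in
theorem nat_ne {i j : ℕ} (ho : q < o) (hi : i ≤ q) (hj : j ≤ q) (hij : i ≠ j) :
    (i : ZMod o) ≠ (j : ZMod o) := by
  intro h'
  have h1 := congrArg ZMod.val h'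
  rw [ZMod.val_natCast_of_lt (by omega), ZMod.val_natCast_of_lt (by omega)] at h1
  exact hij h1

/-- the bad rows -/
def bad (r : ZMod o → ℕ) (h q : ℕ) : Finset ℕ :=
  (range (q + 1)).filter fun i : ℕ => 4 * r (i : ZMod o) < 3 * h

omit [NeZero o] in
theorem card_bad (hr : ∀ u, r u ≤ h) :
    #(bad r h q) * h + 4 * ∑ i ∈ range (q + 1), r (i : ZMod o) ≤ 4 * ((q + 1) * h) := by
  have h1 : #(bad r h q) * h = ∑ i ∈ range (q + 1), if 4 * r (i : ZMod o) < 3 * h then h else 0 := by
    rw [bad, ← sum_filter, sum_const, smul_eq_mul]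
  have h2 : 4 * ((q + 1) * h) = ∑ _i ∈ range (q + 1), 4 * h := by
    rw [sum_const, card_range, smul_eq_mul]
    ring
  rw [h1, h2, mul_sum, ← sum_add_distrib]
  refine sum_le_sum fun i _ => ?_
  have h3 := hr (i : ZMod o)
  split_ifs with h4
  · omega
  · omega

/-- the rows which are not complete or not good -/
def U (r d : ZMod o → ℕ) (h q : ℕ) : Finset ℕ :=
  (range (q + 1)).filter fun i : ℕ => 4 * r (i : ZMod o) < 3 * h ∨ d (i : ZMod o) ≠ 0

theorem card_U (g : Game r h θ c) (hd : Adm r c d) (ho : q < o) (hθ : 2 * θ ≤ h)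
    (hc : 4 * c < 6 * h) : #(U r d h q) ≤ #(bad r h q) + 2 := by
  classical
  set P₁ : Finset ℕ := (range (q + 1)).filter fun i : ℕ => 3 * h ≤ 4 * r (i : ZMod o) ∧ 1 ≤ d (i : ZMod o) ∧
    d (i : ZMod o) < r (i : ZMod o) with hP₁
  set P₂ : Finset ℕ := (range (q + 1)).filter fun i : ℕ => 3 * h ≤ 4 * r (i : ZMod o) ∧
    d (i : ZMod o) = r (i : ZMod o) with hP₂
  have h1 : #P₁ ≤ 1 := by
    refine card_le_one.2 fun a ha b hb => ?_
    rw [hP₁, mem_filter, mem_range] at ha hb
    obtain ⟨ha0, ha1, ha2, ha3⟩ := ha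
    obtain ⟨hb0, hb1, hb2, hb3⟩ := hb
    by_contra hab
    have h2 := g.rule2 d hd _ _ (nat_ne ho (by omega) (by omega) hab) ha2 ha3 hb2 hb3
    have h3 := g.rule1 d hd (a : ZMod o) (by omega)
    have h4 := g.rule1 d hd (b : ZMod o) (by omega)
    have h5 := le_max_left (d (a : ZMod o)) (r (a : ZMod o) - d (a : ZMod o))
    have h6 := le_max_right (d (a : ZMod o)) (r (a : ZMod o) - d (a : ZMod o))
    have h7 := le_max_left (d (b : ZMod o)) (r (b : ZMod o) - d (b : ZMod o))
    have h8 := le_max_right (d (b : ZMod o)) (r (b : ZMod o) - d (b : ZMod o))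
    omega
  have h2 : #P₂ ≤ 1 := by
    refine card_le_one.2 fun a ha b hb => ?_
    rw [hP₂, mem_filter, mem_range] at ha hb
    obtain ⟨ha0, ha1, ha2⟩ := ha
    obtain ⟨hb0, hb1, hb2⟩ := hb
    by_contra hab
    have hne := nat_ne ho (by omega) (by omega) hab
    have h3 : ∑ u ∈ ({(a : ZMod o), (b : ZMod o)} : Finset (ZMod o)), d u ≤ ∑ u, d u :=
      sum_le_sum_of_subset (subset_univ _)
    rw [sum_pair hne, hd.card] at h3
    omega
  have h3 : U r d h q ⊆ bad r h q ∪ (P₁ ∪ P₂) := by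
    intro i hi
    rw [U, mem_filter] at hi
    rw [mem_union, mem_union, bad, mem_filter, hP₁, mem_filter, hP₂, mem_filter]
    by_cases h4 : 4 * r (i : ZMod o) < 3 * h
    · exact Or.inl ⟨hi.1, h4⟩
    · right
      have h5 := hi.2.resolve_left h4
      rcases (hd.le (i : ZMod o)).lt_or_eq with h6 | h6
      · exact Or.inl ⟨hi.1, by omega, by omega, h6⟩
      · exact Or.inr ⟨hi.1, by omega, h6⟩
  calc #(U r d h q) ≤ #(bad r h q ∪ (P₁ ∪ P₂)) := card_le_card h3
    _ ≤ #(bad r h q) + #(P₁ ∪ P₂) := card_union_le _ _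
    _ ≤ #(bad r h q) + (#P₁ + #P₂) := Nat.add_le_add_left (card_union_le _ _) _
    _ ≤ _ := by omega

omit [NeZero o] in
/-- two complete good rows with a given sum -/
theorem exists_rows (hU : 80 * #(U r d h q) ≤ q + 160) (hq : 400 ≤ q) {σ : ℕ}
    (h1 : 3 * q ≤ 20 * σ) (h2 : 20 * σ ≤ 37 * q) :
    ∃ a : ℕ, 2 * a < σ ∧ σ ≤ a + q ∧ a ∉ U r d h q ∧ σ - a ∉ U r d h q := by
  classical
  by_contra hno
  push Not at hno
  set P := Ico (σ - q) ((σ + 1) / 2) with hP
  have hPc : #P = (σ + 1) / 2 - (σ - q) := Nat.card_Ico _ _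
  have h3 : P ⊆ P.filter (fun a => a ∈ U r d h q) ∪ P.filter (fun a => σ - a ∈ U r d h q) := by
    intro a ha
    have ha' := ha
    rw [hP, mem_Ico] at ha'
    rw [mem_union, mem_filter, mem_filter]
    by_cases h4 : a ∈ U r d h q
    · exact Or.inl ⟨ha, h4⟩
    · exact Or.inr ⟨ha, hno a (by omega) (by omega) h4⟩
  have h4 : #(P.filter (fun a => a ∈ U r d h q)) ≤ #(U r d h q) :=
    card_le_card fun a ha => (mem_filter.1 ha).2
  have h5 : #(P.filter (fun a => σ - a ∈ U r d h q)) ≤ #(U r d h q) := by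
    refine card_le_card_of_injOn (fun a => σ - a) (fun a ha => ?_) ?_
    · exact (mem_filter.1 (mem_coe.1 ha)).2
    · intro a ha b hb hab
      have ha' := (mem_filter.1 (mem_coe.1 ha)).1
      have hb' := (mem_filter.1 (mem_coe.1 hb)).1
      rw [hP, mem_Ico] at ha' hb'
      simp only at hab
      omega
  have h6 := (card_le_card h3).trans (card_union_le _ _)
  omega

/-- the omitted elements near the main rows, if one element of a middle row is omitted -/
theorem no_near (g : Game r h θ c) (hd : Adm r c d) (ho : q < o) (hh : 4 ≤ h)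
    (hU : 80 * #(U r d h q) ≤ q + 160) (hq : 400 ≤ q) {z₁ : ℕ} (hz₁ : 9 * q ≤ 20 * z₁)
    (hz₂ : 20 * z₁ ≤ 11 * q) (hdz : 1 ≤ d (z₁ : ZMod o)) {j : ℤ} (hj₁ : -(3 * q / 10 : ℕ) ≤ j)
    (hj₂ : j ≤ q + (3 * q / 10 : ℕ)) (hdj : 1 ≤ d (j : ZMod o))
    (hne : (z₁ : ZMod o) = (j : ZMod o) → 2 ≤ d (z₁ : ZMod o)) : False := by
  obtain ⟨σ, hσ⟩ : ∃ σ : ℕ, (σ : ℤ) = z₁ + j := ⟨(z₁ + j).toNat, by omega⟩
  obtain ⟨a, ha₁, ha₂, ha₃, ha₄⟩ := exists_rows (σ := σ) hU hq (by omega) (by omega)
  rw [U, mem_filter, mem_range, not_and_or, not_or, not_lt, not_not] at ha₃ ha₄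
  have h1 := ha₃.resolve_left (by omega)
  have h2 := ha₄.resolve_left (by omega)
  refine pair g hd hdz hdj hne (nat_ne ho (i := a) (j := σ - a) (by omega) (by omega) (by omega))
    h1.2 h2.2 (by omega) (by omega) (by omega) ?_
  have h3 : ((σ : ℕ) : ZMod o) = (z₁ : ZMod o) + (j : ZMod o) := by
    have h4 := congrArg (Int.cast : ℤ → ZMod o) hσ
    rw [Int.cast_add, Int.cast_natCast, Int.cast_natCast] at h4
    exact h4
  rw [← h3, ← Nat.cast_add]
  congr 1
  omega

end EL

theorem end_L {o : ℕ} [NeZero o] {r : ZMod o → ℕ} {m t s n c q L D θ : ℕ}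
    (N : Num r m t s n c q L D) (g : Game r (m * s) θ c) (hθ : 1000 * θ ≤ m)
    (hq : 400 ≤ q) : False := by
  classical
  have hL := N.hL
  have hmc := N.mc
  have hs := N.s1
  have hwin := N.win
  have hf0 := N.far_zero
  have hf2 := N.far_two
  have hol := N.o_large
  have hsum := N.main_sum
  have hos : o * s = t * m := by rw [N.os, N.nt]
  have hn := N.nt
  have hh : m ≤ m * s := Nat.le_mul_of_pos_right m hs
  have hrow : ∑ i ∈ range (q + 1), r (i : ZMod o) ≤ (q + 1) * (m * s) := by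
    refine (sum_le_card_nsmul _ _ (m * s) fun i _ => g.row_le _).trans ?_
    rw [card_range, smul_eq_mul]
  -- the order
  have ho : (o : ℤ) ≤ (q + 2) * (m + L) := by
    refine EL.o_le (o := o) (m := m) (t := t) (s := s) (q := q) (c := c) (L := L) (D := D)
      (f₀ := far r q 0) (f₁ := far r q 1) (by exact_mod_cast hs) (by positivity) (by positivity)
      (by positivity) (by exact_mod_cast hos) (by exact_mod_cast hmc) (by exact_mod_cast hwin)
      (by exact_mod_cast hf0) (by exact_mod_cast hf2) ?_ ?_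
    · have h1 : t * m + c ≤ (q + 1) * (m * s) + far r q 0 := by
        rw [← hn]
        omega
      exact_mod_cast h1
    · intro h1
      have h2 : s = 1 := by exact_mod_cast h1
      have h3 := N.far_split
      have h4 := g.row_le (-1)
      have h5 := g.row_le ((q : ZMod o) + 1)
      rw [h2, mul_one] at h4 h5
      have h6 : far r q 0 ≤ far r q 1 + 2 * m := by omega
      exact_mod_cast h6
  have hqz : (400 : ℤ) ≤ q := by exact_mod_cast hq
  have hLz : (400000 : ℤ) * (L + 1) ≤ m := by exact_mod_cast hL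
  have hwinz : (q : ℤ) * c + D + 2 ≤ o + q * L := by exact_mod_cast hwin
  -- the number of omitted elements
  have hc : 50 * c ≤ 51 * m := by
    have h1 := EL.c_le (o := o) (m := m) (q := q) (c := c) (L := L) (D := D) hqz (by positivity)
      (by positivity) hLz hwinz ho
    exact_mod_cast h1
  -- the bad rows
  have hbad : 80 * #(EL.bad r (m * s) q) ≤ q := by
    have h1 := EL.card_bad (q := q) g.row_le
    have h2 := EL.def_le (o := o) (m := m) (t := t) (s := s) (q := q) (c := c) (L := L) (D := D)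
      (f₀ := far r q 0) (by exact_mod_cast hs) (by positivity) (by positivity)
      (by positivity) (by exact_mod_cast hos) (by exact_mod_cast hmc) hwinz (by positivity)
      (by exact_mod_cast hf0)
    have h3 : (#(EL.bad r (m * s) q) : ℤ) * (m * s) + 4 * (t * m + c - far r q 0) ≤
        4 * ((q + 1) * (m * s)) := by
      have h4 : ((∑ i ∈ range (q + 1), r (i : ZMod o) : ℕ) : ℤ) = t * m + c - far r q 0 := by
        rw [hn] at hsum
        have h5 : ((∑ i ∈ range (q + 1), r (i : ZMod o) : ℕ) : ℤ) + (far r q 0 : ℕ) =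
          t * m + c := by exact_mod_cast hsum
        linarith
      rw [← h4]
      exact_mod_cast h1
    have h4 := EL.bad_le (m := m) (s := s) (q := q) (L := L) (β := #(EL.bad r (m * s) q))
      (by exact_mod_cast hs) hqz (by exact_mod_cast (show 0 < m by omega)) hLz (by linarith)
    exact_mod_cast h4
  -- a good row in the middle
  obtain ⟨z₁, hz₁, hz₂, hz₃⟩ : ∃ z₁ : ℕ, 9 * q ≤ 20 * z₁ ∧ 20 * z₁ ≤ 11 * q ∧
      z₁ ∉ EL.bad r (m * s) q := by
    by_contra hno
    push Not at hno
    have h1 : Icc (9 * q / 20 + 1) (11 * q / 20) ⊆ EL.bad r (m * s) q := by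
      intro i hi
      rw [mem_Icc] at hi
      exact hno i (by omega) (by omega)
    have h2 := card_le_card h1
    rw [Nat.card_Icc] at h2
    omega
  rw [EL.bad, mem_filter, mem_range, not_and_or, not_lt] at hz₃
  have hz₄ := hz₃.resolve_left (by omega)
  obtain ⟨d, hd, hdz⟩ := g.del (z₁ : ZMod o) (by omega)
  have hU : 80 * #(EL.U r d (m * s) q) ≤ q + 160 := by
    have h1 := EL.card_U (q := q) g hd (by omega) (by omega) (by omega)
    omega
  have hnear : ∀ j : ℤ, -(3 * q / 10 : ℕ) ≤ j → j ≤ q + (3 * q / 10 : ℕ) →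
      1 ≤ d (j : ZMod o) → ((z₁ : ZMod o) = (j : ZMod o) → 2 ≤ d (z₁ : ZMod o)) → False :=
    fun j h1 h2 h3 h4 => EL.no_near g hd (by omega) (by omega) hU hq hz₁ hz₂ hdz h1 h2 h3 h4
  have hdz1 : d (z₁ : ZMod o) ≤ 1 := by
    by_contra h1
    refine hnear (z₁ : ℤ) (by omega) (by omega) ?_ fun _ => by omega
    rw [Int.cast_natCast]
    omega
  -- the others are far
  have hcf : c ≤ 1 + far d q (3 * q / 10) := by
    have h1 := sum_near_add_far d q (3 * q / 10)
    rw [hd.card] at h1
    have h2 : ∑ u ∈ near o q (3 * q / 10), d u ≤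
        ∑ u ∈ near o q (3 * q / 10), if u = (z₁ : ZMod o) then 1 else 0 := by
      refine sum_le_sum fun u hu => ?_
      split_ifs with h3
      · rw [h3]
        exact hdz1
      · rw [near, mem_image] at hu
        obtain ⟨j, hj, rfl⟩ := hu
        rw [mem_Icc] at hj
        by_contra h4
        exact hnear j hj.1 hj.2 (by omega) fun h5 => absurd h5.symm h3
    have h3 : ∑ u ∈ near o q (3 * q / 10), (if u = (z₁ : ZMod o) then 1 else 0) ≤ 1 := by
      rw [sum_ite_eq']
      split_ifs <;> omega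
    omega
  have hfar := far_mono hd.le q (3 * q / 10)
  have hfm := N.far_mul (3 * q / 10)
  refine EL.far_lt (o := o) (m := m) (q := q) (c := c) (L := L) (D := D)
    (w := (3 * q / 10 : ℕ)) (f := far r q (3 * q / 10)) hqz (by positivity) ?_ hLz
    (by exact_mod_cast hmc) hwinz ho (by exact_mod_cast hfm) (by exact_mod_cast hcf.trans (by omega))
  have h1 : 3 * q ≤ 10 * (3 * q / 10 + 1) := by omega
  exact_mod_cast h1

end Pool.Agent.Lib.MPa7239a.RB
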