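import Pool.Agent.Lib.MP_a7239a_co.RB.Defs
import Pool.Agent.Lib.MP_a7239a_co.RS.Defs
import Pool.Agent.Lib.MP_a7239a_co.GC.Defs

/-!
# Theorem R*, the end game: the quotient map, translation, the case of a large set
-/

set_option autoImplicit false

open Finset

namespace Pool.Agent.Lib.MPa7239a.RB

open Pool.Agent.Lib.MPa7239a.GC
open Pool.Agent.Lib.MPa7239a.RS

theorem exists_phi {G : Type*} [AddCommGroup G] [Finite G] {H : AddSubgroup G} {e : G} {o : ℕ}
    [NeZero o] (horder : addOrderOf (e : G ⧸ H) = o) (hgen : ∀ x : G, ∃ a : ℤ, x - a • e ∈ H) :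
    ∃ φ : G →+ ZMod o, Function.Surjective φ ∧ φ.ker = H ∧ φ e = 1 := by
  classical
  have h0 : (zmultiplesHom (G ⧸ H) (e : G ⧸ H)) (o : ℤ) = 0 := by
    rw [zmultiplesHom_apply, natCast_zsmul, ← horder, addOrderOf_nsmul_eq_zero]
  let f : ZMod o →+ G ⧸ H := ZMod.lift o ⟨zmultiplesHom (G ⧸ H) (e : G ⧸ H), h0⟩
  have hf : ∀ a : ℤ, f (a : ZMod o) = a • (e : G ⧸ H) := by
    intro a
    simp only [f, ZMod.lift_coe, zmultiplesHom_apply]
  have hinj : Function.Injective f := by
    rw [injective_iff_map_eq_zero]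
    intro x hx
    obtain ⟨a, rfl⟩ := ZMod.intCast_surjective x
    rw [hf] at hx
    have := addOrderOf_dvd_iff_zsmul_eq_zero.2 hx
    rw [horder] at this
    exact (ZMod.intCast_zmod_eq_zero_iff_dvd a o).2 this
  have hsurj : Function.Surjective f := by
    intro y
    obtain ⟨x, rfl⟩ := QuotientAddGroup.mk_surjective y
    obtain ⟨a, ha⟩ := hgen x
    refine ⟨(a : ZMod o), ?_⟩
    rw [hf]
    have : (x : G ⧸ H) - a • (e : G ⧸ H) = 0 := by
      rw [← QuotientAddGroup.mk_zsmul, ← QuotientAddGroup.mk_sub]
      exact (QuotientAddGroup.eq_zero_iff _).2 ha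
    exact (sub_eq_zero.1 this).symm
  let E : ZMod o ≃+ G ⧸ H := AddEquiv.ofBijective f ⟨hinj, hsurj⟩
  refine ⟨(E.symm : G ⧸ H →+ ZMod o).comp (QuotientAddGroup.mk' H), ?_, ?_, ?_⟩
  · intro y
    obtain ⟨x, hx⟩ := QuotientAddGroup.mk'_surjective H (E y)
    refine ⟨x, ?_⟩
    rw [AddMonoidHom.comp_apply, hx]
    exact E.symm_apply_apply y
  · ext x
    rw [AddMonoidHom.mem_ker, AddMonoidHom.comp_apply]
    constructor
    · intro h
      have h' : E.symm (QuotientAddGroup.mk' H x) = 0 := h
      rw [AddEquiv.map_eq_zero_iff] at h'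
      exact (QuotientAddGroup.eq_zero_iff _).1 h'
    · intro h
      have h' : QuotientAddGroup.mk' H x = 0 := (QuotientAddGroup.eq_zero_iff _).2 h
      rw [h', map_zero]
  · have h1 : E 1 = (e : G ⧸ H) := by
      have := hf 1
      rw [Int.cast_one, one_zsmul] at this
      exact this
    have : E.symm (e : G ⧸ H) = 1 := by rw [← h1, AddEquiv.symm_apply_apply]
    exact this

theorem Hit.translate {G : Type*} [AddCommGroup G] [DecidableEq G] {A : Finset G} {n : ℕ} {q : G}
    (hq : n • q = 0) (h : Hit (A.image (fun x => x - q)) n 0) : Hit A n 0 := by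
  obtain ⟨T, hT, hc, hs⟩ := h
  refine ⟨T.image (fun x => x + q), ?_, ?_, ?_⟩
  · intro y hy
    obtain ⟨x, hx, rfl⟩ := mem_image.1 hy
    obtain ⟨a, ha, rfl⟩ := mem_image.1 (hT hx)
    simpa using ha
  · rw [card_image_of_injective _ (add_left_injective q), hc]
  · rw [sum_image (fun x _ y _ hxy => add_right_cancel hxy), sum_add_distrib, hs, sum_const, hc, hq,
      add_zero]

theorem Del.translate {G : Type*} [AddCommGroup G] [DecidableEq G] {A : Finset G} {n : ℕ} {q : G}
    (hq : n • q = 0) (h : Del A n) : Del (A.image (fun x => x - q)) n := by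
  intro o ψ ho hψ a ha
  obtain ⟨b, hb, rfl⟩ := mem_image.1 ha
  obtain ⟨T, hT, hbT, hc, hs⟩ := h o ψ ho hψ b hb
  refine ⟨T.image (fun x => x - q), image_subset_image hT, ?_, ?_, ?_⟩
  · intro hmem
    obtain ⟨x, hx, hxb⟩ := mem_image.1 hmem
    exact hbT ((sub_left_injective hxb : x = b) ▸ hx)
  · rw [card_image_of_injective _ sub_left_injective, hc]
  · rw [sum_image (fun x _ y _ hxy => sub_left_injective hxy), sum_sub_distrib, map_sub, hs,
      sum_const, hc, hq, map_zero, sub_zero]

/-- the case of a large set is impossible (numbers; `row`: rows have fewer than `n + loss`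
elements) -/
theorem big_cB {G : Type*} [AddCommGroup G] [Finite G] {Γ H : AddSubgroup G} {e q : G}
    {A S : Finset G} {z : G → ℤ} {m n c o τ loss k t' Z : ℕ} {u v : ℤ}
    (h : Amj Γ Γ H e q A S z m n c 1 o τ loss k t' Z u v) (hn : 4 * m ≤ n)
    (hm : 1000 * loss ≤ m) (hloss : 1 ≤ loss) (hc : c + 3 * loss = n) : False := by
  classical
  -- all of `A` is in `Γ`
  have hqΓ : q ∈ Γ := h.inΓ q (h.sub h.qS)
  have hS : n + c ≤ #S + loss := by
    have := h.inK A (subset_refl _) (fun x hx => Γ.sub_mem (h.inΓ x hx) hqΓ)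
    rw [h.card] at this
    exact this
  -- rows
  have hrow : ∀ i : ℤ, #(S.filter (fun x => z x = i)) < n + loss := by
    intro i
    refine h.row (q + i • e) _ ((filter_subset _ _).trans h.sub) ?_
    intro x hx
    have h1 := h.lift x (mem_filter.1 hx).1
    rw [(mem_filter.1 hx).2] at h1
    rwa [sub_sub] at h1
  have hrow' : ∀ i : ℤ, #(S.filter (fun x => z x = i)) ≤ Nat.card H := by
    intro i
    have : #((S.filter (fun x => z x = i)).image (fun x => x - (q + i • e))) ≤ Nat.card H := by
      rw [← Set.ncard_coe_finset]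
      refine (Set.ncard_le_ncard (t := (H : Set G)) ?_ (Set.toFinite _)).trans_eq rfl
      intro y hy
      rw [coe_image] at hy
      obtain ⟨x, hx, rfl⟩ := hy
      have hx' := mem_filter.1 (mem_coe.1 hx)
      have h1 := h.lift x hx'.1
      rw [hx'.2] at h1
      rwa [sub_sub] at h1
    rwa [card_image_of_injective _ sub_left_injective] at this
  -- the elements outside the window
  have ho1 : (#(S.filter (fun x => v < z x)) : ℤ) ≤ ∑ x ∈ S.filter (fun x => v < z x), (z x - v) := by
    rw [card_eq_sum_ones, Nat.cast_sum]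
    refine sum_le_sum (fun x hx => ?_)
    have := (mem_filter.1 hx).2
    push_cast
    linarith
  have ho2 : (#(S.filter (fun x => z x < u)) : ℤ) ≤ ∑ x ∈ S.filter (fun x => z x < u), (u - z x) := by
    rw [card_eq_sum_ones, Nat.cast_sum]
    refine sum_le_sum (fun x hx => ?_)
    have := (mem_filter.1 hx).2
    push_cast
    linarith
  have hwin := h.win
  have huv := h.uv
  have hkn := h.kn
  have hSc := h.cardS
  have hK := h.cardK
  have hH := h.cardH
  have hnpos : 0 < n := by omega
  have hon : o ≤ n := Nat.le_of_dvd hnpos h.on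
  have ht' : n ≤ t' + 4 * loss := by omega
  -- the window has length at most `1`
  have hw : v - u ≤ 1 := by
    by_contra hcon
    have h2 : 2 ≤ v - u := by omega
    have h3 : (t' : ℤ) * 2 ≤ t' * (v - u) := mul_le_mul_of_nonneg_left h2 (by positivity)
    have h4 : (0 : ℤ) ≤ #(S.filter (fun x => v < z x)) := by positivity
    have h5 : (0 : ℤ) ≤ #(S.filter (fun x => z x < u)) := by positivity
    zify at hon ht' hn hm hloss
    linarith
  -- `o = n` if `n < 2 o`
  have hfull : n < 2 * o → Nat.card H = m := by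
    intro h2
    obtain ⟨b, hb⟩ := h.on
    have hb1 : b = 1 := by
      have hb0 : 0 < b := Nat.pos_of_ne_zero (fun h0 => by
        rw [h0, mul_zero] at hb
        omega)
      have : b < 2 := by
        by_contra hcon
        have : o * 2 ≤ o * b := Nat.mul_le_mul_left o (not_lt.1 hcon)
        omega
      omega
    rw [hb1, mul_one] at hb
    rw [mul_one] at hK
    rw [← hb] at hH
    exact Nat.eq_of_mul_eq_mul_right hnpos (hH.trans hK)
  have hsplit : #S = #(S.filter (fun x => v < z x)) + #(S.filter (fun x => z x < u)) +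
      #(S.filter (fun x => u ≤ z x ∧ z x ≤ v)) := by
    rw [← card_filter_add_card_filter_not (s := S) (fun x => v < z x),
      ← card_filter_add_card_filter_not (s := S.filter (fun x => ¬ v < z x)) (fun x => z x < u),
      filter_filter, filter_filter, ← add_assoc]
    congr 2
    · congr 1
      ext x
      simp only [mem_filter]
      constructor
      · rintro ⟨h1, h2, h3⟩
        exact ⟨h1, h3⟩
      · rintro ⟨h1, h2⟩
        exact ⟨h1, by omega, h2⟩
    · ext x
      simp only [mem_filter]
      constructor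
      · rintro ⟨h1, h2, h3⟩
        exact ⟨h1, by omega, by omega⟩
      · rintro ⟨h1, h2, h3⟩
        exact ⟨h1, by omega, by omega⟩
  rcases (by omega : v = u ∨ v = u + 1) with hvu | hvu
  · subst hvu
    have hmid : S.filter (fun x => v ≤ z x ∧ z x ≤ v) = S.filter (fun x => z x = v) := by
      ext x
      simp only [mem_filter]
      constructor
      · rintro ⟨h1, h2, h3⟩
        exact ⟨h1, by omega⟩
      · rintro ⟨h1, h2⟩
        exact ⟨h1, by omega, by omega⟩
    rw [hmid] at hsplit
    have h1 := hrow v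
    have h2 := hrow' v
    rw [sub_self, mul_zero, zero_add] at hwin
    have h3 : n < 2 * o := by
      zify at hsplit h1 hS hc hn hm hloss ⊢
      linarith
    rw [hfull h3] at h2
    zify at hsplit h1 h2 hS hc hn hm hloss hon
    linarith
  · subst hvu
    have hmid : #(S.filter (fun x => u ≤ z x ∧ z x ≤ u + 1)) ≤
        #(S.filter (fun x => z x = u)) + #(S.filter (fun x => z x = u + 1)) := by
      refine le_trans (card_le_card ?_) (card_union_le _ _)
      intro x hx
      simp only [mem_union, mem_filter] at hx ⊢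
      obtain ⟨h1, h2, h3⟩ := hx
      rcases (by omega : z x = u ∨ z x = u + 1) with h4 | h4
      · exact Or.inl ⟨h1, h4⟩
      · exact Or.inr ⟨h1, h4⟩
    have h1 := hrow' u
    have h2 := hrow' (u + 1)
    rw [add_sub_cancel_left, mul_one] at hwin
    have h3 : n < 2 * o := by
      have h4 : (0 : ℤ) ≤ #(S.filter (fun x => u + 1 < z x)) := by positivity
      have h5 : (0 : ℤ) ≤ #(S.filter (fun x => z x < u)) := by positivity
      zify at ht' hn hm hloss ⊢
      linarith
    rw [hfull h3] at h1 h2
    zify at hsplit hmid h1 h2 hS hc hn hm hloss hon ht'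
    linarith

end Pool.Agent.Lib.MPa7239a.RB
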