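import Pool.Agent.Lib.MP_a7239a_co.RB.Defs
import Pool.Agent.Lib.MP_a7239a_co.RK.TWO

/-!
# Theorem R*, the end game: module RULES (the game is played by a set without a solution)
-/

open Finset

namespace Pool.Agent.Lib.MPa7239a.RB

open Pool.Agent.Lib.MPa7239a.GC Pool.Agent.Lib.MPa7239a.RK

/-! ### The game of a set -/

section
variable {G : Type*} [AddCommGroup G] [DecidableEq G] {o : ℕ}

omit [DecidableEq G] in
theorem sum_cnt [NeZero o] (A : Finset G) (φ : G →+ ZMod o) : ∑ u, cnt φ A u = #A :=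
  (card_eq_sum_card_fiberwise (f := φ) (t := univ) fun _ _ => mem_coe.2 (mem_univ _)).symm

omit [DecidableEq G] in
theorem sum_cnt_smul [NeZero o] (A : Finset G) (φ : G →+ ZMod o) :
    ∑ u, cnt φ A u • u = φ (∑ x ∈ A, x) := by
  rw [map_sum, ← sum_fiberwise (s := A) (g := φ) (f := fun x => φ x)]
  refine sum_congr rfl fun u _ => ?_
  rw [sum_congr rfl (g := fun _ => u) fun x hx => (mem_filter.1 hx).2, sum_const, cnt]

/-- a set with given numbers -/
theorem exists_real [NeZero o] (A : Finset G) (φ : G →+ ZMod o) {d : ZMod o → ℕ}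
    (hd : ∀ u, d u ≤ cnt φ A u) : ∃ Y ⊆ A, ∀ u, cnt φ Y u = d u := by
  choose Y hY hYc using fun u => exists_subset_card_eq (hd u)
  refine ⟨univ.biUnion Y, biUnion_subset.2 fun u _ => (hY u).trans (filter_subset _ _), ?_⟩
  intro u
  rw [← hYc u, cnt]
  congr 1
  ext x
  rw [mem_filter, mem_biUnion]
  constructor
  · rintro ⟨⟨v, _, hv⟩, hx⟩
    have := (mem_filter.1 (hY v hv)).2
    rw [← hx, this]
    exact hv
  · intro hx
    exact ⟨⟨u, mem_univ _, hx⟩, (mem_filter.1 (hY u hx)).2⟩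

theorem cnt_sdiff {A Y : Finset G} (φ : G →+ ZMod o) (hY : Y ⊆ A) (u : ZMod o) :
    cnt φ (A \ Y) u = cnt φ A u - cnt φ Y u := by
  unfold cnt
  rw [← card_sdiff_of_subset (filter_subset_filter _ hY)]
  congr 1
  ext x
  simp only [mem_filter, mem_sdiff]
  tauto

/-- replace the part of `T` in `B` -/
theorem hit_replace {A T B : Finset G} {n : ℕ} (hT : T ⊆ A) (hn : #T = n) (hB : B ⊆ A)
    (h : Hit B #(T ∩ B) (-∑ x ∈ T \ B, x)) : Hit A n 0 := by
  obtain ⟨X, hX, hXc, hXs⟩ := h
  have hdis : Disjoint (T \ B) X := disjoint_of_subset_right hX sdiff_disjoint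
  refine ⟨(T \ B) ∪ X, union_subset (sdiff_subset.trans hT) (hX.trans hB), ?_, ?_⟩
  · rw [card_union_of_disjoint hdis, hXc, ← hn, card_sdiff_add_card_inter]
  · rw [sum_union hdis, hXs, add_neg_cancel]

/-- the game of a set without solution all of whose deletions are not cyclically free -/
theorem game_of {G : Type*} [AddCommGroup G] [Finite G] [DecidableEq G] {o : ℕ} [NeZero o]
    (φ : G →+ ZMod o) (hφ : Function.Surjective φ) (ho : 1 < o) {A : Finset G} {n c h θ : ℕ}
    (hA : #A = n + c) (hh : Nat.card φ.ker = h) (hFF : FatFull φ.ker θ) (hdel : Del A n)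
    (hno : ¬ Hit A n 0) : Game (cnt φ A) h θ c := by
  subst hh
  have hker : ∀ x y : G, φ x = φ y → x - y ∈ φ.ker := fun x y h => by
    rw [AddMonoidHom.mem_ker, map_sub, h, sub_self]
  -- every admissible vector comes from a set `T`
  have real : ∀ d, Adm (cnt φ A) c d → ∃ T ⊆ A, #T = n ∧ φ (∑ x ∈ T, x) = 0 ∧
      ∀ u, cnt φ T u = cnt φ A u - d u := by
    intro d hd
    obtain ⟨Y, hY, hYd⟩ := exists_real A φ hd.le
    have hYc : #Y = c := by
      rw [← hd.card, ← sum_cnt Y φ]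
      exact sum_congr rfl fun u _ => hYd u
    refine ⟨A \ Y, sdiff_subset, ?_, ?_, fun u => by rw [cnt_sdiff φ hY, hYd]⟩
    · rw [card_sdiff_of_subset hY, hA, hYc]
      omega
    · have h1 := sum_sdiff (f := fun x : G => x) hY
      have h2 : φ (∑ x ∈ Y, x) = φ (∑ x ∈ A, x) := by
        rw [← sum_cnt_smul, ← sum_cnt_smul, ← hd.sum]
        exact sum_congr rfl fun u _ => by rw [hYd u]
      rw [← h1, map_add] at h2
      exact right_eq_add.1 h2
  -- a non free set gives an admissible vector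
  have adm : ∀ T ⊆ A, #T = n → φ (∑ x ∈ T, x) = 0 →
      Adm (cnt φ A) c (fun u => cnt φ (A \ T) u) := by
    intro T hT hTn hTs
    refine ⟨fun u => card_le_card (filter_subset_filter _ sdiff_subset), ?_, ?_⟩
    · rw [sum_cnt, card_sdiff_of_subset hT, hA, hTn]
      omega
    · rw [sum_cnt_smul, sum_cnt_smul, ← sum_sdiff (f := fun x : G => x) hT, map_add, hTs,
        add_zero]
  have del : ∀ u, 1 ≤ cnt φ A u → ∃ d, Adm (cnt φ A) c d ∧ 1 ≤ d u := by
    intro u hu
    obtain ⟨a, ha⟩ := card_pos.1 (show 0 < #(A.filter fun x => φ x = u) from hu)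
    rw [mem_filter] at ha
    obtain ⟨T, hT, haT, hTn, hTs⟩ := hdel o φ ho hφ a ha.1
    exact ⟨_, adm T hT hTn hTs, card_pos.2 ⟨a, mem_filter.2 ⟨mem_sdiff.2 ⟨ha.1, haT⟩, ha.2⟩⟩⟩
  refine ⟨?_, ?_, ?_, del⟩
  · intro u
    obtain ⟨g, hg⟩ := hφ u
    exact card_le_of_coset φ.ker g fun x hx => hker _ _ ((mem_filter.1 hx).2.trans hg.symm)
  · -- rule 1
    intro d hd u hu h2
    by_contra hcon
    have hcon' : d u + 2 ≤ cnt φ A u := by omega
    obtain ⟨T, hT, hTn, hTs, hTd⟩ := real d hd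
    obtain ⟨g, hg⟩ := hφ u
    refine hno (hit_replace hT hTn (filter_subset (fun x => φ x = u) A) ?_)
    have h3 : T ∩ A.filter (fun x => φ x = u) = T.filter (fun x => φ x = u) := by
      ext x
      rw [mem_inter, mem_filter, mem_filter]
      exact ⟨fun h => ⟨h.1, h.2.2⟩, fun h => ⟨h.1, hT h.1, h.2⟩⟩
    have h4 : #(T ∩ A.filter (fun x => φ x = u)) = cnt φ A u - d u := by
      rw [h3]
      exact hTd u
    refine hFF _ g (fun x hx => hker _ _ ((mem_filter.1 hx).2.trans hg.symm)) hu _ ?_ ?_ _ ?_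
    · rw [h4]
      omega
    · rw [h4]
      show cnt φ A u - d u + 2 ≤ cnt φ A u
      omega
    · rw [AddMonoidHom.mem_ker, map_sub, map_neg, map_nsmul, hg]
      have h5 := sum_inter_add_sum_sdiff T (A.filter fun x => φ x = u) (fun x : G => x)
      have h6 : φ (∑ x ∈ T ∩ A.filter (fun x => φ x = u), x) =
          #(T ∩ A.filter (fun x => φ x = u)) • u := by
        rw [map_sum, sum_congr rfl (g := fun _ => u) fun x hx => by
          rw [mem_inter, mem_filter] at hx
          exact hx.2.2, sum_const]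
      rw [← h5, map_add, h6] at hTs
      rw [sub_eq_add_neg, ← neg_add, add_comm, hTs, neg_zero]
  · -- rule 2
    intro d hd u v huv h1 h2 h3 h4
    by_contra hcon
    obtain ⟨T, hT, hTn, hTs, hTd⟩ := real d hd
    obtain ⟨g, hg⟩ := hφ u
    obtain ⟨g', hg'⟩ := hφ v
    set R₁ := A.filter (fun x => φ x = u) with hR₁
    set R₂ := A.filter (fun x => φ x = v) with hR₂
    have hc₁ : #R₁ = cnt φ A u := rfl
    have hc₂ : #R₂ = cnt φ A v := rfl
    obtain ⟨Q₁, hQ₁, hQ₁c⟩ := exists_sums R₁ (a := cnt φ A u - d u) (by omega) (by omega)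
    obtain ⟨Q₂, hQ₂, hQ₂c⟩ := exists_sums R₂ (a := cnt φ A v - d v) (by omega) (by omega)
    have hdis : Disjoint R₁ R₂ := disjoint_left.2 fun x hx hx' =>
      huv ((mem_filter.1 hx).2.symm.trans (mem_filter.1 hx').2)
    have hcos : ∀ (w : ZMod o) (g : G), φ g = w → ∀ (k : ℕ) (y : G),
        Hit (A.filter fun x => φ x = w) k y → y - k • g ∈ φ.ker := by
      rintro w g hg k y ⟨X, hX, hXc, hXs⟩
      rw [← hXs, ← hXc]
      exact sum_mem_coset fun x hx => hker _ _ ((mem_filter.1 (hX hx)).2.trans hg.symm)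
    have h5 : T ∩ (R₁ ∪ R₂) = T.filter (fun x => φ x = u) ∪ T.filter (fun x => φ x = v) := by
      ext x
      rw [mem_inter, mem_union, mem_union, mem_filter, mem_filter, mem_filter, mem_filter]
      constructor
      · rintro ⟨h, h' | h'⟩
        · exact Or.inl ⟨h, h'.2⟩
        · exact Or.inr ⟨h, h'.2⟩
      · rintro (h | h)
        · exact ⟨h.1, Or.inl ⟨hT h.1, h.2⟩⟩
        · exact ⟨h.1, Or.inr ⟨hT h.1, h.2⟩⟩
    have hdis' : Disjoint (T.filter fun x => φ x = u) (T.filter fun x => φ x = v) :=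
      disjoint_left.2 fun x hx hx' => huv ((mem_filter.1 hx).2.symm.trans (mem_filter.1 hx').2)
    have h6 : #(T ∩ (R₁ ∪ R₂)) = cnt φ A u - d u + (cnt φ A v - d v) := by
      rw [h5, card_union_of_disjoint hdis', ← hTd u, ← hTd v]
      rfl
    refine hno (hit_replace hT hTn (union_subset (filter_subset _ A) (filter_subset _ A) :
      R₁ ∪ R₂ ⊆ A) ?_)
    obtain ⟨a, ha, b, hb, hab⟩ := exists_add (H := φ.ker) (S := Q₁) (T := Q₂)
      (x := (cnt φ A u - d u) • g) (y := (cnt φ A v - d v) • g')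
      (w := -∑ x ∈ T \ (R₁ ∪ R₂), x) (fun y hy => hcos u g hg _ y (hQ₁ y hy))
      (fun y hy => hcos v g' hg' _ y (hQ₂ y hy)) (by
        rw [AddMonoidHom.mem_ker, map_sub, map_sub, map_neg, map_nsmul, map_nsmul, hg, hg']
        have h7 := sum_inter_add_sum_sdiff T (R₁ ∪ R₂) (fun x : G => x)
        have h8 : φ (∑ x ∈ T ∩ (R₁ ∪ R₂), x) =
            (cnt φ A u - d u) • u + (cnt φ A v - d v) • v := by
          rw [h5, sum_union hdis', map_add, map_sum, map_sum,
            sum_congr rfl (g := fun _ => u) fun x hx => (mem_filter.1 hx).2,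
            sum_congr rfl (g := fun _ => v) fun x hx => (mem_filter.1 hx).2, sum_const, sum_const,
            ← hTd u, ← hTd v]
          rfl
        rw [← h7, map_add, h8] at hTs
        rw [sub_sub, ← neg_add', add_comm, hTs, neg_zero]) (by
        have : max (d u) (cnt φ A u - d u) =
          max (cnt φ A u - d u) (#R₁ - (cnt φ A u - d u)) := by
          rw [hc₁, Nat.sub_sub_self h2.le, max_comm]
        have : max (d v) (cnt φ A v - d v) =
          max (cnt φ A v - d v) (#R₂ - (cnt φ A v - d v)) := by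
          rw [hc₂, Nat.sub_sub_self h4.le, max_comm]
        omega)
    obtain ⟨X, hX, hXc, hXs⟩ := hQ₁ a ha
    obtain ⟨X', hX', hXc', hXs'⟩ := hQ₂ b hb
    have hdd : Disjoint X X' := disjoint_of_subset_left hX (disjoint_of_subset_right hX' hdis)
    refine ⟨X ∪ X', union_subset_union hX hX', ?_, ?_⟩
    · rw [card_union_of_disjoint hdd, hXc, hXc', h6]
    · rw [sum_union hdd, hXs, hXs', hab]

end

end Pool.Agent.Lib.MPa7239a.RB
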