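import Pool.Agent.Lib.MP_a7239a_co.RB.NUM
import Pool.Agent.Lib.MP_a7239a_co.RB.GAME

/-!
# Theorem R*, the end game: `s = 1`
-/

set_option autoImplicit false

open Finset

namespace Pool.Agent.Lib.MPa7239a.RB

variable {o : ℕ} [NeZero o] {r d : ZMod o → ℕ} {m t s n c q L D h θ : ℕ}

namespace S1M

theorem add_le (hd : Adm r c d) {u v : ZMod o} (huv : u ≠ v) : d u + d v ≤ c := by
  rw [← hd.card, ← sum_pair huv]
  exact sum_le_sum_of_subset (subset_univ _)

/-- `t + 1` rows nearly full and few other elements -/
theorem full_case (N : Num r m t 1 n c q L D) (g : Game r (m * 1) θ c) (hθ : 1000 * θ ≤ m)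
    (ht : t ≤ q + 2) (hc : c ≤ m + L) (a : ZMod o)
    (hrow : ∀ i : ℕ, i ≤ t → 19 * m ≤ 20 * r (a + (i : ZMod o)))
    (hsum : 10 * (n + c) ≤ 10 * ∑ i ∈ range (t + 1), r (a + (i : ZMod o)) + m) : False := by
  have hL := N.hL
  have ht4 := N.t4
  have hmc := N.mc
  have hne : ∀ i j : ℕ, i ≤ t → j ≤ t → i ≠ j → a + (i : ZMod o) ≠ a + (j : ZMod o) := by
    intro i j hi hj hij he
    have h1 := add_left_cancel he
    refine N.cast_ne (i := (i : ℤ)) (j := (j : ℤ)) (by exact_mod_cast hij) ?_
      (by exact_mod_cast h1)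
    rw [abs_lt]
    constructor <;> omega
  obtain ⟨d, hd, hd2⟩ := g.del (a + ((2 : ℕ) : ZMod o)) (by
    have := hrow 2 (by omega)
    omega)
  -- the rules for the rows
  have hle : ∀ i : ℕ, d (a + (i : ZMod o)) ≤ r (a + (i : ZMod o)) := fun i => hd.le _
  have hfat : ∀ i : ℕ, i ≤ t → m * 1 + θ ≤ 2 * r (a + (i : ZMod o)) := by
    intro i hi
    have := hrow i hi
    omega
  have hrule : ∀ i : ℕ, i ≤ t → 2 ≤ d (a + (i : ZMod o)) →
      r (a + (i : ZMod o)) < d (a + (i : ZMod o)) + 2 := fun i hi h2 =>
    g.rule1 d hd _ (hfat i hi) h2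
  have htwo : ∀ i j : ℕ, i ≤ t → j ≤ t → i ≠ j →
      (d (a + (i : ZMod o)) = 1 ∨ d (a + (i : ZMod o)) + 1 = r (a + (i : ZMod o))) →
      (d (a + (j : ZMod o)) = 1 ∨ d (a + (j : ZMod o)) + 1 = r (a + (j : ZMod o))) → False := by
    intro i j hi hj hij h1 h2
    have h3 := hrow i hi
    have h4 := hrow j hj
    exact g.two' hd (hne i j hi hj hij) h1 h2 (by omega) (by omega) (by omega)
  have hpair : ∀ i j : ℕ, i ≤ t → j ≤ t → i ≠ j →
      d (a + (i : ZMod o)) + d (a + (j : ZMod o)) ≤ c := fun i j hi hj hij =>
    add_le hd (hne i j hi hj hij)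
  -- an inner row is not emptied
  have hdec : ∀ w : ℕ, 1 ≤ w → w + 1 ≤ t →
      r (a + (w : ZMod o)) ≤ d (a + (w : ZMod o)) + 1 → False := by
    intro w hw1 hwt hw
    obtain ⟨w', rfl⟩ : ∃ w', w = w' + 1 := ⟨w - 1, by omega⟩
    have h1 := hrow w' (by omega)
    have h2 := hrow (w' + 1) (by omega)
    have h3 := hrow (w' + 2) (by omega)
    have h4 := hpair w' (w' + 1) (by omega) (by omega) (by omega)
    have h5 := hpair (w' + 2) (w' + 1) (by omega) (by omega) (by omega)
    refine g.pair_dec hd (y := a + ((w' + 1 : ℕ) : ZMod o)) (v := a + (w' : ZMod o))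
      (v' := a + ((w' + 2 : ℕ) : ZMod o)) hw (by omega) (hfat _ (by omega))
      (hne _ _ (by omega) (by omega) (by omega)) (hne _ _ (by omega) (by omega) (by omega))
      (by omega) (by omega) (fun h => absurd h (hne _ _ (by omega) (by omega) (by omega))) ?_
    push_cast
    ring
  -- the omitted elements in the rows
  have hsumd : 10 * c ≤ 10 * ∑ i ∈ range (t + 1), d (a + (i : ZMod o)) + m := by
    have hinj : Set.InjOn (fun i : ℕ => a + (i : ZMod o)) (range (t + 1) : Finset ℕ) := by
      intro i hi j hj hij
      by_contra hne'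
      rw [coe_range, Set.mem_Iio] at hi hj
      exact hne i j (by omega) (by omega) hne' hij
    have h1 : ∀ f : ZMod o → ℕ, ∑ u ∈ (range (t + 1)).image (fun i : ℕ => a + (i : ZMod o)), f u =
        ∑ i ∈ range (t + 1), f (a + (i : ZMod o)) := fun f => sum_image hinj
    have h2 := sum_sdiff (f := d) (subset_univ ((range (t + 1)).image
      (fun i : ℕ => a + (i : ZMod o))))
    have h3 := sum_sdiff (f := r) (subset_univ ((range (t + 1)).image
      (fun i : ℕ => a + (i : ZMod o))))
    have h4 : ∑ u ∈ univ \ (range (t + 1)).image (fun i : ℕ => a + (i : ZMod o)), d u ≤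
        ∑ u ∈ univ \ (range (t + 1)).image (fun i : ℕ => a + (i : ZMod o)), r u :=
      sum_le_sum fun u _ => hd.le u
    rw [h1, hd.card] at h2
    rw [h1, N.total] at h3
    omega
  -- row 2
  have hr2 := hrow 2 (by omega)
  rcases Nat.lt_or_ge 1 (d (a + ((2 : ℕ) : ZMod o))) with h2 | h2
  · exact hdec 2 (by omega) (by omega) (by
      have := hrule 2 (by omega) h2
      omega)
  have h21 : d (a + ((2 : ℕ) : ZMod o)) = 1 := by omega
  -- the other rows are empty or full
  have hother : ∀ j : ℕ, j ≤ t → j ≠ 2 → d (a + (j : ZMod o)) = 0 ∨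
      d (a + (j : ZMod o)) = r (a + (j : ZMod o)) := by
    intro j hj hj2
    by_contra hcon
    push Not at hcon
    have h3 := hle j
    have h4 := hrule j hj
    refine htwo j 2 hj (by omega) hj2 ?_ (Or.inl h21)
    omega
  obtain ⟨w, hwt, hw2, hw⟩ : ∃ w : ℕ, w ≤ t ∧ w ≠ 2 ∧
      d (a + (w : ZMod o)) = r (a + (w : ZMod o)) := by
    by_contra hcon
    push Not at hcon
    have h3 : ∑ i ∈ range (t + 1), d (a + (i : ZMod o)) = 1 := by
      rw [sum_eq_single 2, h21]
      · intro j hj hj2
        rw [mem_range] at hj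
        exact (hother j (by omega) hj2).resolve_right (hcon j (by omega) hj2)
      · intro h
        exact absurd (mem_range.2 (by omega)) h
    omega
  have hrw := hrow w hwt
  have hzero : ∀ j : ℕ, j ≤ t → j ≠ 2 → j ≠ w → d (a + (j : ZMod o)) = 0 := by
    intro j hj hj2 hjw
    refine (hother j hj hj2).resolve_right fun h => ?_
    have h3 := hpair j w hj hwt hjw
    have h4 := hrow j hj
    omega
  rcases Nat.eq_zero_or_pos w with hw0 | hw0
  · subst hw0
    have h3 := hrow 1 (by omega)
    refine g.pair_eq hd (y := a + ((2 : ℕ) : ZMod o)) (y' := a + ((0 : ℕ) : ZMod o))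
      (v := a + ((1 : ℕ) : ZMod o)) (by omega) (by omega)
      (fun h => absurd h (hne _ _ (by omega) (by omega) (by omega)))
      (hzero 1 (by omega) (by omega) (by omega)) (by omega) (hfat 1 (by omega)) ?_
    push_cast
    ring
  · by_cases hwt' : w + 1 ≤ t
    · exact hdec w (by omega) hwt' (by omega)
    · have hwt2 : w = t := by omega
      subst hwt2
      by_cases ht4' : w = 4
      · subst ht4'
        have h3 := hrow 3 (by omega)
        refine g.pair_eq hd (y := a + ((2 : ℕ) : ZMod o)) (y' := a + ((4 : ℕ) : ZMod o))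
          (v := a + ((3 : ℕ) : ZMod o)) (by omega) (by omega)
          (fun h => absurd h (hne _ _ (by omega) (by omega) (by omega)))
          (hzero 3 (by omega) (by omega) (by omega)) (by omega) (hfat 3 (by omega)) ?_
        push_cast
        ring
      · obtain ⟨w', rfl⟩ : ∃ w', w = w' + 1 := ⟨w - 1, by omega⟩
        have h3 := hrow 3 (by omega)
        have h4 := hrow w' (by omega)
        refine g.pair_ne hd (y := a + ((2 : ℕ) : ZMod o)) (y' := a + ((w' + 1 : ℕ) : ZMod o))
          (v := a + ((3 : ℕ) : ZMod o)) (v' := a + (w' : ZMod o)) (by omega) (by omega)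
          (fun h => absurd h (hne _ _ (by omega) (by omega) (by omega)))
          (hne _ _ (by omega) (by omega) (by omega))
          (hzero 3 (by omega) (by omega) (by omega)) (hzero w' (by omega) (by omega) (by omega))
          (by omega) (by omega) (by omega) ?_
        push_cast
        ring

/-- `t` rows nearly full and two rows next to them that are not small -/
theorem split_case (N : Num r m t 1 n c q L D) (g : Game r (m * 1) θ c) (hθ : 1000 * θ ≤ m)
    (hq : q < 400) (ht : t = q + 1) (hc : c ≤ m + L) (hm1 : m ≤ 50 * r (-1))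
    (hm2 : m ≤ 50 * r ((q : ZMod o) + 1))
    (hrow : ∀ i : ℕ, i ≤ q → 998 * m ≤ 1000 * r (i : ZMod o)) : False := by
  have hL := N.hL
  have ht4 := N.t4
  have hmc := N.mc
  have hne : ∀ i j : ℤ, -1 ≤ i → i ≤ q + 1 → -1 ≤ j → j ≤ q + 1 → i ≠ j →
      (i : ZMod o) ≠ (j : ZMod o) := by
    intro i j hi hi' hj hj' hij
    refine N.cast_ne hij ?_
    rw [abs_lt]
    constructor <;> omega
  have hfat : ∀ i : ℕ, i ≤ q → m * 1 + θ ≤ 2 * r (i : ZMod o) := by
    intro i hi
    have := hrow i hi
    omega
  -- no row is emptied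
  have hone : ∀ d : ZMod o → ℕ, Adm r c d → ∀ i : ℕ, i ≤ q → d (i : ZMod o) ≤ 1 := by
    intro d hd i hi
    by_contra hcon
    push Not at hcon
    have h1 := g.rule1 d hd _ (hfat i hi) hcon
    have h2 := hrow i hi
    have hv : m ≤ 50 * r ((i : ZMod o) - 1) := by
      rcases Nat.eq_zero_or_pos i with rfl | h0
      · rw [Nat.cast_zero, zero_sub]
        exact hm1
      · obtain ⟨i', rfl⟩ : ∃ i', i = i' + 1 := ⟨i - 1, by omega⟩
        have := hrow i' (by omega)
        rw [Nat.cast_succ, add_sub_cancel_right]
        omega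
    have hv' : m ≤ 50 * r ((i : ZMod o) + 1) := by
      rcases Nat.lt_or_ge i q with h0 | h0
      · have := hrow (i + 1) (by omega)
        rw [Nat.cast_succ] at this
        omega
      · have : i = q := by omega
        rw [this]
        exact hm2
    have h1ne : (i : ZMod o) - 1 ≠ (i : ZMod o) := by
      have := hne ((i : ℤ) - 1) i (by omega) (by omega) (by omega) (by omega) (by omega)
      push_cast at this
      exact this
    have h2ne : (i : ZMod o) + 1 ≠ (i : ZMod o) := by
      have := hne ((i : ℤ) + 1) i (by omega) (by omega) (by omega) (by omega) (by omega)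
      push_cast at this
      exact this
    have h3ne : (i : ZMod o) - 1 ≠ (i : ZMod o) + 1 := by
      have := hne ((i : ℤ) - 1) ((i : ℤ) + 1) (by omega) (by omega) (by omega) (by omega)
        (by omega)
      push_cast at this
      exact this
    have h3 := add_le hd h1ne
    have h4 := add_le hd h2ne
    refine g.pair_dec hd (y := (i : ZMod o)) (v := (i : ZMod o) - 1) (v' := (i : ZMod o) + 1)
      (by omega) (by omega) (hfat i hi) h1ne h2ne (by omega) (by omega)
      (fun h => absurd h h3ne) ?_
    ring
  have hnat : ∀ i j : ℕ, i ≤ q → j ≤ q → i ≠ j → (i : ZMod o) ≠ (j : ZMod o) := by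
    intro i j hi hj hij
    have := hne (i : ℤ) (j : ℤ) (by omega) (by omega) (by omega) (by omega)
      (by exact_mod_cast hij)
    simpa using this
  have hsingle : ∀ d : ZMod o → ℕ, Adm r c d → ∀ i : ℕ, i ≤ q → 1 ≤ d (i : ZMod o) →
      (∀ j : ℕ, j ≤ q → j ≠ i → d (j : ZMod o) = 0) ∧
      ∑ j ∈ range (q + 1), d (j : ZMod o) = 1 := by
    intro d hd i hi hdi
    have h1 := hone d hd i hi
    have h2 : ∀ j : ℕ, j ≤ q → j ≠ i → d (j : ZMod o) = 0 := by
      intro j hj hji
      by_contra hcon
      have h3 := hone d hd j hj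
      have h4 := hrow i hi
      have h5 := hrow j hj
      exact g.two' hd (hnat j i hj hi hji) (Or.inl (by omega)) (Or.inl (by omega)) (by omega)
        (by omega) (by omega)
    refine ⟨h2, ?_⟩
    rw [sum_eq_single i]
    · omega
    · intro j hj hji
      rw [mem_range] at hj
      exact h2 j (by omega) hji
    · intro h
      exact absurd (mem_range.2 (by omega)) h
  -- delete in row 0
  have hA : c ≤ 1 + far r q 1 + r (-1) := by
    obtain ⟨d, hd, hd0⟩ := g.del ((0 : ℕ) : ZMod o) (by
      have := hrow 0 (by omega)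
      omega)
    obtain ⟨h1, h2⟩ := hsingle d hd 0 (by omega) hd0
    have h3 : d ((q : ZMod o) + 1) = 0 := by
      by_contra hcon
      have h4 := hrow 1 (by omega)
      have h5 := hrow q le_rfl
      refine g.pair_ne hd (y := ((0 : ℕ) : ZMod o)) (y' := (q : ZMod o) + 1)
        (v := ((1 : ℕ) : ZMod o)) (v' := (q : ZMod o)) hd0 (by omega) (fun h => ?_)
        (hnat 1 q (by omega) le_rfl (by omega)) (h1 1 (by omega) (by omega))
        (h1 q le_rfl (by omega)) (by omega) (by omega) (by omega) ?_
      · exfalso
        refine hne 0 ((q : ℤ) + 1) (by omega) (by omega) (by omega) (by omega) (by omega) ?_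
        push_cast at h ⊢
        exact h
      · push_cast
        ring
    have h4 := N.omit_sum hd
    have h5 := N.far_split' d
    have h6 := far_mono hd.le q 1
    have h7 := hd.le (-1)
    omega
  have hB : c ≤ 1 + far r q 1 + r ((q : ZMod o) + 1) := by
    obtain ⟨d, hd, hd0⟩ := g.del (q : ZMod o) (by
      have := hrow q le_rfl
      omega)
    obtain ⟨h1, h2⟩ := hsingle d hd q le_rfl hd0
    have h3 : d (-1) = 0 := by
      by_contra hcon
      obtain ⟨q', hq'⟩ : ∃ q', q = q' + 1 := ⟨q - 1, by omega⟩
      have h4 := hrow 0 (by omega)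
      have h5 := hrow q' (by omega)
      refine g.pair_ne hd (y := (q : ZMod o)) (y' := -1)
        (v := ((0 : ℕ) : ZMod o)) (v' := (q' : ZMod o)) hd0 (by omega) (fun h => ?_)
        (hnat 0 q' (by omega) (by omega) (by omega)) (h1 0 (by omega) (by omega))
        (h1 q' (by omega) (by omega)) (by omega) (by omega) (by omega) ?_
      · exfalso
        refine hne (q : ℤ) (-1) (by omega) (by omega) (by omega) (by omega) (by omega) ?_
        push_cast
        exact h
      · rw [hq']
        push_cast
        ring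
    have h4 := N.omit_sum hd
    have h5 := N.far_split' d
    have h6 := far_mono hd.le q 1
    have h7 := hd.le ((q : ZMod o) + 1)
    omega
  have h1 := N.far_split
  have h2 := N.far_two
  have h3 := N.win
  have h4 := N.os
  have h5 := N.nt
  have h6 : q * (m + 1) ≤ q * c := Nat.mul_le_mul_left _ hmc
  have h7 : q * (m + 1) = q * m + q := by ring
  have h8 : t * m = q * m + m := by rw [ht]; ring
  have h9 : q * L ≤ 400 * L := Nat.mul_le_mul_right _ (by omega)
  omega

end S1M

open S1M

/-- S1: `s = 1`. -/
theorem end_S1 (N : Num r m t 1 n c q L D) (g : Game r (m * 1) θ c) (hθ : 1000 * θ ≤ m)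
    (hq : q < 400) : False := by
  have hL := N.hL
  have ht4 := N.t4
  have hmc := N.mc
  have hwin := N.win
  have hos := N.os
  have hnt := N.nt
  have h0 := N.far_zero
  have hsp := N.far_split
  have htwo := N.far_two
  have hr1 := g.row_le (-1)
  have hr2 := g.row_le ((q : ZMod o) + 1)
  have hqc : q * m + q ≤ q * c := by
    calc q * m + q = q * (m + 1) := by ring
      _ ≤ q * c := Nat.mul_le_mul_left _ hmc
  have hqL : q * L ≤ 400 * L := Nat.mul_le_mul_right _ (by omega)
  have hone : ∀ i : ℕ, i ≤ q → n + c ≤ r (i : ZMod o) + q * m + far r q 0 := by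
    intro i hi
    have := N.one_row (h := m * 1) g.row_le hi
    rwa [mul_one] at this
  have h00 := hone 0 (by omega)
  have hr0 := g.row_le ((0 : ℕ) : ZMod o)
  have hc : c ≤ m + L := by
    by_contra hcon
    have h1 : (q + 1) * (m + L + 1) ≤ (q + 1) * c := Nat.mul_le_mul_left _ (by omega)
    have h2 : (q + 1) * (m + L + 1) = q * m + q * L + q + m + L + 1 := by ring
    have h3 : (q + 1) * c = q * c + c := by ring
    omega
  have hqt : q ≤ t := by
    by_contra hcon
    have h1 : (t + 1) * m ≤ q * m := Nat.mul_le_mul_right _ (by omega)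
    have h2 : (t + 1) * m = t * m + m := by ring
    omega
  have htq : t ≤ q + 2 := by
    by_contra hcon
    have h1 : (q + 3) * m ≤ t * m := Nat.mul_le_mul_right _ (by omega)
    have h2 : (q + 3) * m = q * m + 3 * m := by ring
    omega
  have hrow : ∀ i : ℕ, i ≤ q → 998 * m ≤ 1000 * r (i : ZMod o) := by
    intro i hi
    have := hone i hi
    omega
  have hmain := N.main_sum
  obtain h | h | h : t = q ∨ t = q + 1 ∨ t = q + 2 := by omega
  · have htm : t * m = q * m := by rw [h]
    refine full_case N g hθ htq hc 0 (fun i hi => ?_) ?_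
    · rw [zero_add]
      have := hrow i (by omega)
      omega
    · simp only [zero_add]
      rw [h]
      omega
  · have htm : t * m = q * m + m := by rw [h]; ring
    by_cases h1 : m ≤ 50 * r (-1)
    · by_cases h2 : m ≤ 50 * r ((q : ZMod o) + 1)
      · exact split_case N g hθ hq h hc h1 h2 hrow
      · -- rows `- 1, ..., q`
        refine full_case N g hθ htq hc (-1) (fun i hi => ?_) ?_
        · rcases Nat.eq_zero_or_pos i with rfl | h3
          · rw [Nat.cast_zero, add_zero]
            omega
          · obtain ⟨i', rfl⟩ : ∃ i', i = i' + 1 := ⟨i - 1, by omega⟩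
            have := hrow i' (by omega)
            have h4 : (-1 : ZMod o) + ((i' + 1 : ℕ) : ZMod o) = (i' : ZMod o) := by
              push_cast
              ring
            rw [h4]
            omega
        · rw [sum_range_succ' _ t, h]
          have h4 : ∀ i : ℕ, (-1 : ZMod o) + ((i + 1 : ℕ) : ZMod o) = (i : ZMod o) := by
            intro i
            push_cast
            ring
          simp only [h4]
          rw [Nat.cast_zero, add_zero]
          omega
    · -- rows `0, ..., q + 1`
      refine full_case N g hθ htq hc 0 (fun i hi => ?_) ?_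
      · rw [zero_add]
        rcases Nat.lt_or_ge i (q + 1) with h3 | h3
        · have := hrow i (by omega)
          omega
        · have h4 : i = q + 1 := by omega
          rw [h4, Nat.cast_succ]
          omega
      · simp only [zero_add]
        rw [sum_range_succ _ t, h, Nat.cast_succ]
        omega
  · have htm : t * m = q * m + 2 * m := by rw [h]; ring
    refine full_case N g hθ htq hc (-1) (fun i hi => ?_) ?_
    · rcases Nat.eq_zero_or_pos i with rfl | h3
      · rw [Nat.cast_zero, add_zero]
        omega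
      · obtain ⟨i', rfl⟩ : ∃ i', i = i' + 1 := ⟨i - 1, by omega⟩
        have h4 : (-1 : ZMod o) + ((i' + 1 : ℕ) : ZMod o) = (i' : ZMod o) := by
          push_cast
          ring
        rw [h4]
        rcases Nat.lt_or_ge i' (q + 1) with h5 | h5
        · have := hrow i' (by omega)
          omega
        · have h6 : i' = q + 1 := by omega
          rw [h6, Nat.cast_succ]
          omega
    · rw [sum_range_succ' _ t, h]
      have h4 : ∀ i : ℕ, (-1 : ZMod o) + ((i + 1 : ℕ) : ZMod o) = (i : ZMod o) := by
        intro i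
        push_cast
        ring
      simp only [h4]
      rw [Nat.cast_zero, add_zero, sum_range_succ _ (q + 1), Nat.cast_succ]
      omega

end Pool.Agent.Lib.MPa7239a.RB
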