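import Pool.Agent.Lib.MP_a7239a_co.RB.GAME

/-!
# Theorem R*, the end game: one main row, and two main rows one of which is fat
-/

open Finset

namespace Pool.Agent.Lib.MPa7239a.RB

section
variable {o : ℕ} [NeZero o] {r d : ZMod o → ℕ} {m t s n c q L D h θ : ℕ}

/-- `q = 0`: the elements outside row `0` are counted by `far r 0 0` -/
private theorem row_zero (N : Num r m t s n c 0 L D) : n + c ≤ r 0 + (D + L) := by
  have h1 : near o 0 0 = {(0 : ZMod o)} := by
    unfold near
    simp
  have h2 : r 0 + far r 0 0 = n + c := by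
    rw [← N.total]
    unfold far
    rw [h1, ← sum_singleton r (0 : ZMod o), add_comm]
    exact sum_sdiff (subset_univ _)
  have h3 := N.far_mul 0
  omega

/-- a game with a nonempty row has an admissible vector -/
private theorem exists_adm (g : Game r h θ c) {u : ZMod o} (hu : 1 ≤ r u) : ∃ d, Adm r c d := by
  obtain ⟨d, hd, -⟩ := g.del u hu
  exact ⟨d, hd⟩

/-- Z: `q = 0` -/
theorem end_Z (N : Num r m t s n c 0 L D) (g : Game r (m * s) θ c) (hθ : 1000 * θ ≤ m)
    (hs : 2 ≤ s) : False := by
  have h0 := row_zero N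
  have hrow := g.row_le 0
  have hwin := N.win
  have hmc := N.mc
  have hmo := N.mo
  have hL := N.hL
  have hnt := N.nt
  have hos := N.os
  have ht := N.t4
  -- o (s - 1) ≤ m (s - 1) + L - 3
  have h1 : o * s + c + 2 ≤ m * s + o + L := by omega
  have hts : t ≤ s := by
    by_contra hlt
    have hlt : s + 1 ≤ t := by omega
    have h2 : (s + 1) * m ≤ o * s := by
      rw [hos, hnt]
      exact Nat.mul_le_mul_right m hlt
    have h3 : m < o := by
      by_contra hcon
      have h4 : o * s ≤ m * s := Nat.mul_le_mul_right s (by omega)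
      nlinarith
    obtain ⟨e, rfl⟩ : ∃ e, o = m + e := ⟨o - m, by omega⟩
    obtain ⟨w, rfl⟩ : ∃ w, s = w + 2 := ⟨s - 2, by omega⟩
    nlinarith
  have hom : o ≤ m := by
    have h2 : o * s ≤ m * s := by
      rw [hos, hnt, mul_comm m s]
      exact Nat.mul_le_mul_right m hts
    exact Nat.le_of_mul_le_mul_right h2 (by omega)
  have h2s : o * 2 ≤ o * s := Nat.mul_le_mul_left o hs
  have h2m : m * 2 ≤ m * s := Nat.mul_le_mul_left m hs
  have h2t : 4 * m ≤ t * m := Nat.mul_le_mul_right m ht
  have hms : m * s ≤ o * s + 2 * L * s := by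
    calc m * s ≤ (o + 2 * L) * s := Nat.mul_le_mul_right s hmo
      _ = o * s + 2 * L * s := by ring
  have hLs : 400000 * (L + 1) * s ≤ m * s := Nat.mul_le_mul_right s hL
  have hLs' : 400000 * (L * s) + 400000 * s = 400000 * (L + 1) * s := by ring
  have hLs2 : 2 * L * s = 2 * (L * s) := by ring
  have hfat : m * s + θ ≤ 2 * r 0 := by omega
  obtain ⟨d, hd⟩ := exists_adm g (u := 0) (by omega)
  exact g.zero_row hd hfat (by omega) (by omega) (by omega)

/-- B1 with a fat main row -/
theorem end_B1a (N : Num r m t s n c 1 L D) (g : Game r (m * s) θ c) (hθ : 1000 * θ ≤ m)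
    (hs : 2 ≤ s) (hk : t ≤ s) {u : ZMod o} (hfat : m * s + θ ≤ 2 * r u) : False := by
  have hwin := N.win
  have hmc := N.mc
  have hL := N.hL
  have hnt := N.nt
  have hos := N.os
  have ht := N.t4
  have hom : o ≤ m := by
    have h2 : o * s ≤ m * s := by
      rw [hos, hnt, mul_comm m s]
      exact Nat.mul_le_mul_right m hk
    exact Nat.le_of_mul_le_mul_right h2 (by omega)
  have h4 : m * 4 ≤ m * s := Nat.mul_le_mul_left m (by omega)
  obtain ⟨d, hd⟩ := exists_adm g (u := u) (by omega)
  exact g.zero_row hd hfat (by omega) (by omega) (by omega)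

end

end Pool.Agent.Lib.MPa7239a.RB
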