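import Pool.Agent.Lib.MP_a7239a_co.RB.A
import Pool.Agent.Lib.MP_a7239a_co.RB.B1
import Pool.Agent.Lib.MP_a7239a_co.RB.B2
import Pool.Agent.Lib.MP_a7239a_co.RB.CYC3
import Pool.Agent.Lib.MP_a7239a_co.RB.INPB
import Pool.Agent.Lib.MP_a7239a_co.RB.L
import Pool.Agent.Lib.MP_a7239a_co.RB.PHI
import Pool.Agent.Lib.MP_a7239a_co.RB.RULES
import Pool.Agent.Lib.MP_a7239a_co.RB.S1
import Pool.Agent.Lib.MP_a7239a_co.RB.Z
import Pool.Agent.Lib.MP_a7239a_co.RS.INP
import Pool.Agent.Lib.MP_a7239a_co.RS.PARS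
import Pool.Agent.Lib.MP_a7239a_co.RK.MAINB

/-!
# Theorem R*, the assembly (module MAINB)
-/

set_option autoImplicit false

open Finset

namespace Pool.Agent.Lib.MPa7239a.RB

open Pool.Agent.Lib.MPa7239a.GC
open Pool.Agent.Lib.MPa7239a.RK
open Pool.Agent.Lib.MPa7239a.RS

/-- THE END GAME: `G` of order `m n`, `A` with the deletion property and the structure -/
theorem end_game {G : Type*} [AddCommGroup G] [Fintype G] [DecidableEq G] {o : ℕ} [NeZero o]
    (φ : G →+ ZMod o) (hφ : Function.Surjective φ) {A S : Finset G} (z : G → ℤ)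
    {m t s n c k t' q L θ : ℕ} (hG : ∀ x : G, n • x = 0)
    (h4 : ∀ g : G, #{x : G | x + x = g} ≤ 4) (hker : Nat.card φ.ker = m * s)
    (hFF : ∀ K : AddSubgroup G, FatFull K θ) (hθ : 1000 * θ ≤ m)
    (hnt : n = t * m) (hos : o * s = n) (ht : 4 ≤ t) (hA : #A = n + c)
    (hmc : m + 1 ≤ c) (hS : S ⊆ A) (hloss : #A ≤ #S + L) (hL : 400000 * (L + 1) ≤ m)
    (hz : ∀ x ∈ S, φ x = (z x : ZMod o)) (hSc : #S = k + t') (hk : k ≤ n)
    (hwin : t' * q + ∑ x ∈ S.filter (fun x => (q : ℤ) < z x), (z x - q) +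
      ∑ x ∈ S.filter (fun x => z x < 0), (0 - z x) + 2 ≤ o)
    (hrow : ∀ B ⊆ A, (∀ x ∈ B, φ x = 0) → #B < n + L)
    (hlow : ∀ K : AddSubgroup G, K ≠ ⊤ → ∀ x₀ : G, ∀ B ⊆ A, (∀ x ∈ B, x - x₀ ∈ K) →
      1000 * #B + m ≤ 1000 * n + 1000 * m)
    (hdel : Del A n) : Hit A n 0 := by
  by_contra hno
  have hn1 : 1 ≤ n := by
    rw [hnt]
    exact Nat.mul_pos (by omega) (by omega)
  have hs1 : 1 ≤ s := by
    rcases Nat.eq_zero_or_pos s with h | h
    · rw [h, mul_zero] at hos
      omega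
    · exact h
  -- `o` is nearly `m` at least
  have hD1 : (0 : ℤ) ≤ ∑ x ∈ S.filter (fun x => (q : ℤ) < z x), (z x - q) := by
    refine sum_nonneg fun x hx => ?_
    rw [mem_filter] at hx
    omega
  have hD2 : (0 : ℤ) ≤ ∑ x ∈ S.filter (fun x => z x < 0), (0 - z x) := by
    refine sum_nonneg fun x hx => ?_
    rw [mem_filter] at hx
    omega
  have hmo : m ≤ o + 2 * L := by
    rcases Nat.eq_zero_or_pos q with hq | hq
    · -- row 0
      subst hq
      have h1 := hrow (A.filter (fun x => φ x = 0)) (filter_subset _ _)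
        fun x hx => (mem_filter.1 hx).2
      have h2 : (#(S.filter (fun x => z x ≠ 0)) : ℤ) + 2 ≤ o := by
        have h3 : S.filter (fun x => z x ≠ 0) =
            S.filter (fun x => ((0 : ℕ) : ℤ) < z x) ∪ S.filter (fun x => z x < 0) := by
          ext x
          simp only [mem_filter, mem_union]
          constructor
          · rintro ⟨h, h'⟩
            rcases lt_or_gt_of_ne h' with h'' | h''
            · exact Or.inr ⟨h, h''⟩
            · exact Or.inl ⟨h, by push_cast; exact h''⟩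
          · rintro (⟨h, h'⟩ | ⟨h, h'⟩)
            · exact ⟨h, by push_cast at h'; omega⟩
            · exact ⟨h, by omega⟩
        have h5 : (#(S.filter (fun x => ((0 : ℕ) : ℤ) < z x)) : ℤ) ≤
            ∑ x ∈ S.filter (fun x => ((0 : ℕ) : ℤ) < z x), (z x - (0 : ℕ)) := by
          rw [card_eq_sum_ones, Nat.cast_sum]
          refine sum_le_sum fun x hx => ?_
          rw [mem_filter] at hx
          push_cast at hx ⊢
          omega
        have h6 : (#(S.filter (fun x => z x < 0)) : ℤ) ≤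
            ∑ x ∈ S.filter (fun x => z x < 0), (0 - z x) := by
          rw [card_eq_sum_ones, Nat.cast_sum]
          refine sum_le_sum fun x hx => ?_
          rw [mem_filter] at hx
          push_cast
          omega
        have h7 := card_union_le (S.filter (fun x => ((0 : ℕ) : ℤ) < z x))
          (S.filter (fun x => z x < 0))
        rw [← h3] at h7
        have h8 : (#(S.filter (fun x => z x ≠ 0)) : ℤ) ≤
            #(S.filter (fun x => ((0 : ℕ) : ℤ) < z x)) + #(S.filter (fun x => z x < 0)) := by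
          exact_mod_cast h7
        push_cast at hwin h5 h8 ⊢
        linarith
      have h3 : #(S.filter (fun x => z x = 0)) ≤ #(A.filter (fun x => φ x = 0)) := by
        refine card_le_card fun x hx => ?_
        rw [mem_filter] at hx ⊢
        refine ⟨hS hx.1, ?_⟩
        rw [hz x hx.1, hx.2, Int.cast_zero]
      have h5 := card_filter_add_card_filter_not (s := S) (fun x => z x = 0)
      have h6 : #(S.filter (fun x => ¬ z x = 0)) + 2 ≤ o := by exact_mod_cast h2
      omega
    · have h1 : (t' : ℤ) ≤ t' * q := by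
        have : (1 : ℤ) ≤ q := by exact_mod_cast hq
        nlinarith
      have h2 : (t' : ℤ) + 2 ≤ o := by linarith
      omega
  obtain ⟨D, N⟩ := num_of φ z hnt hos hs1 ht hA hmc hS hloss hL hz hSc hk hmo hwin
  have ho := N.o_large
  have g : Game (cnt φ A) (m * s) θ c :=
    game_of φ hφ (by omega) hA hker (hFF _) hdel hno
  rcases Nat.lt_or_ge q 400 with hq | hq
  · rcases Nat.lt_or_ge s 2 with hs | hs
    · obtain rfl : s = 1 := by omega
      exact end_S1 N g hθ hq
    · rcases Nat.eq_zero_or_pos q with hq0 | hq0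
      · subst hq0
        exact end_Z N g hθ hs
      · rcases Nat.lt_or_ge (q * s) t with hk' | hk'
        · exact end_A N g hθ hs hq0 hq hk'
        · rcases Nat.lt_or_ge q 2 with hq2 | hq2
          · obtain rfl : q = 1 := by omega
            rw [one_mul] at hk'
            by_cases hfat : ∃ u, m * s + θ ≤ 2 * cnt φ A u
            · obtain ⟨u, hu⟩ := hfat
              exact end_B1a N g hθ hs hk' hu
            · push Not at hfat
              exact end_B1 φ hφ N hG h4 hker hFF hθ hs hk' hfat hdel hlow hno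
          · exact end_B2 N g hθ hs hq2 hq hk'
  · exact end_L N g hθ hq

/-! ### Transfer along an injective homomorphism -/

section
variable {G₁ G₂ : Type*} [AddCommGroup G₁] [AddCommGroup G₂]

theorem fatFull_of_inj [DecidableEq G₂] (ι : G₁ →+ G₂) (hι : Function.Injective ι)
    {K : AddSubgroup G₁} {θ : ℕ} (h : FatFull (K.map ι) θ) : FatFull K θ := by
  intro B x₀ hB hK d hd hd2 y hy
  have hc : Nat.card (K.map ι) = Nat.card K :=
    (Nat.card_congr (K.equivMapOfInjective ι hι).toEquiv).symm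
  have hBc : #(B.image ι) = #B := card_image_of_injective _ hι
  obtain ⟨T', hT', hTc, hTs⟩ := h (B.image ι) (ι x₀) (by
      intro x hx
      obtain ⟨b, hb, rfl⟩ := mem_image.1 hx
      rw [← map_sub]
      exact AddSubgroup.mem_map_of_mem ι (hB b hb)) (by rw [hc, hBc]; exact hK) d hd
      (by rw [hBc]; exact hd2) (ι y) (by
      rw [← map_nsmul, ← map_sub]
      exact AddSubgroup.mem_map_of_mem ι hy)
  obtain ⟨T, hT, rfl⟩ := subset_image_iff.1 hT'
  rw [card_image_of_injective _ hι] at hTc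
  rw [sum_image fun x _ y _ h => hι h, ← map_sum] at hTs
  exact ⟨T, hT, hTc, hι hTs⟩

theorem four_of_inj [Fintype G₁] [DecidableEq G₁] [Fintype G₂] [DecidableEq G₂] (ι : G₁ →+ G₂)
    (hι : Function.Injective ι) (h4 : ∀ g : G₂, #{x : G₂ | x + x = g} ≤ 4) (g : G₁) :
    #{x : G₁ | x + x = g} ≤ 4 := by
  refine le_trans ?_ (h4 (ι g))
  rw [← card_image_of_injective _ hι]
  refine card_le_card fun x hx => ?_
  obtain ⟨y, hy, rfl⟩ := mem_image.1 hx
  rw [mem_filter] at hy ⊢
  exact ⟨mem_univ _, by rw [← map_add, hy.2]⟩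

/-- the end game for the structure in the image of an injective homomorphism -/
theorem false_of_amj [Fintype G₁] [DecidableEq G₁] [DecidableEq G₂] [Finite G₂] (ι : G₁ →+ G₂)
    (hι : Function.Injective ι) {A : Finset G₁} {H : AddSubgroup G₂} {e q : G₂} {S : Finset G₂}
    {z : G₂ → ℤ} {m t n c o τ loss k t' Z θ : ℕ} {u v : ℤ}
    (h : Amj ι.range ι.range H e q (A.image ι) S z m n c 1 o τ loss k t' Z u v)
    (hnt : n = t * m) (ht : 4 ≤ t) (hmc : m + 1 ≤ c) (hL : 400000 * (loss + 1) ≤ m)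
    (hτ : 1000 * τ ≤ 999 * m + 1000) (hG : ∀ x : G₁, n • x = 0)
    (h4 : ∀ g : G₁, #{x : G₁ | x + x = g} ≤ 4) (hFF : ∀ K : AddSubgroup G₁, FatFull K θ)
    (hθ : 1000 * θ ≤ m) (hdel : Del A n) (hno : ¬ Hit A n 0) : False := by
  classical
  have hn1 : 1 ≤ n := by
    rw [hnt]
    exact Nat.mul_pos (by omega) (by omega)
  -- the quotient map
  obtain ⟨e₁, he₁⟩ := h.eK
  obtain ⟨q₁, hq₁A, hq₁⟩ := mem_image.1 (h.sub h.qS)
  have horder : addOrderOf ((e₁ : G₁) : G₁ ⧸ H.comap ι) = o := by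
    rw [← h.order]
    refine addOrderOf_eq_addOrderOf_iff.2 fun a => ?_
    rw [← QuotientAddGroup.mk_nsmul, ← QuotientAddGroup.mk_nsmul, QuotientAddGroup.eq_zero_iff,
      QuotientAddGroup.eq_zero_iff, AddSubgroup.mem_comap, map_nsmul, he₁]
  have ho0 : 0 < o := by
    rw [← h.order]
    exact addOrderOf_pos _
  have : NeZero o := ⟨by omega⟩
  obtain ⟨φ, hφ, hker, hφe⟩ := exists_phi (H := H.comap ι) horder (fun x => by
    obtain ⟨a, ha⟩ := h.gen (ι x) ⟨x, rfl⟩
    refine ⟨a, ?_⟩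
    rw [AddSubgroup.mem_comap, map_sub, map_zsmul, he₁]
    exact ha)
  obtain ⟨s, hs⟩ := h.on
  have hos : o * s = n := hs.symm
  have hφH : ∀ x, φ x = 0 ↔ ι x ∈ H := by
    intro x
    rw [← AddMonoidHom.mem_ker, hker, AddSubgroup.mem_comap]
  have hkc : Nat.card φ.ker = m * s := by
    have h1 : Nat.card (H.comap ι) = Nat.card H := by
      have h2 : (H.comap ι).map ι = H := by
        rw [AddSubgroup.map_comap_eq]
        exact inf_eq_right.2 h.HK
      calc Nat.card (H.comap ι) = Nat.card ((H.comap ι).map ι) :=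
            Nat.card_congr ((H.comap ι).equivMapOfInjective ι hι).toEquiv
        _ = Nat.card H := by rw [h2]
    rw [hker, h1]
    have h3 := h.cardH
    have h5 := h.cardΓ
    rw [h5] at h3
    have h6 : o * Nat.card H = o * (m * s) := by
      rw [mul_comm o, h3, ← hos]
      ring
    exact Nat.eq_of_mul_eq_mul_left ho0 h6
  -- translation
  set x₀ : G₁ := q₁ + u • e₁ with hx₀
  have hφ₀ : ∀ x : G₁, ι x ∈ S → φ (x - x₀) = ((z (ι x) - u : ℤ) : ZMod o) := by
    intro x hx
    have h1 := h.lift _ hx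
    have h2 : φ (x - q₁ - z (ι x) • e₁) = 0 := by
      rw [hφH, map_sub, map_sub, map_zsmul, he₁, hq₁]
      exact h1
    rw [map_sub, map_zsmul, hφe, zsmul_one, sub_eq_zero] at h2
    have h3 : x - x₀ = (x - q₁) - u • e₁ := by
      rw [hx₀]
      abel
    rw [h3, map_sub, map_zsmul, hφe, zsmul_one, h2]
    push_cast
    ring
  set A₂ := A.image (fun x => x - x₀) with hA₂
  set S₁ := A.filter (fun x => ι x ∈ S) with hS₁
  have hSι : S₁.image ι = S := by
    ext y
    rw [mem_image]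
    constructor
    · rintro ⟨x, hx, rfl⟩
      exact (mem_filter.1 hx).2
    · intro hy
      obtain ⟨x, hx, rfl⟩ := mem_image.1 (h.sub hy)
      exact ⟨x, mem_filter.2 ⟨hx, hy⟩, rfl⟩
  have hS₁c : #S₁ = #S := by
    rw [← hSι, card_image_of_injective _ hι]
  set S₂ := S₁.image (fun x => x - x₀) with hS₂
  have hsub : Function.Injective (fun x : G₁ => x - x₀) := sub_left_injective
  set z₂ : G₁ → ℤ := fun y => z (ι (y + x₀)) - u with hz₂
  have hz₂' : ∀ x, z₂ (x - x₀) = z (ι x) - u := by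
    intro x
    rw [hz₂]
    simp only [sub_add_cancel]
  obtain ⟨p, hp⟩ := Int.eq_ofNat_of_zero_le (show 0 ≤ v - u by have := h.uv; omega)
  have hAc : #A = n + c := by
    rw [← h.card, card_image_of_injective _ hι]
  have hA₂c : #A₂ = n + c := by rw [hA₂, card_image_of_injective _ hsub, hAc]
  have hS₂c : #S₂ = #S := by rw [hS₂, card_image_of_injective _ hsub, hS₁c]
  have hloss : #A ≤ #S + loss := by
    have h1 := h.inK (A.image ι) (Subset.refl _) (fun x hx => by
      obtain ⟨y, hy, rfl⟩ := mem_image.1 hx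
      exact ⟨y - q₁, by rw [map_sub, hq₁]⟩)
    rwa [card_image_of_injective _ hι] at h1
  -- the sums
  have hsum : ∀ (P : ℤ → Prop) [DecidablePred P] (f : ℤ → ℤ),
      ∑ x ∈ S₂.filter (fun x => P (z₂ x)), f (z₂ x) =
        ∑ x ∈ S.filter (fun x => P (z x - u)), f (z x - u) := by
    intro P _ f
    rw [← hSι, hS₂, sum_filter, sum_filter, sum_image (fun x _ y _ hxy => hsub hxy),
      sum_image (fun x _ y _ hxy => hι hxy)]
    refine sum_congr rfl fun x _ => ?_
    simp only [hz₂']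
  have hwin : t' * p + ∑ x ∈ S₂.filter (fun x => (p : ℤ) < z₂ x), (z₂ x - p) +
      ∑ x ∈ S₂.filter (fun x => z₂ x < 0), (0 - z₂ x) + 2 ≤ o := by
    have h1 := h.win
    have h2 := hsum (fun a => (p : ℤ) < a) (fun a => a - p)
    have h3 := hsum (fun a => a < 0) (fun a => 0 - a)
    have e1 : S.filter (fun x => (p : ℤ) < z x - u) = S.filter (fun x => v < z x) :=
      filter_congr fun x _ => by omega
    have e2 : S.filter (fun x => z x - u < 0) = S.filter (fun x => z x < u) :=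
      filter_congr fun x _ => by omega
    rw [e1] at h2
    rw [e2] at h3
    have e3 : ∑ x ∈ S.filter (fun x => v < z x), (z x - u - p) =
        ∑ x ∈ S.filter (fun x => v < z x), (z x - v) := sum_congr rfl fun x _ => by omega
    have e4 : ∑ x ∈ S.filter (fun x => z x < u), (0 - (z x - u)) =
        ∑ x ∈ S.filter (fun x => z x < u), (u - z x) := sum_congr rfl fun x _ => by omega
    rw [e3] at h2
    rw [e4] at h3
    rw [h2, h3]
    have h5 : (t' : ℤ) * p = t' * (v - u) := by rw [hp]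
    rw [h5]
    exact h1
  -- the translated set has no zero-sum
  have hno₂ : ¬ Hit A₂ n 0 := fun h1 => hno (Hit.translate (hG x₀) h1)
  refine hno₂ (end_game φ hφ (A := A₂) (S := S₂) z₂ (s := s) (θ := θ) (L := loss) (q := p) hG h4
    hkc hFF hθ hnt hos ht hA₂c hmc ?_ (by omega) hL ?_ (by rw [hS₂c]; exact h.cardS) h.kn hwin
    ?_ ?_ (Del.translate (hG x₀) hdel))
  · exact image_subset_image (filter_subset _ _)
  · intro y hy
    obtain ⟨x, hx, rfl⟩ := mem_image.1 hy
    rw [hz₂', hφ₀ x (mem_filter.1 hx).2]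
  · -- row 0
    intro B hB hB0
    have hinj : Function.Injective (fun y : G₁ => ι (y + x₀)) := fun a b hab =>
      add_left_injective x₀ (hι hab)
    rw [← card_image_of_injective B hinj]
    refine h.row (q + u • e) _ ?_ ?_
    · intro w hw
      obtain ⟨y, hy, rfl⟩ := mem_image.1 hw
      obtain ⟨x, hx, rfl⟩ := mem_image.1 (hB hy)
      simp only [sub_add_cancel]
      exact mem_image_of_mem _ hx
    · intro w hw
      obtain ⟨y, hy, rfl⟩ := mem_image.1 hw
      have h1 := (hφH y).1 (hB0 y hy)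
      have h2 : ι (y + x₀) - (q + u • e) = ι y := by
        rw [map_add, hx₀, map_add, map_zsmul, hq₁, he₁]
        abel
      rw [h2]
      exact h1
  · -- cosets of proper subgroups
    intro K hK x₁ B hB hBK
    have hinj : Function.Injective (fun y : G₁ => ι (y + x₀)) := fun a b hab =>
      add_left_injective x₀ (hι hab)
    have h1 : #(B.image (fun y => ι (y + x₀))) < n + τ := by
      refine h.low (K.map ι) ?_ ?_ (ι (x₁ + x₀)) _ ?_ ?_
      · rintro _ ⟨x, _, rfl⟩
        exact ⟨x, rfl⟩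
      · have e1 : Nat.card (K.map ι) = Nat.card K :=
          (Nat.card_congr (K.equivMapOfInjective ι hι).toEquiv).symm
        have e2 : Nat.card ι.range = Nat.card G₁ :=
          (Nat.card_congr (AddMonoidHom.ofInjective hι).toEquiv).symm
        rw [e1, e2, ← AddSubgroup.card_top (G := G₁)]
        exact card_lt_of_lt (lt_top_iff_ne_top.2 hK)
      · intro w hw
        obtain ⟨y, hy, rfl⟩ := mem_image.1 hw
        obtain ⟨x, hx, rfl⟩ := mem_image.1 (hB hy)
        simp only [sub_add_cancel]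
        exact mem_image_of_mem _ hx
      · intro w hw
        obtain ⟨y, hy, rfl⟩ := mem_image.1 hw
        refine ⟨y - x₁, hBK y hy, ?_⟩
        simp only [map_sub, map_add]
        abel
    rw [card_image_of_injective B hinj] at h1
    omega

end

theorem upper_cyc_B' {m t n N : ℕ} (ht : 4 ≤ t) (hn : n = t * m)
    (hm : 10 ^ 40 * (Nat.log 2 n + 1) ^ 12 ≤ m)
    (hN : ∀ A : Finset (ZMod m × ZMod n), CycFree A n → #A ≤ N) (hN1 : (t + 1) * m ≤ N + 1)
    {A : Finset (ZMod m × ZMod n)} (hA : #A = N + 2) : Hit A n 0 := by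
  classical
  have hm40 : 10 ^ 40 ≤ m := by
    have h1 : 1 ≤ (Nat.log 2 n + 1) ^ 12 := Nat.one_le_pow _ _ (by omega)
    calc 10 ^ 40 = 10 ^ 40 * 1 := (mul_one _).symm
      _ ≤ 10 ^ 40 * (Nat.log 2 n + 1) ^ 12 := Nat.mul_le_mul_left _ h1
      _ ≤ m := hm
  have hm0 : m ≠ 0 := by
    rintro rfl
    norm_num at hm40
  have h4m : 4 * m ≤ n := by
    rw [hn]
    exact Nat.mul_le_mul_right _ ht
  have hn0 : n ≠ 0 := by omega
  have hdvd : m ∣ n := hn ▸ Dvd.intro_left t rfl
  have : NeZero n := ⟨hn0⟩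
  have : NeZero m := ⟨hm0⟩
  obtain ⟨ι, hι, hcard⟩ := exists_image hm0 hn0 hdvd
  by_contra hno
  obtain ⟨ℓ, M, Λ, k₀, hpar, hℓ, hL⟩ := exists_par (m := m) (n := n) (by omega) hm
  obtain ⟨loss, hloss⟩ : ∃ loss, loss = 2592 * M * ℓ ^ 3 := ⟨_, rfl⟩
  rw [← hloss] at hL
  have hℓ1 : 1 ≤ ℓ := by omega
  have hloss1 : 1 ≤ loss := by
    rw [hloss]
    exact Nat.mul_pos (Nat.mul_pos (by norm_num) hpar.hM) (Nat.pow_pos hℓ1)
  have hθ : 1000 * (600 * ℓ ^ 3) ≤ m := by
    refine le_trans ?_ hm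
    rw [← hℓ]
    calc 1000 * (600 * ℓ ^ 3) = 600000 * ℓ ^ 3 := by ring
      _ ≤ 10 ^ 40 * ℓ ^ 12 :=
        Nat.mul_le_mul (by norm_num) (Nat.pow_le_pow_right hℓ1 (by norm_num))
  have hFF : ∀ K : AddSubgroup (ZMod m × ZMod n), FatFull K (600 * ℓ ^ 3) := fun K =>
    fatFull_of_inj ι hι (fatFull hpar.hℓ hpar.hb _)
  have h4 : ∀ g : ZMod m × ZMod n, #{x : ZMod m × ZMod n | x + x = g} ≤ 4 :=
    four_of_inj ι hι fun g => four_solutions g
  have hG : ∀ x : ZMod m × ZMod n, n • x = 0 := by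
    intro x
    apply hι
    rw [map_nsmul, map_zero]
    exact n_nsmul _
  have h1 : (t + 1) * m = n + m := by
    rw [hn]
    ring
  obtain ⟨c, hc⟩ : ∃ c, N + 2 = n + c := ⟨N + 2 - n, by omega⟩
  have hmc : m + 1 ≤ c := by omega
  obtain ⟨τ, hτ⟩ : ∃ τ, τ + m / 500 = m := ⟨m - m / 500, by omega⟩
  have hrange : ∀ B : Finset (ZMod m × ZMod n), ∀ x ∈ B.image ι, x ∈ ι.range := by
    intro B x hx
    obtain ⟨y, _, rfl⟩ := mem_image.1 hx
    exact ⟨y, rfl⟩
  have key : ∀ (B : Finset (ZMod m × ZMod n)) (c' : ℕ), B ⊆ A → #B = n + c' → m + 1 ≤ c' →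
      c' + 3 * loss ≤ n → ∃ (H : AddSubgroup (ZMod n × ZMod n)) (e q : ZMod n × ZMod n)
      (S : Finset (ZMod n × ZMod n)) (z : ZMod n × ZMod n → ℤ) (o k t' Z : ℕ) (u v : ℤ),
      Amj ι.range ι.range H e q (B.image ι) S z m n c' 1 o τ loss k t' Z u v := by
    intro B c' hB hBc hmc' hcn
    refine input hpar hcard hloss (hrange B) ?_ (by omega) (by omega) (by omega)
      (fun _ => hmc') (by omega) hdvd hcn ?_
    · rw [card_image_of_injective _ hι, hBc]
    · exact fun h => hno (Hit.mono hB (hit_of_image ι hι h))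
  rcases Nat.lt_or_ge n (c + 3 * loss) with hcn | hcn
  · obtain ⟨B, hB, hBc⟩ := exists_subset_card_eq (show n + (n - 3 * loss) ≤ #A by omega)
    obtain ⟨H, e, q, S, z, o, k, t', Z, u, v, h⟩ := key B (n - 3 * loss) hB hBc (by omega)
      (by omega)
    exact big_cB h h4m (by omega) hloss1 (by omega)
  · obtain ⟨H, e, q, S, z, o, k, t', Z, u, v, h⟩ := key A c (Subset.refl _) (by omega) hmc hcn
    refine false_of_amj ι hι h hn ht hmc hL (by omega) hG h4 hFF hθ ?_ hno
    intro o' ψ ho' hψ a ha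
    have h5 : ¬ CycFree (A.erase a) n := by
      intro h6
      have h7 := hN _ h6
      rw [card_erase_of_mem ha] at h7
      omega
    by_contra hcon
    push Not at hcon
    refine h5 ⟨o', ψ, ho', hψ, fun T hT hTc => ?_⟩
    exact hcon T (hT.trans (erase_subset _ _)) (fun h => notMem_erase a A (hT h)) hTc

/-- THE UPPER BOUND OF THEOREM R* -/
theorem upper_cyc_B {m t N : ℕ} (ht : 4 ≤ t)
    (hm : 10 ^ 40 * (Nat.log 2 (t * m) + 1) ^ 12 ≤ m)
    (hN : ∀ A : Finset (ZMod m × ZMod (t * m)), CycFree A (t * m) → #A ≤ N)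
    {A : Finset (ZMod m × ZMod (t * m))} (hA : #A = N + 2) : Hit A (t * m) 0 := by
  have hm3 : 3 ≤ m := by
    have h1 : 1 ≤ (Nat.log 2 (t * m) + 1) ^ 12 := Nat.one_le_pow _ _ (by omega)
    have h2 : 10 ^ 40 * 1 ≤ 10 ^ 40 * (Nat.log 2 (t * m) + 1) ^ 12 := Nat.mul_le_mul_left _ h1
    have h3 : (3 : ℕ) ≤ 10 ^ 40 * 1 := by norm_num
    omega
  obtain ⟨A₀, hA₀, hA₀'⟩ := cyc3 ht hm3
  have := hN A₀ hA₀'
  exact upper_cyc_B' ht rfl hm hN (by omega) hA

end Pool.Agent.Lib.MPa7239a.RB
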